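import Pool.Agent.Lib.MP_96875a_lc.FU

/-!
Basic lemmas on forcing universes: density, separation, pairs, ordered pairs, values.
-/

open CategoryTheory

namespace Pool.Agent.Lib.ZFM

variable {C : Type 1} [Category.{0} C]

section Dn

variable {c : C} {Φ Ψ : ∀ d : C, (d ⟶ c) → Prop}

theorem Dn.imp (h : ∀ (d : C) (f : d ⟶ c), Φ d f → Ψ d f) (H : Dn Φ) : Dn Ψ := by
  intro d f
  obtain ⟨e, g, hg⟩ := H d f
  exact ⟨e, g, h _ _ hg⟩

theorem Dn.of_all (h : ∀ (d : C) (f : d ⟶ c), Φ d f) : Dn Φ :=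
  fun d f => ⟨d, 𝟙 d, h _ _⟩

theorem Dn.res (H : Dn Φ) {d : C} (f : d ⟶ c) : Dn (fun e (g : e ⟶ d) => Φ e (g ≫ f)) := by
  intro e g
  obtain ⟨e', g', h⟩ := H e (g ≫ f)
  exact ⟨e', g', by simpa using h⟩

theorem Dn.join (H : Dn (fun d (f : d ⟶ c) => Dn (fun e (g : e ⟶ d) => Φ e (g ≫ f)))) : Dn Φ := by
  intro d f
  obtain ⟨e, g, h⟩ := H d f
  obtain ⟨e', g', h'⟩ := h e (𝟙 e)
  exact ⟨e', g' ≫ g, by simpa using h'⟩

theorem Dn.bind (hΨ : ∀ (d : C) (f : d ⟶ c), Φ d f → Dn (fun e (g : e ⟶ d) => Ψ e (g ≫ f)))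
    (H : Dn Φ) : Dn Ψ :=
  Dn.join (H.imp hΨ)

theorem Dn.and (hΦ : ∀ (d : C) (f : d ⟶ c) (e : C) (g : e ⟶ d), Φ d f → Φ e (g ≫ f))
    (H : Dn Φ) (K : Dn Ψ) : Dn (fun d f => Φ d f ∧ Ψ d f) := by
  intro d f
  obtain ⟨e, g, h⟩ := H d f
  obtain ⟨e', g', h'⟩ := K e (g ≫ f)
  exact ⟨e', g' ≫ g, by simpa using hΦ _ _ _ g' h, by simpa using h'⟩

/-- a density statement with no extension where it fails -/
theorem Dn.of_not (hn : ¬ ∃ (d : C) (f : d ⟶ c), ∀ (e : C) (g : e ⟶ d), ¬ Φ e (g ≫ f)) :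
    Dn Φ := by
  push Not at hn
  exact hn

end Dn

/-- a monotone, local and congruent predicate on elements over the stage `c` -/
structure Pd (U : FU C) (c : C) where
  P : ∀ d : C, (d ⟶ c) → U.El d → Prop
  mono : ∀ {d e : C} (f : d ⟶ c) (g : e ⟶ d) (x : U.El d), P d f x → P e (g ≫ f) (U.res g x)
  loc : ∀ {d : C} (f : d ⟶ c) (x : U.El d),
    Dn (fun e (g : e ⟶ d) => P e (g ≫ f) (U.res g x)) → P d f x
  congr : ∀ {d : C} (f : d ⟶ c) (x y : U.El d), U.eq x y → P d f x → P d f y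

/-- a monotone, local and congruent binary relation on elements over the stage `c` -/
structure Rl (U : FU C) (c : C) where
  P : ∀ d : C, (d ⟶ c) → U.El d → U.El d → Prop
  mono : ∀ {d e : C} (f : d ⟶ c) (g : e ⟶ d) (x y : U.El d), P d f x y →
    P e (g ≫ f) (U.res g x) (U.res g y)
  loc : ∀ {d : C} (f : d ⟶ c) (x y : U.El d),
    Dn (fun e (g : e ⟶ d) => P e (g ≫ f) (U.res g x) (U.res g y)) → P d f x y
  congr : ∀ {d : C} (f : d ⟶ c) (x x' y y' : U.El d), U.eq x x' → U.eq y y' →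
    P d f x y → P d f x' y'

namespace FU

variable (U : FU C)

theorem eq_of_eq {c : C} {x y : U.El c} (h : x = y) : U.eq x y := h ▸ U.eq_refl x

theorem eq_left {c : C} {x x' y : U.El c} (h : U.eq x x') (H : U.mem x y) : U.mem x' y :=
  U.mem_congr h (U.eq_refl y) H

theorem eq_right {c : C} {x y y' : U.El c} (h : U.eq y y') (H : U.mem x y) : U.mem x y' :=
  U.mem_congr (U.eq_refl x) h H

-- BEGIN B1
/-- (task B1) separation for predicates -/
theorem exists_sep {c : C} (A : U.El c) (Φ : Pd U c) : ∃ B : U.El c,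
    ∀ (d : C) (f : d ⟶ c) (x : U.El d), U.mem x (U.res f B) ↔ U.mem x (U.res f A) ∧ Φ.P d f x := by
  obtain ⟨F, hF⟩ := U.small A
  refine ⟨U.set { ι := Σ (i : F.ι) (d : C), {l : d ⟶ F.obj i // Φ.P d (l ≫ F.hom i) (U.res l (F.el i))}
                  obj := fun t => t.2.1
                  hom := fun t => t.2.2.1 ≫ F.hom t.1
                  el := fun t => U.res t.2.2.1 (F.el t.1) }, ?_⟩
  intro d f x
  rw [U.mem_set]
  constructor
  · intro H
    constructor
    · refine U.eq_right (U.eq_res f (U.eq_symm hF)) ?_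
      rw [U.mem_set]
      refine H.imp ?_
      rintro e m ⟨⟨i, d', l, hl⟩, l', h1, h2⟩
      refine ⟨i, l' ≫ l, ?_, ?_⟩
      · simpa using h1
      · rw [U.res_comp]
        exact h2
    · refine Φ.loc f x (H.imp ?_)
      rintro e m ⟨⟨i, d', l, hl⟩, l', h1, h2⟩
      have h3 := Φ.mono (l ≫ F.hom i) l' _ hl
      have h1' : l' ≫ l ≫ F.hom i = m ≫ f := h1
      rw [h1'] at h3
      exact Φ.congr _ _ _ (U.eq_symm h2) h3
  · rintro ⟨H, hP⟩
    have H1 : U.mem x (U.res f (U.set F)) := U.eq_right (U.eq_res f hF) H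
    rw [U.mem_set] at H1
    refine H1.imp ?_
    rintro e m ⟨i, l, h1, h2⟩
    have h3 := Φ.mono f m x hP
    rw [← h1] at h3
    have h4 := Φ.congr _ _ _ h2 h3
    refine ⟨⟨i, e, l, h4⟩, 𝟙 e, ?_, ?_⟩
    · simpa using h1
    · rw [U.res_id]
      exact h2
-- END B1

/-- `s = {x, y}` is forced -/
def UPair {c : C} (x y s : U.El c) : Prop :=
  ∀ (d : C) (f : d ⟶ c) (z : U.El d), U.mem z (U.res f s) ↔
    Dn (fun e (g : e ⟶ d) => U.eq (U.res g z) (U.res (g ≫ f) x) ∨
      U.eq (U.res g z) (U.res (g ≫ f) y))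

-- BEGIN B2
/-- (task B2) unordered pairs exist -/
theorem exists_upair {c : C} (x y : U.El c) : ∃ s : U.El c, U.UPair x y s := by
  refine ⟨U.set { ι := ULift Bool
                  obj := fun _ => c
                  hom := fun _ => 𝟙 c
                  el := fun b => if b.down then x else y }, ?_⟩
  intro d f z
  rw [U.mem_set]
  constructor
  · intro H
    refine H.imp ?_
    rintro e m ⟨⟨b⟩, l, h1, h2⟩
    have h1' : l = m ≫ f := by
      have : l ≫ 𝟙 c = m ≫ f := h1
      simpa using this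
    subst h1'
    cases b with
    | false =>
      right
      exact h2
    | true =>
      left
      exact h2
  · intro H
    refine H.imp ?_
    rintro e m (h | h)
    · exact ⟨⟨true⟩, m ≫ f, Category.comp_id _, h⟩
    · exact ⟨⟨false⟩, m ≫ f, Category.comp_id _, h⟩
-- END B2

-- BEGIN B3
/-- (task B3) unordered pairs are monotone, local, congruent and unique -/
theorem UPair.res {c d : C} {x y s : U.El c} (H : U.UPair x y s) (f : d ⟶ c) :
    U.UPair (U.res f x) (U.res f y) (U.res f s) := by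
  intro e g z
  rw [← U.res_comp, H e (g ≫ f) z]
  constructor
  · intro K
    refine K.imp ?_
    intro e' g' h
    rw [← U.res_comp, ← U.res_comp, Category.assoc]
    exact h
  · intro K
    refine K.imp ?_
    intro e' g' h
    rw [← U.res_comp, ← U.res_comp, Category.assoc] at h
    exact h

theorem UPair.loc {c : C} {x y s : U.El c}
    (H : Dn (fun d (f : d ⟶ c) => U.UPair (U.res f x) (U.res f y) (U.res f s))) :
    U.UPair x y s := by
  intro d f z
  have key : ∀ (e : C) (g : e ⟶ d), U.UPair (U.res (g ≫ f) x) (U.res (g ≫ f) y) (U.res (g ≫ f) s) →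
      (U.mem (U.res g z) (U.res g (U.res f s)) ↔
        Dn (fun e' (g' : e' ⟶ e) => U.eq (U.res (g' ≫ g) z) (U.res ((g' ≫ g) ≫ f) x) ∨
          U.eq (U.res (g' ≫ g) z) (U.res ((g' ≫ g) ≫ f) y))) := by
    intro e g hK
    have h := hK e (𝟙 e) (U.res g z)
    rw [U.res_id] at h
    rw [← U.res_comp g f s, h]
    constructor
    · intro K
      refine K.imp ?_
      intro e' g' h'
      rw [← U.res_comp, ← U.res_comp, ← U.res_comp, Category.comp_id] at h'
      rw [Category.assoc]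
      exact h'
    · intro K
      refine K.imp ?_
      intro e' g' h'
      rw [← U.res_comp, ← U.res_comp, ← U.res_comp, Category.comp_id]
      rw [Category.assoc] at h'
      exact h'
  constructor
  · intro hz
    refine Dn.join ?_
    intro e g
    obtain ⟨e', g', h'⟩ := H e (g ≫ f)
    refine ⟨e', g', ?_⟩
    rw [← Category.assoc] at h'
    exact (key e' (g' ≫ g) h').1 (U.mem_res _ hz)
  · intro hz
    refine U.mem_loc ?_
    intro e g
    obtain ⟨e', g', h'⟩ := H e (g ≫ f)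
    refine ⟨e', g', ?_⟩
    rw [← Category.assoc] at h'
    exact (key e' (g' ≫ g) h').2 (hz.res (g' ≫ g))

theorem UPair.congr {c : C} {x y s x' y' s' : U.El c} (hx : U.eq x x') (hy : U.eq y y')
    (hs : U.eq s s') (H : U.UPair x y s) : U.UPair x' y' s' := by
  intro d f z
  constructor
  · intro hz
    have h1 := (H d f z).1 (U.eq_right (U.eq_res f (U.eq_symm hs)) hz)
    refine h1.imp ?_
    rintro e g (h | h)
    · left
      exact U.eq_trans h (U.eq_res _ hx)
    · right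
      exact U.eq_trans h (U.eq_res _ hy)
  · intro hz
    refine U.eq_right (U.eq_res f hs) ((H d f z).2 (hz.imp ?_))
    rintro e g (h | h)
    · left
      exact U.eq_trans h (U.eq_symm (U.eq_res _ hx))
    · right
      exact U.eq_trans h (U.eq_symm (U.eq_res _ hy))

theorem UPair.unique {c : C} {x y s s' : U.El c} (H : U.UPair x y s) (H' : U.UPair x y s') :
    U.eq s s' := by
  apply U.ext
  intro d f z
  rw [H d f z, H' d f z]
-- END B3

/-- `p = (x, y)` (Kuratowski pair) is forced -/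
def OPair {c : C} (x y p : U.El c) : Prop :=
  ∀ (d : C) (f : d ⟶ c) (z : U.El d), U.mem z (U.res f p) ↔
    Dn (fun e (g : e ⟶ d) => U.UPair (U.res (g ≫ f) x) (U.res (g ≫ f) x) (U.res g z) ∨
      U.UPair (U.res (g ≫ f) x) (U.res (g ≫ f) y) (U.res g z))

-- BEGIN B4
/-- (task B4) ordered pairs exist -/
theorem exists_opair {c : C} (x y : U.El c) : ∃ p : U.El c, U.OPair x y p := by
  obtain ⟨s1, h1⟩ := U.exists_upair x x
  obtain ⟨s2, h2⟩ := U.exists_upair x y
  obtain ⟨p, hp⟩ := U.exists_upair s1 s2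
  refine ⟨p, ?_⟩
  intro d f z
  rw [hp d f z]
  constructor
  · intro K
    refine K.imp ?_
    rintro e g (h | h)
    · left
      exact UPair.congr U (U.eq_refl _) (U.eq_refl _) (U.eq_symm h) (UPair.res U h1 (g ≫ f))
    · right
      exact UPair.congr U (U.eq_refl _) (U.eq_refl _) (U.eq_symm h) (UPair.res U h2 (g ≫ f))
  · intro K
    refine K.imp ?_
    rintro e g (h | h)
    · left
      exact UPair.unique U h (UPair.res U h1 (g ≫ f))
    · right
      exact UPair.unique U h (UPair.res U h2 (g ≫ f))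
-- END B4

-- BEGIN B5
/-- (task B5) ordered pairs are monotone, local, congruent and unique -/
theorem OPair.res {c d : C} {x y p : U.El c} (H : U.OPair x y p) (f : d ⟶ c) :
    U.OPair (U.res f x) (U.res f y) (U.res f p) := by
  intro e g z
  have h := H e (g ≫ f) z
  simpa only [U.res_comp, Category.assoc] using h

theorem OPair.loc {c : C} {x y p : U.El c}
    (H : Dn (fun d (f : d ⟶ c) => U.OPair (U.res f x) (U.res f y) (U.res f p))) :
    U.OPair x y p := by
  intro d f z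
  constructor
  · intro hz
    refine Dn.join ((H.res f).imp ?_)
    intro e g hO
    have h1 : U.mem (U.res g z) (U.res (𝟙 e) (U.res (g ≫ f) p)) := by
      rw [U.res_id, U.res_comp]
      exact U.mem_res g hz
    have h2 := (hO e (𝟙 e) (U.res g z)).1 h1
    refine h2.imp ?_
    intro e' g' h3
    simpa only [U.res_comp, Category.assoc, Category.id_comp, U.res_id] using h3
  · intro hz
    refine U.mem_loc ((H.res f).imp ?_)
    intro e g hO
    have h1 : U.mem (U.res g z) (U.res (𝟙 e) (U.res (g ≫ f) p)) := by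
      refine (hO e (𝟙 e) (U.res g z)).2 ?_
      refine (hz.res g).imp ?_
      intro e' g' h3
      simpa only [U.res_comp, Category.assoc, Category.id_comp, U.res_id] using h3
    rwa [U.res_id, U.res_comp] at h1

theorem OPair.congr {c : C} {x y p x' y' p' : U.El c} (hx : U.eq x x') (hy : U.eq y y')
    (hp : U.eq p p') (H : U.OPair x y p) : U.OPair x' y' p' := by
  intro d f z
  have h0 : U.mem z (U.res f p') ↔ U.mem z (U.res f p) :=
    ⟨fun h => U.eq_right (U.eq_symm (U.eq_res f hp)) h, fun h => U.eq_right (U.eq_res f hp) h⟩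
  rw [h0, H d f z]
  constructor
  · refine Dn.imp ?_
    rintro e g (h | h)
    · exact Or.inl (UPair.congr U (U.eq_res _ hx) (U.eq_res _ hx) (U.eq_refl _) h)
    · exact Or.inr (UPair.congr U (U.eq_res _ hx) (U.eq_res _ hy) (U.eq_refl _) h)
  · refine Dn.imp ?_
    rintro e g (h | h)
    · exact Or.inl (UPair.congr U (U.eq_symm (U.eq_res _ hx)) (U.eq_symm (U.eq_res _ hx))
        (U.eq_refl _) h)
    · exact Or.inr (UPair.congr U (U.eq_symm (U.eq_res _ hx)) (U.eq_symm (U.eq_res _ hy))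
        (U.eq_refl _) h)

theorem OPair.unique {c : C} {x y p p' : U.El c} (H : U.OPair x y p) (H' : U.OPair x y p') :
    U.eq p p' := by
  apply U.ext
  intro d f z
  rw [H d f z, H' d f z]
-- END B5

-- BEGIN B6
/-- (task B6) the members of an unordered pair -/
theorem b6_umem_left {c : C} {a b s : U.El c} (H : U.UPair a b s) : U.mem a s := by
  have h := (H c (𝟙 c) a).2 (Dn.of_all fun d f => Or.inl (U.eq_of_eq (by
    rw [Category.comp_id])))
  rwa [U.res_id] at h

theorem b6_umem_right {c : C} {a b s : U.El c} (H : U.UPair a b s) : U.mem b s := by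
  have h := (H c (𝟙 c) b).2 (Dn.of_all fun d f => Or.inr (U.eq_of_eq (by
    rw [Category.comp_id])))
  rwa [U.res_id] at h

theorem b6_udn {c : C} {a b s z : U.El c} (H : U.UPair a b s) (hz : U.mem z s) :
    Dn (fun e (g : e ⟶ c) => U.eq (U.res g z) (U.res g a) ∨ U.eq (U.res g z) (U.res g b)) := by
  have h := (H c (𝟙 c) z).1 (by rwa [U.res_id])
  refine h.imp fun e g h => ?_
  rwa [Category.comp_id] at h

theorem b6_eq_mono {c : C} {a b a' b' : U.El c} (d : C) (f : d ⟶ c) (e : C) (g : e ⟶ d)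
    (h : U.eq (U.res f a) (U.res f b) ∨ U.eq (U.res f a') (U.res f b')) :
    U.eq (U.res (g ≫ f) a) (U.res (g ≫ f) b) ∨ U.eq (U.res (g ≫ f) a') (U.res (g ≫ f) b') := by
  rw [U.res_comp, U.res_comp, U.res_comp, U.res_comp]
  rcases h with h | h
  · exact Or.inl (U.eq_res g h)
  · exact Or.inr (U.eq_res g h)

theorem b6_up {c : C} {a b a' b' s : U.El c} (H : U.UPair a b s) (H' : U.UPair a' b' s) :
    Dn (fun e (g : e ⟶ c) =>
      (U.eq (U.res g a) (U.res g a') ∧ U.eq (U.res g b) (U.res g b')) ∨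
      (U.eq (U.res g a) (U.res g b') ∧ U.eq (U.res g b) (U.res g a'))) := by
  have h1 := b6_udn U H' (b6_umem_left U H)
  have h2 := b6_udn U H' (b6_umem_right U H)
  have h3 := b6_udn U H (b6_umem_left U H')
  have h4 := b6_udn U H (b6_umem_right U H')
  have h34 := Dn.and (fun d f e g h => b6_eq_mono U d f e g h) h3 h4
  have h234 := Dn.and (fun d f e g h => b6_eq_mono U d f e g h) h2 h34
  have h1234 := Dn.and (fun d f e g h => b6_eq_mono U d f e g h) h1 h234
  refine h1234.imp ?_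
  rintro e g ⟨k1, k2, k3, k4⟩
  rcases k1 with k1 | k1
  · rcases k2 with k2 | k2
    · rcases k4 with k4 | k4
      · exact Or.inr ⟨U.eq_symm k4, k2⟩
      · exact Or.inl ⟨k1, U.eq_symm k4⟩
    · exact Or.inl ⟨k1, k2⟩
  · rcases k2 with k2 | k2
    · exact Or.inr ⟨k1, k2⟩
    · rcases k3 with k3 | k3
      · exact Or.inl ⟨U.eq_symm k3, k2⟩
      · exact Or.inr ⟨k1, U.eq_symm k3⟩

theorem b6_same {c : C} {x a b s : U.El c} (H : U.UPair x x s) (H' : U.UPair a b s) :
    U.eq x a ∧ U.eq x b := by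
  constructor
  · refine U.eq_loc ((b6_up U H H').imp ?_)
    rintro e g (⟨h, -⟩ | ⟨-, h⟩) <;> exact h
  · refine U.eq_loc ((b6_up U H H').imp ?_)
    rintro e g (⟨-, h⟩ | ⟨h, -⟩) <;> exact h

theorem b6_snd {c : C} {x y y' s : U.El c} (H : U.UPair x y s) (H' : U.UPair x y' s) :
    U.eq y y' := by
  refine U.eq_loc ((b6_up U H H').imp ?_)
  rintro e g (⟨-, h⟩ | ⟨h, h'⟩)
  · exact h
  · exact U.eq_trans h' h

theorem b6_mem {c : C} {x y p s : U.El c} (H : U.OPair x y p)
    (h : U.UPair x x s ∨ U.UPair x y s) : U.mem s p := by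
  have h1 := (H c (𝟙 c) s).2 (Dn.of_all fun d f => by
    rw [Category.comp_id]
    rcases h with h | h
    · exact Or.inl (UPair.res U h f)
    · exact Or.inr (UPair.res U h f))
  rwa [U.res_id] at h1

theorem b6_dn {c : C} {x y p s : U.El c} (H : U.OPair x y p) (hm : U.mem s p) :
    Dn (fun e (g : e ⟶ c) => U.UPair (U.res g x) (U.res g x) (U.res g s) ∨
      U.UPair (U.res g x) (U.res g y) (U.res g s)) := by
  have h := (H c (𝟙 c) s).1 (by rwa [U.res_id])
  refine h.imp fun e g h => ?_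
  rwa [Category.comp_id] at h

/-- (task B6) ordered pairs are injective -/
theorem OPair.inj {c : C} {x y x' y' p : U.El c} (H : U.OPair x y p) (H' : U.OPair x' y' p) :
    U.eq x x' ∧ U.eq y y' := by
  obtain ⟨s, hs⟩ := U.exists_upair x x
  have hx : U.eq x x' := by
    refine U.eq_loc ((b6_dn U H' (b6_mem U H (Or.inl hs))).imp ?_)
    rintro e g (h | h)
    · exact (b6_same U (UPair.res U hs g) h).1
    · exact (b6_same U (UPair.res U hs g) h).1
  refine ⟨hx, ?_⟩
  have H'' : U.OPair x y' p := OPair.congr U (U.eq_symm hx) (U.eq_refl _) (U.eq_refl _) H'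
  obtain ⟨s₁, hs₁⟩ := U.exists_upair x y
  obtain ⟨s₂, hs₂⟩ := U.exists_upair x y'
  have D₁ := b6_dn U H'' (b6_mem U H (Or.inr hs₁))
  have D₂ := b6_dn U H (b6_mem U H'' (Or.inr hs₂))
  have D := Dn.and (fun d f e g h => by
    rw [U.res_comp, U.res_comp, U.res_comp]
    rcases h with h | h
    · exact Or.inl (UPair.res U h g)
    · exact Or.inr (UPair.res U h g)) D₁ D₂
  refine U.eq_loc (D.imp ?_)
  rintro e g ⟨h₁, h₂⟩
  have k₁ := UPair.res U hs₁ g
  have k₂ := UPair.res U hs₂ g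
  rcases h₁ with h₁ | h₁
  · rcases h₂ with h₂ | h₂
    · exact U.eq_trans (U.eq_symm (b6_same U h₁ k₁).2) (b6_same U h₂ k₂).2
    · exact b6_snd U h₂ k₂
  · exact b6_snd U k₁ h₁
-- END B6

/-- a chosen ordered pair -/
noncomputable def op {c : C} (x y : U.El c) : U.El c := (U.exists_opair x y).choose

theorem op_spec {c : C} (x y : U.El c) : U.OPair x y (U.op x y) := (U.exists_opair x y).choose_spec

theorem op_eq {c : C} {x y p : U.El c} (H : U.OPair x y p) : U.eq (U.op x y) p :=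
  OPair.unique U (U.op_spec x y) H

theorem res_op {c d : C} (f : d ⟶ c) (x y : U.El c) :
    U.eq (U.res f (U.op x y)) (U.op (U.res f x) (U.res f y)) :=
  OPair.unique U (OPair.res U (U.op_spec x y) f) (U.op_spec _ _)

theorem op_congr {c : C} {x y x' y' : U.El c} (hx : U.eq x x') (hy : U.eq y y') :
    U.eq (U.op x y) (U.op x' y') :=
  OPair.unique U (OPair.congr U hx hy (U.eq_refl _) (U.op_spec x y)) (U.op_spec _ _)

theorem op_inj {c : C} {x y x' y' : U.El c} (h : U.eq (U.op x y) (U.op x' y')) :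
    U.eq x x' ∧ U.eq y y' :=
  OPair.inj U (U.op_spec x y) (OPair.congr U (U.eq_refl _) (U.eq_refl _) (U.eq_symm h)
    (U.op_spec x' y'))

/-- `(x, y) ∈ f` is forced -/
def Val {c : C} (f x y : U.El c) : Prop := U.mem (U.op x y) f

theorem Val.res {c d : C} {f x y : U.El c} (H : U.Val f x y) (g : d ⟶ c) :
    U.Val (U.res g f) (U.res g x) (U.res g y) :=
  U.eq_left (U.res_op g x y) (U.mem_res g H)

theorem Val.loc {c : C} {f x y : U.El c}
    (H : Dn (fun d (g : d ⟶ c) => U.Val (U.res g f) (U.res g x) (U.res g y))) :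
    U.Val f x y :=
  U.mem_loc (H.imp fun _ g h => U.eq_left (U.eq_symm (U.res_op g x y)) h)

theorem Val.congr {c : C} {f x y f' x' y' : U.El c} (hf : U.eq f f') (hx : U.eq x x')
    (hy : U.eq y y') (H : U.Val f x y) : U.Val f' x' y' :=
  U.mem_congr (U.op_congr hx hy) hf H

-- BEGIN B7
/-- (task B7) a set of ordered pairs with prescribed values, from a binary relation `Φ` which is
bounded by two sets -/
theorem exists_graph {c : C} (A B : U.El c) (Φ : Rl U c)
    (hA : ∀ (d : C) (f : d ⟶ c) (x y : U.El d), Φ.P d f x y → U.mem x (U.res f A))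
    (hB : ∀ (d : C) (f : d ⟶ c) (x y : U.El d), Φ.P d f x y → U.mem y (U.res f B)) :
    ∃ h : U.El c, (∀ (d : C) (f : d ⟶ c) (x y : U.El d), U.Val (U.res f h) x y ↔ Φ.P d f x y) ∧
      (∀ (d : C) (f : d ⟶ c) (p : U.El d), U.mem p (U.res f h) →
        Dn (fun e (g : e ⟶ d) => ∃ x y : U.El e, Φ.P e (g ≫ f) x y ∧
          U.OPair x y (U.res g p))) := by
  obtain ⟨F, hF⟩ := U.small A
  obtain ⟨G, hG⟩ := U.small B
  let H : Fam U.El c :=
    { ι := Σ i : F.ι, Σ j : G.ι, Σ d : C, {p : (d ⟶ F.obj i) × (d ⟶ G.obj j) //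
        p.1 ≫ F.hom i = p.2 ≫ G.hom j ∧
          Φ.P d (p.1 ≫ F.hom i) (U.res p.1 (F.el i)) (U.res p.2 (G.el j))}
      obj := fun q => q.2.2.1
      hom := fun q => q.2.2.2.1.1 ≫ F.hom q.1
      el := fun q => U.op (U.res q.2.2.2.1.1 (F.el q.1)) (U.res q.2.2.2.1.2 (G.el q.2.1)) }
  -- the values of the relation at an index
  have hval : ∀ (I : H.ι) {e : C} (l : e ⟶ H.obj I) {k : e ⟶ c}, l ≫ H.hom I = k →
      Φ.P e k (U.res l (U.res I.2.2.2.1.1 (F.el I.1))) (U.res l (U.res I.2.2.2.1.2 (G.el I.2.1))) := by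
    intro I e l k hk
    have h1 := Φ.mono (I.2.2.2.1.1 ≫ F.hom I.1) l _ _ I.2.2.2.2.2
    have h2 : l ≫ I.2.2.2.1.1 ≫ F.hom I.1 = k := hk
    rwa [h2] at h1
  refine ⟨U.set H, ?_, ?_⟩
  · intro d f x y
    unfold Val
    rw [U.mem_set]
    constructor
    · intro h
      refine Φ.loc f x y (h.imp ?_)
      rintro e m ⟨I, l, hl, heq⟩
      have h1 : U.eq (U.op (U.res m x) (U.res m y))
          (U.op (U.res l (U.res I.2.2.2.1.1 (F.el I.1)))
            (U.res l (U.res I.2.2.2.1.2 (G.el I.2.1)))) :=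
        U.eq_trans (U.eq_symm (U.res_op m x y)) (U.eq_trans heq (U.res_op l _ _))
      obtain ⟨h2, h3⟩ := U.op_inj h1
      exact Φ.congr (m ≫ f) _ _ _ _ (U.eq_symm h2) (U.eq_symm h3) (hval I l hl)
    · intro hP
      have hx := (U.mem_set F f x).1 (U.eq_right (U.eq_res f hF) (hA d f x y hP))
      have hy := (U.mem_set G f y).1 (U.eq_right (U.eq_res f hG) (hB d f x y hP))
      intro e₀ m₀
      obtain ⟨e₁, m₁, i, l, hl, hxl⟩ := hx e₀ m₀
      obtain ⟨e₂, m₂, j, l', hl', hyl⟩ := hy e₁ (m₁ ≫ m₀)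
      have e1 : (m₂ ≫ l) ≫ F.hom i = ((m₂ ≫ m₁) ≫ m₀) ≫ f := by
        rw [Category.assoc, hl]; simp only [Category.assoc]
      have e2 : l' ≫ G.hom j = ((m₂ ≫ m₁) ≫ m₀) ≫ f := by
        rw [hl']; simp only [Category.assoc]
      have q1 : U.eq (U.res ((m₂ ≫ m₁) ≫ m₀) x) (U.res (m₂ ≫ l) (F.el i)) := by
        have h1 := U.eq_res m₂ hxl
        rw [← U.res_comp, ← U.res_comp] at h1
        rwa [Category.assoc]
      have q2 : U.eq (U.res ((m₂ ≫ m₁) ≫ m₀) y) (U.res l' (G.el j)) := by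
        rwa [Category.assoc]
      have hP' : Φ.P e₂ ((m₂ ≫ l) ≫ F.hom i) (U.res (m₂ ≫ l) (F.el i)) (U.res l' (G.el j)) := by
        rw [e1]
        exact Φ.congr _ _ _ _ _ q1 q2 (Φ.mono f ((m₂ ≫ m₁) ≫ m₀) x y hP)
      refine ⟨e₂, m₂ ≫ m₁, ⟨i, j, e₂, ⟨(m₂ ≫ l, l'), e1.trans e2.symm, hP'⟩⟩, 𝟙 e₂, ?_, ?_⟩
      · show 𝟙 e₂ ≫ (m₂ ≫ l) ≫ F.hom i = _
        rw [Category.id_comp, e1]
      · show U.eq _ (U.res (𝟙 e₂) (U.op (U.res (m₂ ≫ l) (F.el i)) (U.res l' (G.el j))))
        rw [U.res_id]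
        exact U.eq_trans (U.res_op _ x y) (U.op_congr q1 q2)
  · intro d f p hp
    refine ((U.mem_set H f p).1 hp).imp ?_
    rintro e m ⟨I, l, hl, heq⟩
    refine ⟨U.res l (U.res I.2.2.2.1.1 (F.el I.1)), U.res l (U.res I.2.2.2.1.2 (G.el I.2.1)),
      hval I l hl, ?_⟩
    exact OPair.congr U (U.eq_refl _) (U.eq_refl _) (U.eq_symm heq)
      (OPair.res U (U.op_spec _ _) l)
-- END B7

-- BEGIN B8
/-- (task B8) if a morphism `π : E ⟶ P` is such that the element `ξ` over `E` takes the same value at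
any two points over the same point of `P`, then `ξ` comes from `P` -/
theorem exists_descend {E P : C} (π : E ⟶ P) (ξ : U.El E)
    (H : ∀ (e : C) (u u' : e ⟶ E), u ≫ π = u' ≫ π → U.eq (U.res u ξ) (U.res u' ξ)) :
    ∃ w : U.El P, U.eq (U.res π w) ξ := by
  obtain ⟨F, hF⟩ := U.small ξ
  refine ⟨U.set (⟨F.ι, F.obj, fun i => F.hom i ≫ π, F.el⟩ : Fam U.El P), U.ext fun d f z => ?_⟩
  rw [← U.res_comp, U.mem_set]
  constructor
  · intro h
    refine U.mem_loc (h.imp ?_)
    rintro e m ⟨i, l, hl, hz⟩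
    have h1 : U.mem (U.res l (F.el i)) (U.res (l ≫ F.hom i) (U.set F)) := by
      rw [U.mem_set]
      refine Dn.of_all fun e' m' => ⟨i, m' ≫ l, Category.assoc _ _ _, ?_⟩
      rw [U.res_comp]
      exact U.eq_refl _
    have h2 : U.mem (U.res m z) (U.res (l ≫ F.hom i) ξ) :=
      U.mem_congr (U.eq_symm hz) (U.eq_res _ (U.eq_symm hF)) h1
    have h3 : U.eq (U.res (l ≫ F.hom i) ξ) (U.res (m ≫ f) ξ) := by
      apply H
      rw [Category.assoc, Category.assoc]
      exact hl
    rw [← U.res_comp]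
    exact U.mem_congr (U.eq_refl _) h3 h2
  · intro h
    have h1 : U.mem z (U.res f (U.set F)) := U.mem_congr (U.eq_refl _) (U.eq_res f hF) h
    rw [U.mem_set] at h1
    refine h1.imp ?_
    rintro e m ⟨i, l, hl, hz⟩
    refine ⟨i, l, ?_, hz⟩
    show l ≫ F.hom i ≫ π = m ≫ f ≫ π
    rw [← Category.assoc, hl, Category.assoc]
-- END B8

end FU

end Pool.Agent.Lib.ZFM
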