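import Mathlib

/-!
Definitions for the statement: models of `ZF`, the principle `WF` and the axiom of choice.

A structure for the language of set theory is a type `M` with a binary relation `E`
(`E x y` means that `x` is an element of `y` in the structure).
-/

namespace Pool.Agent.Lib.ZFM

/-- First order formulas of the language of set theory, with variables `0, 1, 2, ...`. -/
inductive Fml : Type
  | mem (i j : ℕ)
  | eq (i j : ℕ)
  | neg (φ : Fml)
  | and (φ ψ : Fml)
  | all (i : ℕ) (φ : Fml)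

variable {M : Type*} (E : M → M → Prop)

/-- Satisfaction of a formula under an assignment of the variables. -/
def Sat : Fml → (ℕ → M) → Prop
  | .mem i j, v => E (v i) (v j)
  | .eq i j, v => v i = v j
  | .neg φ, v => ¬ Sat φ v
  | .and φ ψ, v => Sat φ v ∧ Sat ψ v
  | .all i φ, v => ∀ x, Sat φ (Function.update v i x)

/-- The structure `(M, E)` satisfies the axioms of Zermelo-Fraenkel set theory. Separation and
Replacement are schemata over all first order formulas with parameters. -/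
structure IsZF : Prop where
  nonempty : Nonempty M
  extensionality : ∀ x y, (∀ z, E z x ↔ E z y) → x = y
  foundation : ∀ x, (∃ y, E y x) → ∃ y, E y x ∧ ∀ z, ¬ (E z y ∧ E z x)
  pairing : ∀ x y, ∃ z, ∀ w, E w z ↔ w = x ∨ w = y
  union : ∀ x, ∃ y, ∀ z, E z y ↔ ∃ w, E w x ∧ E z w
  powerset : ∀ x, ∃ y, ∀ z, E z y ↔ ∀ w, E w z → E w x
  infinity : ∃ x, (∃ e, E e x ∧ ∀ z, ¬ E z e) ∧
    ∀ y, E y x → ∃ s, E s x ∧ ∀ w, E w s ↔ E w y ∨ w = y
  separation : ∀ (φ : Fml) (v : ℕ → M) (a : M),
    ∃ b, ∀ x, E x b ↔ E x a ∧ Sat E φ (Function.update v 0 x)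
  replacement : ∀ (φ : Fml) (v : ℕ → M) (a : M),
    (∀ x, E x a → ∃! y, Sat E φ (Function.update (Function.update v 0 x) 1 y)) →
    ∃ b, ∀ y, E y b ↔ ∃ x, E x a ∧ Sat E φ (Function.update (Function.update v 0 x) 1 y)

/-- `s = {x, y}` -/
def IsUPair (x y s : M) : Prop := ∀ z, E z s ↔ z = x ∨ z = y

/-- `p = (x, y) = {{x, x}, {x, y}}`, the Kuratowski pair -/
def IsOPair (x y p : M) : Prop := ∀ z, E z p ↔ IsUPair E x x z ∨ IsUPair E x y z

/-- `(x, y) ∈ f` -/
def Val (f x y : M) : Prop := ∃ p, IsOPair E x y p ∧ E p f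

/-- `f` is a function with domain `X` -/
def IsFun (f X : M) : Prop :=
  (∀ p, E p f → ∃ x y, E x X ∧ IsOPair E x y p) ∧
    ∀ x, E x X → ∃ y, Val E f x y ∧ ∀ y', Val E f x y' → y' = y

/-- `f` is a function from `X` to `Y` -/
def IsMap (f X Y : M) : Prop := IsFun E f X ∧ ∀ x y, E x X → Val E f x y → E y Y

/-- `f` is an injection from `X` to `Y` -/
def IsInj (f X Y : M) : Prop :=
  IsMap E f X Y ∧ ∀ x x' y, E x X → E x' X → Val E f x y → Val E f x' y → x = x'

/-- `f` is a surjection from `X` onto `Y` -/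
def IsSurj (f X Y : M) : Prop :=
  IsMap E f X Y ∧ ∀ y, E y Y → ∃ x, E x X ∧ Val E f x y

/-- `s = n ∪ {n}` -/
def IsSucc (n s : M) : Prop := ∀ z, E z s ↔ E z n ∨ z = n

/-- `w` contains the empty set and is closed under `n ↦ n ∪ {n}` -/
def IsInductive (w : M) : Prop :=
  (∀ e, (∀ z, ¬ E z e) → E e w) ∧ ∀ n s, E n w → IsSucc E n s → E s w

/-- `w = ω`, the least inductive set -/
def IsOmega (w : M) : Prop :=
  IsInductive E w ∧ ∀ u, IsInductive E u → ∀ n, E n w → E n u

/-- `|X| ≤* |Y|`: the set `X` is empty or there is a surjection from `Y` onto `X` -/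
def LeStar (X Y : M) : Prop := (∀ z, ¬ E z X) ∨ ∃ h, IsSurj E h Y X

/-- The principle `WF^i_{s4}`: for every sequence `(A_n)` of sets and every sequence `(f_n)` of
injections `f_n : A_{n+1} → A_n` there is an `n` with `|A_n| ≤* |A_{n+1}|`. -/
def WFis4 : Prop :=
  ∀ w A F, IsOmega E w → IsFun E A w → IsFun E F w →
    (∀ n m a b f, E n w → IsSucc E n m → Val E A n a → Val E A m b → Val E F n f →
      IsInj E f b a) →
    ∃ n m a b, E n w ∧ IsSucc E n m ∧ Val E A n a ∧ Val E A m b ∧ LeStar E a b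

/-- The axiom of choice: every family of nonempty sets has a choice function. -/
def AC : Prop :=
  ∀ X, (∀ x, E x X → ∃ y, E y x) → ∃ f, IsFun E f X ∧ ∀ x y, E x X → Val E f x y → E y x

end Pool.Agent.Lib.ZFM
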