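import Mathlib

/-!
Forcing universes over a category: the abstract interface.
-/

open CategoryTheory

namespace Pool.Agent.Lib.ZFM

/-- `Dn Φ`: densely many extensions of the stage `c` satisfy `Φ`. -/
def Dn {C : Type 1} [Category.{0} C] {c : C} (Φ : ∀ d : C, (d ⟶ c) → Prop) : Prop :=
  ∀ (d : C) (f : d ⟶ c), ∃ (e : C) (g : e ⟶ d), Φ e (g ≫ f)

/-- a small family of spans over `c` -/
structure Fam {C : Type 1} [Category.{0} C] (El : C → Type 2) (c : C) where
  ι : Type 1
  obj : ι → C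
  hom : ∀ i, obj i ⟶ c
  el : ∀ i, El (obj i)

/-- A forcing universe over a category: the elements `El c` at the stages `c`, with restriction
maps, forced equality and forced membership. -/
structure FU (C : Type 1) [Category.{0} C] where
  El : C → Type 2
  res : ∀ {d c : C}, (d ⟶ c) → El c → El d
  res_id : ∀ {c : C} (x : El c), res (𝟙 c) x = x
  res_comp : ∀ {e d c : C} (g : e ⟶ d) (f : d ⟶ c) (x : El c), res (g ≫ f) x = res g (res f x)
  eq : ∀ {c : C}, El c → El c → Prop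
  mem : ∀ {c : C}, El c → El c → Prop
  eq_refl : ∀ {c : C} (x : El c), eq x x
  eq_symm : ∀ {c : C} {x y : El c}, eq x y → eq y x
  eq_trans : ∀ {c : C} {x y z : El c}, eq x y → eq y z → eq x z
  eq_res : ∀ {d c : C} (f : d ⟶ c) {x y : El c}, eq x y → eq (res f x) (res f y)
  eq_loc : ∀ {c : C} {x y : El c}, Dn (fun _ (f : _ ⟶ c) => eq (res f x) (res f y)) → eq x y
  mem_res : ∀ {d c : C} (f : d ⟶ c) {x y : El c}, mem x y → mem (res f x) (res f y)
  mem_loc : ∀ {c : C} {x y : El c}, Dn (fun _ (f : _ ⟶ c) => mem (res f x) (res f y)) → mem x y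
  mem_congr : ∀ {c : C} {x x' y y' : El c}, eq x x' → eq y y' → mem x y → mem x' y'
  ext : ∀ {c : C} {x y : El c},
    (∀ (d : C) (f : d ⟶ c) (z : El d), mem z (res f x) ↔ mem z (res f y)) → eq x y
  set : ∀ {c : C}, Fam El c → El c
  mem_set : ∀ {c : C} (F : Fam El c) {d : C} (g : d ⟶ c) (y : El d),
    mem y (res g (set F)) ↔ Dn (fun e (m : e ⟶ d) => ∃ (i : F.ι) (l : e ⟶ F.obj i),
      l ≫ F.hom i = m ≫ g ∧ eq (res m y) (res l (F.el i)))
  small : ∀ {c : C} (A : El c), ∃ F : Fam El c, eq A (set F)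
  ind : ∀ (Φ : ∀ c : C, El c → Prop),
    (∀ (c : C) (x y : El c), eq x y → Φ c x → Φ c y) →
    (∀ (c : C) (x : El c), Dn (fun d (f : d ⟶ c) => Φ d (res f x)) → Φ c x) →
    (∀ (c : C) (x : El c), (∀ (d : C) (g : d ⟶ c) (y : El d), mem y (res g x) → Φ d y) → Φ c x) →
    ∀ (c : C) (x : El c), Φ c x

end Pool.Agent.Lib.ZFM
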