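import Pool.Agent.Lib.MP_96875a_lc.Defs
import Pool.Agent.Lib.MP_96875a_lc.Basic

/-!
The forcing relation for first order formulas, and the derived connectives.
-/

open CategoryTheory

namespace Pool.Agent.Lib.ZFM

namespace Fml

def or (φ ψ : Fml) : Fml := neg (and (neg φ) (neg ψ))
def imp (φ ψ : Fml) : Fml := neg (and φ (neg ψ))
def iff (φ ψ : Fml) : Fml := and (imp φ ψ) (imp ψ φ)
def ex (i : ℕ) (φ : Fml) : Fml := neg (all i (neg φ))

/-- all variables of the formula are smaller than `bd φ` -/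
def bd : Fml → ℕ
  | .mem i j => max i j + 1
  | .eq i j => max i j + 1
  | .neg φ => bd φ
  | .and φ ψ => max (bd φ) (bd ψ)
  | .all i φ => max (i + 1) (bd φ)

end Fml

section Sat

variable {M : Type*} (E : M → M → Prop)

@[simp] theorem sat_mem (i j : ℕ) (v : ℕ → M) : Sat E (.mem i j) v ↔ E (v i) (v j) := Iff.rfl
@[simp] theorem sat_eq (i j : ℕ) (v : ℕ → M) : Sat E (.eq i j) v ↔ v i = v j := Iff.rfl
@[simp] theorem sat_neg (φ : Fml) (v : ℕ → M) : Sat E (.neg φ) v ↔ ¬ Sat E φ v := Iff.rfl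
@[simp] theorem sat_and (φ ψ : Fml) (v : ℕ → M) : Sat E (.and φ ψ) v ↔ Sat E φ v ∧ Sat E ψ v :=
  Iff.rfl
@[simp] theorem sat_all (i : ℕ) (φ : Fml) (v : ℕ → M) :
    Sat E (.all i φ) v ↔ ∀ x, Sat E φ (Function.update v i x) := Iff.rfl
@[simp] theorem sat_or (φ ψ : Fml) (v : ℕ → M) : Sat E (.or φ ψ) v ↔ Sat E φ v ∨ Sat E ψ v := by
  simp [Fml.or]; tauto
@[simp] theorem sat_imp (φ ψ : Fml) (v : ℕ → M) :
    Sat E (.imp φ ψ) v ↔ (Sat E φ v → Sat E ψ v) := by
  simp [Fml.imp]
@[simp] theorem sat_iff (φ ψ : Fml) (v : ℕ → M) :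
    Sat E (.iff φ ψ) v ↔ (Sat E φ v ↔ Sat E ψ v) := by
  simp [Fml.iff]; tauto
@[simp] theorem sat_ex (i : ℕ) (φ : Fml) (v : ℕ → M) :
    Sat E (.ex i φ) v ↔ ∃ x, Sat E φ (Function.update v i x) := by
  simp [Fml.ex]

-- BEGIN F1
/-- (task F1) satisfaction depends only on the variables below the bound -/
theorem sat_bd (φ : Fml) (v w : ℕ → M) (h : ∀ i < φ.bd, v i = w i) : Sat E φ v ↔ Sat E φ w := by
  induction φ generalizing v w with
  | mem i j =>
    have hi : i < (Fml.mem i j).bd := Nat.lt_succ_of_le (le_max_left i j)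
    have hj : j < (Fml.mem i j).bd := Nat.lt_succ_of_le (le_max_right i j)
    rw [sat_mem, sat_mem, h i hi, h j hj]
  | eq i j =>
    have hi : i < (Fml.eq i j).bd := Nat.lt_succ_of_le (le_max_left i j)
    have hj : j < (Fml.eq i j).bd := Nat.lt_succ_of_le (le_max_right i j)
    rw [sat_eq, sat_eq, h i hi, h j hj]
  | neg φ ih =>
    rw [sat_neg, sat_neg, ih v w h]
  | and φ ψ ih1 ih2 =>
    rw [sat_and, sat_and, ih1 v w fun i hi => h i (lt_of_lt_of_le hi (le_max_left _ _)),
      ih2 v w fun i hi => h i (lt_of_lt_of_le hi (le_max_right _ _))]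
  | all i φ ih =>
    rw [sat_all, sat_all]
    refine forall_congr' fun x => ih _ _ fun j hj => ?_
    by_cases hij : j = i
    · subst hij
      rw [Function.update_self, Function.update_self]
    · rw [Function.update_of_ne hij, Function.update_of_ne hij]
      exact h j (lt_of_lt_of_le hj (le_max_right _ _))
-- END F1

end Sat

namespace FU

variable {C : Type 1} [Category.{0} C] (U : FU C)

/-- the forcing relation: the stage `c` forces `φ` under the assignment `v` of elements at `c` -/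
def Forces : Fml → ∀ c : C, (ℕ → U.El c) → Prop
  | .mem i j, _, v => U.mem (v i) (v j)
  | .eq i j, _, v => U.eq (v i) (v j)
  | .neg φ, c, v => ∀ (d : C) (f : d ⟶ c), ¬ Forces φ d (fun n => U.res f (v n))
  | .and φ ψ, c, v => Forces φ c v ∧ Forces ψ c v
  | .all i φ, c, v => ∀ (d : C) (f : d ⟶ c) (x : U.El d),
      Forces φ d (Function.update (fun n => U.res f (v n)) i x)

/-- restriction of an assignment -/
def rs {c d : C} (f : d ⟶ c) (v : ℕ → U.El c) : ℕ → U.El d := fun n => U.res f (v n)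

@[simp] theorem rs_apply {c d : C} (f : d ⟶ c) (v : ℕ → U.El c) (n : ℕ) :
    U.rs f v n = U.res f (v n) := rfl

@[simp] theorem rs_rs {c d e : C} (g : e ⟶ d) (f : d ⟶ c) (v : ℕ → U.El c) :
    U.rs g (U.rs f v) = U.rs (g ≫ f) v := by
  funext n; simp [rs, U.res_comp]

@[simp] theorem rs_id {c : C} (v : ℕ → U.El c) : U.rs (𝟙 c) v = v := by
  funext n; simp [rs, U.res_id]

@[simp] theorem rs_update {c d : C} (f : d ⟶ c) (v : ℕ → U.El c) (i : ℕ) (x : U.El c) :
    U.rs f (Function.update v i x) = Function.update (U.rs f v) i (U.res f x) := by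
  funext n
  by_cases h : n = i
  · subst h; simp [rs]
  · simp [rs, Function.update_of_ne h]

@[simp] theorem forces_mem {i j : ℕ} {c : C} {v : ℕ → U.El c} :
    U.Forces (.mem i j) c v ↔ U.mem (v i) (v j) := Iff.rfl
@[simp] theorem forces_eq {i j : ℕ} {c : C} {v : ℕ → U.El c} :
    U.Forces (.eq i j) c v ↔ U.eq (v i) (v j) := Iff.rfl
@[simp] theorem forces_neg {φ : Fml} {c : C} {v : ℕ → U.El c} :
    U.Forces (.neg φ) c v ↔ ∀ (d : C) (f : d ⟶ c), ¬ U.Forces φ d (U.rs f v) := Iff.rfl
@[simp] theorem forces_and {φ ψ : Fml} {c : C} {v : ℕ → U.El c} :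
    U.Forces (.and φ ψ) c v ↔ U.Forces φ c v ∧ U.Forces ψ c v := Iff.rfl
@[simp] theorem forces_all {i : ℕ} {φ : Fml} {c : C} {v : ℕ → U.El c} :
    U.Forces (.all i φ) c v ↔ ∀ (d : C) (f : d ⟶ c) (x : U.El d),
      U.Forces φ d (Function.update (U.rs f v) i x) := Iff.rfl

-- BEGIN F2
/-- (task F2) forcing is monotone -/
theorem Forces.mono {φ : Fml} {c : C} {v : ℕ → U.El c} (H : U.Forces φ c v) {d : C} (f : d ⟶ c) :
    U.Forces φ d (U.rs f v) := by
  induction φ generalizing c v d with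
  | mem i j => exact U.mem_res f H
  | eq i j => exact U.eq_res f H
  | neg φ _ =>
    rw [forces_neg] at H ⊢
    intro e g
    rw [rs_rs]
    exact H e (g ≫ f)
  | and φ ψ ih1 ih2 => exact ⟨ih1 H.1 f, ih2 H.2 f⟩
  | all i φ _ =>
    rw [forces_all] at H ⊢
    intro e g x
    rw [rs_rs]
    exact H e (g ≫ f) x
-- END F2

-- BEGIN F3
/-- (task F3) forcing is local -/
theorem Forces.loc {φ : Fml} {c : C} {v : ℕ → U.El c}
    (H : Dn (fun d (f : d ⟶ c) => U.Forces φ d (U.rs f v))) : U.Forces φ c v := by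
  induction φ generalizing c v with
  | mem i j => exact U.mem_loc H
  | eq i j => exact U.eq_loc H
  | neg φ _ =>
    rw [forces_neg]
    intro d f hd
    obtain ⟨e, g, hg⟩ := H d f
    rw [forces_neg] at hg
    have h1 := hg e (𝟙 e)
    rw [rs_id, ← rs_rs] at h1
    exact h1 (Forces.mono U hd g)
  | and φ ψ ih1 ih2 =>
    exact ⟨ih1 (H.imp fun _ _ h => h.1), ih2 (H.imp fun _ _ h => h.2)⟩
  | all i φ ih =>
    rw [forces_all]
    intro d f x
    refine ih ?_
    intro e g
    obtain ⟨e', g', hg⟩ := H e (g ≫ f)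
    rw [forces_all] at hg
    refine ⟨e', g', ?_⟩
    have h1 := hg e' (𝟙 e') (U.res (g' ≫ g) x)
    rw [rs_id] at h1
    change U.Forces φ e' (U.rs (g' ≫ g) (Function.update (U.rs f v) i x))
    rw [rs_update, rs_rs, Category.assoc]
    exact h1
-- END F3

-- BEGIN F4
/-- (task F4) forcing is congruent -/
theorem Forces.congr {φ : Fml} {c : C} {v w : ℕ → U.El c} (h : ∀ i, U.eq (v i) (w i))
    (H : U.Forces φ c v) : U.Forces φ c w := by
  induction φ generalizing c v w with
  | mem i j => exact U.mem_congr (h i) (h j) H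
  | eq i j => exact U.eq_trans (U.eq_symm (h i)) (U.eq_trans H (h j))
  | neg φ ih =>
    rw [forces_neg] at H ⊢
    intro d f hd
    exact H d f (ih (fun i => U.eq_symm (U.eq_res f (h i))) hd)
  | and φ ψ ih1 ih2 => exact ⟨ih1 h H.1, ih2 h H.2⟩
  | all i φ ih =>
    rw [forces_all] at H ⊢
    intro d f x
    refine ih (fun j => ?_) (H d f x)
    by_cases hij : j = i
    · subst hij
      rw [Function.update_self, Function.update_self]
      exact U.eq_refl x
    · rw [Function.update_of_ne hij, Function.update_of_ne hij]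
      exact U.eq_res f (h j)
-- END F4

-- BEGIN F5
/-- (task F5) forcing depends only on the variables below the bound -/
theorem forces_bd (φ : Fml) {c : C} (v w : ℕ → U.El c) (h : ∀ i < φ.bd, v i = w i) :
    U.Forces φ c v ↔ U.Forces φ c w := by
  induction φ generalizing c v w with
  | mem i j =>
    have hi : i < (Fml.mem i j).bd := Nat.lt_succ_of_le (le_max_left i j)
    have hj : j < (Fml.mem i j).bd := Nat.lt_succ_of_le (le_max_right i j)
    rw [forces_mem, forces_mem, h i hi, h j hj]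
  | eq i j =>
    have hi : i < (Fml.eq i j).bd := Nat.lt_succ_of_le (le_max_left i j)
    have hj : j < (Fml.eq i j).bd := Nat.lt_succ_of_le (le_max_right i j)
    rw [forces_eq, forces_eq, h i hi, h j hj]
  | neg φ ih =>
    rw [forces_neg, forces_neg]
    refine forall_congr' fun d => forall_congr' fun f => not_congr (ih _ _ fun i hi => ?_)
    rw [rs_apply, rs_apply, h i hi]
  | and φ ψ ih1 ih2 =>
    rw [forces_and, forces_and, ih1 v w fun i hi => h i (lt_of_lt_of_le hi (le_max_left _ _)),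
      ih2 v w fun i hi => h i (lt_of_lt_of_le hi (le_max_right _ _))]
  | all i φ ih =>
    rw [forces_all, forces_all]
    refine forall_congr' fun d => forall_congr' fun f => forall_congr' fun x =>
      ih _ _ fun j hj => ?_
    by_cases hij : j = i
    · subst hij
      rw [Function.update_self, Function.update_self]
    · rw [Function.update_of_ne hij, Function.update_of_ne hij, rs_apply, rs_apply,
        h j (lt_of_lt_of_le hj (le_max_right _ _))]
-- END F5

-- BEGIN F6
theorem f6_nn {φ : Fml} {c : C} {v : ℕ → U.El c}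
    (H : ∀ (d : C) (f : d ⟶ c), ¬ U.Forces (.neg φ) d (U.rs f v)) : U.Forces φ c v := by
  refine Forces.loc U ?_
  intro d f
  have h1 := H d f
  rw [forces_neg] at h1
  push Not at h1
  obtain ⟨e, g, hg⟩ := h1
  rw [rs_rs] at hg
  exact ⟨e, g, hg⟩

/-- (task F6) the derived connectives -/
@[simp] theorem forces_or {φ ψ : Fml} {c : C} {v : ℕ → U.El c} :
    U.Forces (.or φ ψ) c v ↔
      Dn (fun d (f : d ⟶ c) => U.Forces φ d (U.rs f v) ∨ U.Forces ψ d (U.rs f v)) := by
  unfold Fml.or
  rw [forces_neg]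
  constructor
  · intro H d f
    have h1 := H d f
    rw [forces_and, forces_neg, forces_neg] at h1
    by_cases hφ : ∀ (e : C) (g : e ⟶ d), ¬ U.Forces φ e (U.rs g (U.rs f v))
    · have h2 : ¬ ∀ (e : C) (g : e ⟶ d), ¬ U.Forces ψ e (U.rs g (U.rs f v)) :=
        fun h => h1 ⟨hφ, h⟩
      push Not at h2
      obtain ⟨e, g, hg⟩ := h2
      rw [rs_rs] at hg
      exact ⟨e, g, Or.inr hg⟩
    · push Not at hφ
      obtain ⟨e, g, hg⟩ := hφ
      rw [rs_rs] at hg
      exact ⟨e, g, Or.inl hg⟩
  · intro H d f h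
    rw [forces_and, forces_neg, forces_neg] at h
    obtain ⟨e, g, hg⟩ := H d f
    rw [← rs_rs] at hg
    rcases hg with hg | hg
    · exact h.1 e g hg
    · exact h.2 e g hg

@[simp] theorem forces_imp {φ ψ : Fml} {c : C} {v : ℕ → U.El c} :
    U.Forces (.imp φ ψ) c v ↔
      ∀ (d : C) (f : d ⟶ c), U.Forces φ d (U.rs f v) → U.Forces ψ d (U.rs f v) := by
  unfold Fml.imp
  rw [forces_neg]
  constructor
  · intro H d f hφ
    refine f6_nn U ?_
    intro e g hn
    refine H e (g ≫ f) ?_
    rw [← rs_rs]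
    exact ⟨Forces.mono U hφ g, hn⟩
  · intro H d f h
    rw [forces_and, forces_neg] at h
    have h1 := h.2 d (𝟙 d)
    rw [rs_id] at h1
    exact h1 (H d f h.1)

@[simp] theorem forces_iff {φ ψ : Fml} {c : C} {v : ℕ → U.El c} :
    U.Forces (.iff φ ψ) c v ↔
      ∀ (d : C) (f : d ⟶ c), U.Forces φ d (U.rs f v) ↔ U.Forces ψ d (U.rs f v) := by
  unfold Fml.iff
  rw [forces_and, forces_imp, forces_imp]
  constructor
  · rintro ⟨h1, h2⟩ d f
    exact ⟨h1 d f, h2 d f⟩
  · intro h
    exact ⟨fun d f => (h d f).1, fun d f => (h d f).2⟩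

@[simp] theorem forces_ex {i : ℕ} {φ : Fml} {c : C} {v : ℕ → U.El c} :
    U.Forces (.ex i φ) c v ↔ Dn (fun d (f : d ⟶ c) => ∃ x : U.El d,
      U.Forces φ d (Function.update (U.rs f v) i x)) := by
  unfold Fml.ex
  rw [forces_neg]
  constructor
  · intro H d f
    have h1 := H d f
    rw [forces_all] at h1
    push Not at h1
    obtain ⟨e, g, x, hx⟩ := h1
    rw [forces_neg] at hx
    push Not at hx
    obtain ⟨e', g', hg'⟩ := hx
    rw [rs_update, rs_rs, rs_rs] at hg'
    exact ⟨e', g' ≫ g, U.res g' x, hg'⟩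
  · intro H d f h
    obtain ⟨e, g, x, hx⟩ := H d f
    rw [forces_all] at h
    have h1 := h e g x
    rw [forces_neg] at h1
    have h2 := h1 e (𝟙 e)
    rw [rs_id, rs_rs] at h2
    exact h2 hx
-- END F6

-- BEGIN F7
/-- (task F7) the predicate `{x | φ(x)}` over a stage -/
theorem exists_pd (φ : Fml) (i : ℕ) {c : C} (v : ℕ → U.El c) : ∃ Φ : Pd U c,
    ∀ (d : C) (f : d ⟶ c) (x : U.El d),
      Φ.P d f x ↔ U.Forces φ d (Function.update (U.rs f v) i x) := by
  refine ⟨⟨fun d f x => U.Forces φ d (Function.update (U.rs f v) i x), ?_, ?_, ?_⟩,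
    fun d f x => Iff.rfl⟩
  · intro d e f g x h
    have h1 := Forces.mono U h g
    rw [rs_update, rs_rs] at h1
    exact h1
  · intro d f x H
    refine Forces.loc U ?_
    refine H.imp fun e g h => ?_
    rw [rs_update, rs_rs]
    exact h
  · intro d f x y hxy h
    refine Forces.congr U (fun j => ?_) h
    by_cases hij : j = i
    · subst hij
      rw [Function.update_self, Function.update_self]
      exact hxy
    · rw [Function.update_of_ne hij, Function.update_of_ne hij]
      exact U.eq_refl _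
-- END F7

end FU

end Pool.Agent.Lib.ZFM
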