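import Pool.Agent.Lib.MP_96875a_lc.Forces

/-!
Countable two-valued models from generic sequences of stages.
-/

open CategoryTheory

namespace Pool.Agent.Lib.ZFM

-- BEGIN G1
def g1_enc : Fml → ℕ
  | .mem i j => 5 * Nat.pair i j
  | .eq i j => 5 * Nat.pair i j + 1
  | .neg φ => 5 * g1_enc φ + 2
  | .and φ ψ => 5 * Nat.pair (g1_enc φ) (g1_enc ψ) + 3
  | .all i φ => 5 * Nat.pair i (g1_enc φ) + 4

theorem g1_inj : ∀ φ ψ : Fml, g1_enc φ = g1_enc ψ → φ = ψ := by
  intro φ
  induction φ with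
  | mem i j =>
    intro ψ h
    cases ψ with
    | mem i' j' =>
      simp only [g1_enc] at h
      have h' := Nat.pair_eq_pair.1 (by omega : Nat.pair i j = Nat.pair i' j')
      rw [h'.1, h'.2]
    | _ => simp only [g1_enc] at h; omega
  | eq i j =>
    intro ψ h
    cases ψ with
    | eq i' j' =>
      simp only [g1_enc] at h
      have h' := Nat.pair_eq_pair.1 (by omega : Nat.pair i j = Nat.pair i' j')
      rw [h'.1, h'.2]
    | _ => simp only [g1_enc] at h; omega
  | neg φ ih =>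
    intro ψ h
    cases ψ with
    | neg φ' =>
      simp only [g1_enc] at h
      rw [ih φ' (by omega)]
    | _ => simp only [g1_enc] at h; omega
  | and φ χ ih1 ih2 =>
    intro ψ h
    cases ψ with
    | and φ' χ' =>
      simp only [g1_enc] at h
      have h' := Nat.pair_eq_pair.1
        (by omega : Nat.pair (g1_enc φ) (g1_enc χ) = Nat.pair (g1_enc φ') (g1_enc χ'))
      rw [ih1 _ h'.1, ih2 _ h'.2]
    | _ => simp only [g1_enc] at h; omega
  | all i φ ih =>
    intro ψ h
    cases ψ with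
    | all i' φ' =>
      simp only [g1_enc] at h
      have h' := Nat.pair_eq_pair.1
        (by omega : Nat.pair i (g1_enc φ) = Nat.pair i' (g1_enc φ'))
      rw [h'.1, ih _ h'.2]
    | _ => simp only [g1_enc] at h; omega

/-- (task G1) there are countably many formulas -/
theorem countable_fml : Countable Fml :=
  (show Function.Injective g1_enc from fun a b h => g1_inj a b h).countable
-- END G1

-- BEGIN G2
/-- (task G2) an enumeration of all formulas and finite substitutions with infinite repetition -/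
theorem exists_tasks : ∃ T : ℕ → Fml × (ℕ → ℕ), ∀ (φ : Fml) (u : ℕ → ℕ) (N : ℕ),
    ∃ n ≥ N, (T n).1 = φ ∧ ∀ i < φ.bd, (T n).2 i = u i := by
  haveI := countable_fml
  haveI : Countable (Fml × List ℕ) := inferInstance
  haveI : Nonempty (Fml × List ℕ) := ⟨(.mem 0 0, [])⟩
  obtain ⟨s, hs⟩ := exists_surjective_nat (Fml × List ℕ)
  refine ⟨fun n => ((s (Nat.unpair n).1).1, fun i => (s (Nat.unpair n).1).2.getD i 0),
    fun φ u N => ?_⟩
  obtain ⟨a, ha⟩ := hs (φ, (List.range φ.bd).map u)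
  refine ⟨Nat.pair a N, Nat.right_le_pair a N, ?_, fun i hi => ?_⟩
  · simp [ha]
  · simp only [Nat.unpair_pair, ha]
    simp [List.getD, hi]
-- END G2

variable {C : Type 1} [Category.{0} C] (U : FU C)

theorem FU.nonempty_el (c : C) : Nonempty (U.El c) :=
  ⟨U.set ⟨PEmpty, fun i => i.elim, fun i => i.elim, fun i => i.elim⟩⟩

-- BEGIN G3
/-- (task G3) one step of the construction -/
theorem FU.exists_step (c : C) (v : ℕ → U.El c) (n : ℕ) (φ : Fml) (u : ℕ → ℕ)
    (hu : ∀ i < φ.bd, u i < n) :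
    ∃ (d : C) (f : d ⟶ c) (w : ℕ → U.El d), (∀ i < n, w i = U.res f (v i)) ∧
      (U.Forces φ d (w ∘ u) ∨ (U.Forces (.neg φ) d (w ∘ u) ∧
        ∀ i ψ, φ = .all i ψ → U.Forces (.neg ψ) d (w ∘ Function.update u i n))) := by
  by_cases H : ∃ (d : C) (f : d ⟶ c), U.Forces φ d (U.rs f (v ∘ u))
  · obtain ⟨d, f, h⟩ := H
    exact ⟨d, f, U.rs f v, fun i _ => rfl, Or.inl h⟩
  · have hneg : U.Forces (.neg φ) c (v ∘ u) := by
      rw [FU.forces_neg]
      intro d f h
      exact H ⟨d, f, h⟩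
    by_cases hall : ∃ i ψ, φ = Fml.all i ψ
    · obtain ⟨i, ψ, rfl⟩ := hall
      have h1 : ¬ U.Forces (.all i ψ) c (v ∘ u) := by
        intro h
        refine H ⟨c, 𝟙 c, ?_⟩
        rw [FU.rs_id]
        exact h
      rw [FU.forces_all] at h1
      push Not at h1
      obtain ⟨d, f, x, hx⟩ := h1
      have h2 : ¬ Dn (fun e (g : e ⟶ d) =>
          U.Forces ψ e (U.rs g (Function.update (U.rs f (v ∘ u)) i x))) :=
        fun h => hx (FU.Forces.loc U h)
      unfold Dn at h2
      push Not at h2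
      obtain ⟨e, g, hg⟩ := h2
      have hn : U.Forces (.neg ψ) e (U.rs g (Function.update (U.rs f (v ∘ u)) i x)) := by
        rw [FU.forces_neg]
        intro e' g' h
        rw [FU.rs_rs] at h
        exact hg e' g' h
      refine ⟨e, g ≫ f, Function.update (U.rs (g ≫ f) v) n (U.res g x), fun j hj => ?_, ?_⟩
      · rw [Function.update_of_ne (Nat.ne_of_lt hj)]
        rfl
      · refine Or.inr ⟨?_, ?_⟩
        · refine (FU.forces_bd U (.neg (.all i ψ)) _ _ fun j hj => ?_).1
            (FU.Forces.mono U hneg (g ≫ f))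
          have hj' := hu j hj
          rw [Function.comp_apply, Function.update_of_ne (Nat.ne_of_lt hj')]
          rfl
        · intro i' ψ' h
          injection h with hi hψ
          subst hi hψ
          refine (FU.forces_bd U (.neg ψ) _ _ fun j hj => ?_).1 hn
          rw [FU.rs_update, Function.comp_apply]
          by_cases hji : j = i
          · subst hji
            rw [Function.update_self, Function.update_self, Function.update_self]
          · have hj' := hu j (lt_of_lt_of_le hj (le_max_right _ _))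
            rw [Function.update_of_ne hji, Function.update_of_ne hji,
              Function.update_of_ne (Nat.ne_of_lt hj'), FU.rs_rs]
            rfl
    · refine ⟨c, 𝟙 c, v, fun i _ => (U.res_id _).symm, Or.inr ⟨hneg, fun i ψ h => ?_⟩⟩
      exact absurd ⟨i, ψ, h⟩ hall
-- END G3

/-- a generic sequence of stages, with an assignment of all elements of the model -/
structure GenSeq (U : FU C) where
  c : ℕ → C
  f : ∀ n, c (n + 1) ⟶ c n
  v : ∀ n, ℕ → U.El (c n)
  coh : ∀ n i, i < n → v (n + 1) i = U.res (f n) (v n i)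
  dec : ∀ (φ : Fml) (u : ℕ → ℕ) (N : ℕ), (∀ i < φ.bd, u i < N) → ∃ n ≥ N,
    U.Forces φ (c n) (v n ∘ u) ∨ (U.Forces (.neg φ) (c n) (v n ∘ u) ∧
      ∀ i ψ, φ = .all i ψ → ∃ k < n, U.Forces (.neg ψ) (c n) (v n ∘ Function.update u i k))

-- BEGIN G4
/-- (task G4) generic sequences exist -/
theorem exists_genSeq (c₀ : C) : Nonempty (GenSeq U) := by
  obtain ⟨T, hT⟩ := exists_tasks
  have hstep : ∀ (n : ℕ) (s : Σ c : C, (ℕ → U.El c)), ∃ (t : Σ c : C, (ℕ → U.El c))
      (f : t.1 ⟶ s.1), (∀ i < n, t.2 i = U.res f (s.2 i)) ∧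
      ((∀ i < (T n).1.bd, (T n).2 i < n) →
        (U.Forces (T n).1 t.1 (t.2 ∘ (T n).2) ∨ (U.Forces (.neg (T n).1) t.1 (t.2 ∘ (T n).2) ∧
        ∀ i ψ, (T n).1 = .all i ψ →
          U.Forces (.neg ψ) t.1 (t.2 ∘ Function.update (T n).2 i n)))) := by
    intro n s
    by_cases h : ∀ i < (T n).1.bd, (T n).2 i < n
    · obtain ⟨d, f, w, h1, h2⟩ := FU.exists_step U s.1 s.2 n (T n).1 (T n).2 h
      exact ⟨⟨d, w⟩, f, h1, fun _ => h2⟩
    · exact ⟨s, 𝟙 s.1, fun i _ => (U.res_id _).symm, fun h' => absurd h' h⟩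
  choose next mor hP using hstep
  obtain ⟨x₀⟩ := FU.nonempty_el U c₀
  let seq : ℕ → Σ c : C, (ℕ → U.El c) := fun n =>
    Nat.rec (motive := fun _ => Σ c : C, (ℕ → U.El c)) ⟨c₀, fun _ => x₀⟩ next n
  refine ⟨⟨fun n => (seq n).1, fun n => mor n (seq n), fun n => (seq n).2, ?_, ?_⟩⟩
  · intro n i hi
    exact (hP n (seq n)).1 i hi
  · intro φ u N hu
    obtain ⟨n, hnN, h1, h2⟩ := hT φ u N
    have hb : ∀ i < (T n).1.bd, (T n).2 i < n := by
      intro i hi
      rw [h1] at hi
      rw [h2 i hi]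
      exact lt_of_lt_of_le (hu i hi) hnN
    have h3 := (hP n (seq n)).2 hb
    have h2' : ∀ i < φ.bd, ((seq (n + 1)).2 ∘ (T n).2) i = ((seq (n + 1)).2 ∘ u) i := by
      intro i hi
      rw [Function.comp_apply, Function.comp_apply, h2 i hi]
    refine ⟨n + 1, Nat.le_succ_of_le hnN, ?_⟩
    rcases h3 with h3 | ⟨h3, h4⟩
    · left
      rw [h1] at h3
      exact (FU.forces_bd U φ _ _ h2').1 h3
    · right
      rw [h1] at h3
      refine ⟨(FU.forces_bd U (.neg φ) _ _ h2').1 h3, fun i ψ h => ⟨n, Nat.lt_succ_self n, ?_⟩⟩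
      have h5 := h4 i ψ (h1.trans h)
      refine (FU.forces_bd U (.neg ψ) _ _ fun j hj => ?_).1 h5
      have hj' : j < φ.bd := by
        rw [h]
        exact lt_of_lt_of_le hj (le_max_right _ _)
      rw [Function.comp_apply, Function.comp_apply]
      by_cases hji : j = i
      · subst hji
        rw [Function.update_self, Function.update_self]
      · rw [Function.update_of_ne hji, Function.update_of_ne hji, h2 j hj']
-- END G4

namespace GenSeq

variable {U} (G : GenSeq U)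

/-- truth in the generic model -/
def Tr (φ : Fml) (u : ℕ → ℕ) : Prop :=
  ∃ n, (∀ i < φ.bd, u i < n) ∧ U.Forces φ (G.c n) (G.v n ∘ u)

-- BEGIN G5
/-- (task G5) truth persists -/
theorem persist {φ : Fml} {u : ℕ → ℕ} {n m : ℕ} (hnm : n ≤ m) (hu : ∀ i < φ.bd, u i < n)
    (H : U.Forces φ (G.c n) (G.v n ∘ u)) : U.Forces φ (G.c m) (G.v m ∘ u) := by
  induction m, hnm using Nat.le_induction with
  | base => exact H
  | succ m hm ih =>
    refine (FU.forces_bd U φ _ _ fun i hi => ?_).1 (FU.Forces.mono U ih (G.f m))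
    rw [FU.rs_apply, Function.comp_apply, Function.comp_apply,
      G.coh m (u i) (lt_of_lt_of_le (hu i hi) hm)]
-- END G5

-- BEGIN G6
/-- (task G6) -/
theorem tr_neg {φ : Fml} {u : ℕ → ℕ} : G.Tr (.neg φ) u ↔ ¬ G.Tr φ u := by
  constructor
  · rintro ⟨n, hn, h⟩ ⟨m, hm, h'⟩
    have h1 := G.persist (le_max_left n m) hn h
    have h2 := G.persist (le_max_right n m) hm h'
    rw [FU.forces_neg] at h1
    have h3 := h1 _ (𝟙 _)
    rw [FU.rs_id] at h3
    exact h3 h2
  · intro h
    obtain ⟨N, hN⟩ : ∃ N, ∀ i < φ.bd, u i < N := by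
      refine ⟨(Finset.range φ.bd).sup u + 1, fun i hi => ?_⟩
      exact Nat.lt_succ_of_le (Finset.le_sup (f := u) (Finset.mem_range.2 hi))
    obtain ⟨n, hn, h1 | ⟨h1, -⟩⟩ := G.dec φ u N hN
    · exact absurd ⟨n, fun i hi => (hN i hi).trans_le hn, h1⟩ h
    · exact ⟨n, fun i hi => (hN i hi).trans_le hn, h1⟩

theorem tr_and {φ ψ : Fml} {u : ℕ → ℕ} : G.Tr (.and φ ψ) u ↔ G.Tr φ u ∧ G.Tr ψ u := by
  constructor
  · rintro ⟨n, hn, h⟩
    rw [FU.forces_and] at h
    exact ⟨⟨n, fun i hi => hn i (hi.trans_le (le_max_left _ _)), h.1⟩,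
      ⟨n, fun i hi => hn i (hi.trans_le (le_max_right _ _)), h.2⟩⟩
  · rintro ⟨⟨n, hn, h⟩, ⟨m, hm, h'⟩⟩
    refine ⟨max n m, fun i hi => ?_, ?_⟩
    · rcases lt_max_iff.1 hi with hi | hi
      · exact (hn i hi).trans_le (le_max_left _ _)
      · exact (hm i hi).trans_le (le_max_right _ _)
    · rw [FU.forces_and]
      exact ⟨G.persist (le_max_left n m) hn h, G.persist (le_max_right n m) hm h'⟩
-- END G6

-- BEGIN G7
/-- (task G7) -/
theorem tr_all {i : ℕ} {φ : Fml} {u : ℕ → ℕ} :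
    G.Tr (.all i φ) u ↔ ∀ k, G.Tr φ (Function.update u i k) := by
  constructor
  · rintro ⟨n, hn, h⟩ k
    have h1 := G.persist (le_max_left n (k + 1)) hn h
    rw [FU.forces_all] at h1
    have h2 := h1 _ (𝟙 _) (G.v (max n (k + 1)) k)
    rw [FU.rs_id, ← Function.comp_update] at h2
    refine ⟨max n (k + 1), fun j hj => ?_, h2⟩
    by_cases hji : j = i
    · subst hji
      rw [Function.update_self]
      exact lt_of_lt_of_le (Nat.lt_succ_self k) (le_max_right _ _)
    · rw [Function.update_of_ne hji]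
      exact (hn j (hj.trans_le (le_max_right _ _))).trans_le (le_max_left _ _)
  · intro h
    obtain ⟨N, hN⟩ : ∃ N, ∀ j < (Fml.all i φ).bd, u j < N := by
      refine ⟨(Finset.range (Fml.all i φ).bd).sup u + 1, fun j hj => ?_⟩
      exact Nat.lt_succ_of_le (Finset.le_sup (f := u) (Finset.mem_range.2 hj))
    obtain ⟨n, hn, h1 | ⟨-, h1⟩⟩ := G.dec (.all i φ) u N hN
    · exact ⟨n, fun j hj => (hN j hj).trans_le hn, h1⟩
    · obtain ⟨k, hk, h2⟩ := h1 i φ rfl
      have h3 : G.Tr (.neg φ) (Function.update u i k) := by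
        refine ⟨n, fun j hj => ?_, h2⟩
        by_cases hji : j = i
        · subst hji
          rw [Function.update_self]
          exact hk
        · rw [Function.update_of_ne hji]
          exact (hN j (lt_of_lt_of_le hj (le_max_right _ _))).trans_le hn
      exact absurd (h k) (G.tr_neg.1 h3)
-- END G7

/-- the setoid of elements which are forced to be equal -/
def r (i j : ℕ) : Prop := ∃ n, i < n ∧ j < n ∧ U.eq (G.v n i) (G.v n j)

/-- membership -/
def m (i j : ℕ) : Prop := ∃ n, i < n ∧ j < n ∧ U.mem (G.v n i) (G.v n j)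

-- BEGIN G8
theorem g8_eq {n m i j : ℕ} (hnm : n ≤ m) (hi : i < n) (hj : j < n)
    (H : U.eq (G.v n i) (G.v n j)) : U.eq (G.v m i) (G.v m j) :=
  G.persist (φ := .eq i j) (u := id) hnm
    (fun k hk => by simp only [Fml.bd] at hk; simp only [id]; omega) H

theorem g8_mem {n m i j : ℕ} (hnm : n ≤ m) (hi : i < n) (hj : j < n)
    (H : U.mem (G.v n i) (G.v n j)) : U.mem (G.v m i) (G.v m j) :=
  G.persist (φ := .mem i j) (u := id) hnm
    (fun k hk => by simp only [Fml.bd] at hk; simp only [id]; omega) H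

theorem g8_bd (u : ℕ → ℕ) (N : ℕ) : ∃ M, ∀ k < N, u k < M := by
  refine ⟨(Finset.range N).sup u + 1, fun k hk => ?_⟩
  exact Nat.lt_succ_of_le (Finset.le_sup (f := u) (Finset.mem_range.2 hk))

/-- (task G8) -/
theorem r_equiv : Equivalence G.r := by
  refine ⟨fun i => ⟨i + 1, Nat.lt_succ_self i, Nat.lt_succ_self i, U.eq_refl _⟩, ?_, ?_⟩
  · rintro i j ⟨n, h1, h2, h3⟩
    exact ⟨n, h2, h1, U.eq_symm h3⟩
  · rintro i j k ⟨n, h1, h2, h3⟩ ⟨m, k1, k2, k3⟩
    exact ⟨max n m, lt_of_lt_of_le h1 (le_max_left _ _), lt_of_lt_of_le k2 (le_max_right _ _),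
      U.eq_trans (G.g8_eq (le_max_left _ _) h1 h2 h3) (G.g8_eq (le_max_right _ _) k1 k2 k3)⟩

theorem m_congr {i j i' j' : ℕ} (hi : G.r i i') (hj : G.r j j') : G.m i j ↔ G.m i' j' := by
  have key : ∀ {i j i' j' : ℕ}, G.r i i' → G.r j j' → G.m i j → G.m i' j' := by
    rintro i j i' j' ⟨n, h1, h2, h3⟩ ⟨m, k1, k2, k3⟩ ⟨l, l1, l2, l3⟩
    have hn : n ≤ max n (max m l) := le_max_left _ _
    have hm : m ≤ max n (max m l) := le_trans (le_max_left _ _) (le_max_right _ _)
    have hl : l ≤ max n (max m l) := le_trans (le_max_right _ _) (le_max_right _ _)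
    exact ⟨max n (max m l), lt_of_lt_of_le h2 hn, lt_of_lt_of_le k2 hm,
      U.mem_congr (G.g8_eq hn h1 h2 h3) (G.g8_eq hm k1 k2 k3) (G.g8_mem hl l1 l2 l3)⟩
  exact ⟨key hi hj, key (G.r_equiv.symm hi) (G.r_equiv.symm hj)⟩

theorem tr_mem {i j : ℕ} {u : ℕ → ℕ} : G.Tr (.mem i j) u ↔ G.m (u i) (u j) := by
  constructor
  · rintro ⟨n, h1, h2⟩
    exact ⟨n, h1 i (by simp only [Fml.bd]; omega), h1 j (by simp only [Fml.bd]; omega), h2⟩
  · rintro ⟨n, h1, h2, h3⟩
    obtain ⟨M, hM⟩ := g8_bd u (Fml.mem i j).bd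
    exact ⟨max n M, fun k hk => lt_of_lt_of_le (hM k hk) (le_max_right _ _),
      G.g8_mem (le_max_left _ _) h1 h2 h3⟩

theorem tr_eq {i j : ℕ} {u : ℕ → ℕ} : G.Tr (.eq i j) u ↔ G.r (u i) (u j) := by
  constructor
  · rintro ⟨n, h1, h2⟩
    exact ⟨n, h1 i (by simp only [Fml.bd]; omega), h1 j (by simp only [Fml.bd]; omega), h2⟩
  · rintro ⟨n, h1, h2, h3⟩
    obtain ⟨M, hM⟩ := g8_bd u (Fml.eq i j).bd
    exact ⟨max n M, fun k hk => lt_of_lt_of_le (hM k hk) (le_max_right _ _),
      G.g8_eq (le_max_left _ _) h1 h2 h3⟩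
-- END G8

/-- the setoid -/
def std : Setoid ℕ := ⟨G.r, G.r_equiv⟩

/-- the generic model -/
def Model : Type := Quotient G.std

/-- membership in the generic model -/
def E (x y : G.Model) : Prop :=
  Quotient.liftOn₂ x y G.m (fun _ _ _ _ hi hj => propext (G.m_congr hi hj))

-- BEGIN G9
/-- the class of an element -/
def g9_q (k : ℕ) : G.Model := Quotient.mk G.std k

theorem g9_upd (u : ℕ → ℕ) (i k : ℕ) :
    Function.update (fun n => G.g9_q (u n)) i (G.g9_q k) =
      fun n => G.g9_q (Function.update u i k n) := by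
  funext n
  by_cases h : n = i
  · subst h; simp
  · simp [Function.update_of_ne h]

theorem g9_aux (φ : Fml) (u : ℕ → ℕ) :
    Sat G.E φ (fun n => G.g9_q (u n)) ↔ G.Tr φ u := by
  induction φ generalizing u with
  | mem i j => rw [G.tr_mem]; exact Iff.rfl
  | eq i j =>
    rw [G.tr_eq]
    constructor
    · intro h
      exact Quotient.exact h
    · intro h
      exact Quotient.sound (s := G.std) h
  | neg φ ih => rw [G.tr_neg, sat_neg, ih]
  | and φ ψ ih1 ih2 => rw [G.tr_and, sat_and, ih1, ih2]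
  | all i φ ih =>
    rw [G.tr_all, sat_all]
    constructor
    · intro h k
      rw [← ih, ← G.g9_upd]
      exact h _
    · intro h x
      obtain ⟨k, rfl⟩ : ∃ k, G.g9_q k = x := by
        induction x using Quotient.ind with
        | _ k => exact ⟨k, rfl⟩
      have := h k
      rw [← ih, ← G.g9_upd] at this
      exact this

/-- (task G9) the truth lemma -/
theorem sat_iff (φ : Fml) (u : ℕ → ℕ) :
    Sat G.E φ (fun n => (Quotient.mk G.std (u n) : G.Model)) ↔ G.Tr φ u :=
  G.g9_aux φ u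
-- END G9

end GenSeq

/-- the generic model satisfies every formula which is forced at all stages -/
theorem FU.exists_model (c₀ : C) : ∃ (M : Type) (E : M → M → Prop), Nonempty M ∧
    ∀ φ : Fml, (∀ (c : C) (v : ℕ → U.El c), U.Forces φ c v) → ∀ v : ℕ → M, Sat E φ v := by
  obtain ⟨G⟩ := exists_genSeq U c₀
  refine ⟨G.Model, G.E, ⟨Quotient.mk G.std 0⟩, fun φ H v => ?_⟩
  have hv : v = fun n => (Quotient.mk G.std (v n).out : G.Model) := by
    funext n
    exact (Quotient.out_eq (v n)).symm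
  rw [hv, G.sat_iff]
  obtain ⟨N, hN⟩ : ∃ N, ∀ i < φ.bd, (v i).out < N := by
    refine ⟨(Finset.range φ.bd).sup (fun i => (v i).out) + 1, fun i hi => ?_⟩
    exact Nat.lt_succ_of_le (Finset.le_sup (f := fun i => (v i).out) (Finset.mem_range.2 hi))
  exact ⟨N, hN, H _ _⟩

end Pool.Agent.Lib.ZFM
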