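import Pool.Agent.Lib.MP_96875a_lc.FU

/-!
Names over a category: the forcing universe `names C`.
-/

open CategoryTheory

namespace Pool.Agent.Lib.ZFM

variable {C : Type 1} [Category.{0} C]

/-- Names at the stage `c`: small families of spans `e i ⟶ c`, `e i ⟶ d i` with names at `d i`. -/
inductive Nm : C → Type 2
  | mk {c : C} (ι : Type 1) (e d : ι → C) (f : ∀ i, e i ⟶ c) (t : ∀ i, e i ⟶ d i)
      (x : ∀ i, Nm (d i)) : Nm c

/-- forced equality of two names (bases `a`, `b`) at the stage `c` -/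
def Nm.Eqv : ∀ {a b : C}, Nm a → Nm b → ∀ c : C, (c ⟶ a) → (c ⟶ b) → Prop
  | _, _, .mk ι e _ f t x, .mk ι' e' _ f' t' x' => fun c h k =>
    (∀ (i : ι) (c' : C) (g : c' ⟶ c) (l : c' ⟶ e i), l ≫ f i = g ≫ h →
      ∃ (c'' : C) (g' : c'' ⟶ c') (j : ι') (l' : c'' ⟶ e' j),
        l' ≫ f' j = g' ≫ g ≫ k ∧ Nm.Eqv (x i) (x' j) c'' (g' ≫ l ≫ t i) (l' ≫ t' j)) ∧
    (∀ (j : ι') (c' : C) (g : c' ⟶ c) (l : c' ⟶ e' j), l ≫ f' j = g ≫ k →
      ∃ (c'' : C) (g' : c'' ⟶ c') (i : ι) (l' : c'' ⟶ e i),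
        l' ≫ f i = g' ≫ g ≫ h ∧ Nm.Eqv (x i) (x' j) c'' (l' ≫ t i) (g' ≫ l ≫ t' j))

/-- forced membership of two names (bases `a`, `b`) at the stage `c` -/
def Nm.Mem {a b : C} (y : Nm a) : Nm b → ∀ c : C, (c ⟶ a) → (c ⟶ b) → Prop
  | .mk _ e _ f t x => fun c h k =>
    ∀ (c' : C) (g : c' ⟶ c), ∃ (c'' : C) (g' : c'' ⟶ c') (i : _) (l : c'' ⟶ e i),
      l ≫ f i = g' ≫ g ≫ k ∧ Nm.Eqv y (x i) c'' (g' ≫ g ≫ h) (l ≫ t i)

-- BEGIN N1
/-- (task N1) forced equality is preserved by restriction -/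
theorem Nm.Eqv.mono {a b : C} {x : Nm a} {y : Nm b} {c : C} {h : c ⟶ a} {k : c ⟶ b}
    (H : Nm.Eqv x y c h k) {d : C} (g : d ⟶ c) : Nm.Eqv x y d (g ≫ h) (g ≫ k) := by
  cases x with
  | mk ι e d' f t x =>
  cases y with
  | mk ι' e' d'' f' t' x' =>
  simp only [Nm.Eqv] at H ⊢
  refine ⟨fun i c' g' l hl => ?_, fun j c' g' l hl => ?_⟩
  · obtain ⟨c'', g'', j, l', h1, h2⟩ := H.1 i c' (g' ≫ g) l (by rw [hl, Category.assoc])
    exact ⟨c'', g'', j, l', by rw [h1]; simp only [Category.assoc], h2⟩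
  · obtain ⟨c'', g'', i, l', h1, h2⟩ := H.2 j c' (g' ≫ g) l (by rw [hl, Category.assoc])
    exact ⟨c'', g'', i, l', by rw [h1]; simp only [Category.assoc], h2⟩
-- END N1

-- BEGIN N2
/-- (task N2) forced equality is local -/
theorem Nm.Eqv.local {a b : C} {x : Nm a} {y : Nm b} {c : C} {h : c ⟶ a} {k : c ⟶ b}
    (H : ∀ (d : C) (f : d ⟶ c), ∃ (e : C) (g : e ⟶ d), Nm.Eqv x y e (g ≫ f ≫ h) (g ≫ f ≫ k)) :
    Nm.Eqv x y c h k := by
  cases x with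
  | mk ι e d' f t x =>
  cases y with
  | mk ι' e' d'' f' t' x' =>
  simp only [Nm.Eqv] at H ⊢
  refine ⟨fun i c' g l hl => ?_, fun j c' g l hl => ?_⟩
  · obtain ⟨e₁, m, K, -⟩ := H c' g
    obtain ⟨c'', g'', j, l', h1, h2⟩ := K i e₁ (𝟙 e₁) (m ≫ l) (by simp [hl])
    exact ⟨c'', g'' ≫ m, j, l', by rw [h1]; simp, by simpa using h2⟩
  · obtain ⟨e₁, m, -, K⟩ := H c' g
    obtain ⟨c'', g'', i, l', h1, h2⟩ := K j e₁ (𝟙 e₁) (m ≫ l) (by simp [hl])
    exact ⟨c'', g'' ≫ m, i, l', by rw [h1]; simp, by simpa using h2⟩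
-- END N2

-- BEGIN N3
/-- (task N3) reflexivity -/
theorem Nm.Eqv.refl {a : C} (x : Nm a) (c : C) (h : c ⟶ a) : Nm.Eqv x x c h h := by
  revert c
  induction x with
  | mk ι e d f t x ih =>
    intro c h
    simp only [Nm.Eqv]
    refine ⟨fun i c' g l hl => ⟨c', 𝟙 c', i, l, by simp [hl], ?_⟩,
      fun i c' g l hl => ⟨c', 𝟙 c', i, l, by simp [hl], ?_⟩⟩
    · simpa using ih i c' (l ≫ t i)
    · simpa using ih i c' (l ≫ t i)
-- END N3

-- BEGIN N4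
/-- (task N4) symmetry -/
theorem Nm.Eqv.symm {a b : C} {x : Nm a} {y : Nm b} {c : C} {h : c ⟶ a} {k : c ⟶ b}
    (H : Nm.Eqv x y c h k) : Nm.Eqv y x c k h := by
  revert b c
  induction x with
  | mk ι e d f t x ih =>
    intro b y
    cases y with
    | mk ι' e' d'' f' t' x' =>
    intro c h k H
    simp only [Nm.Eqv] at H ⊢
    refine ⟨fun i c' g l hl => ?_, fun j c' g l hl => ?_⟩
    · obtain ⟨c'', g', j, l', h1, h2⟩ := H.2 i c' g l hl
      exact ⟨c'', g', j, l', h1, ih j h2⟩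
    · obtain ⟨c'', g', i, l', h1, h2⟩ := H.1 j c' g l hl
      exact ⟨c'', g', i, l', h1, ih j h2⟩
-- END N4

-- BEGIN N5
/-- (task N5) transitivity -/
theorem Nm.Eqv.trans {a₁ a₂ a₃ : C} {x₁ : Nm a₁} {x₂ : Nm a₂} {x₃ : Nm a₃} {c : C} {h₁ : c ⟶ a₁}
    {h₂ : c ⟶ a₂} {h₃ : c ⟶ a₃} (H : Nm.Eqv x₁ x₂ c h₁ h₂) (K : Nm.Eqv x₂ x₃ c h₂ h₃) :
    Nm.Eqv x₁ x₃ c h₁ h₃ := by
  induction x₁ generalizing a₂ a₃ c with
  | mk ι₁ e₁ d₁ f₁ t₁ y₁ ih =>
    cases x₂ with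
    | mk ι₂ e₂ d₂ f₂ t₂ y₂ =>
      cases x₃ with
      | mk ι₃ e₃ d₃ f₃ t₃ y₃ =>
        simp only [Nm.Eqv] at H K ⊢
        constructor
        · intro i c' g l hl
          obtain ⟨c₂, g₂, j, l₂, hl₂, E₁⟩ := H.1 i c' g l hl
          obtain ⟨c₃, g₃, k, l₃, hl₃, E₂⟩ := K.1 j c₂ (g₂ ≫ g) l₂
            (by rw [hl₂, Category.assoc])
          refine ⟨c₃, g₃ ≫ g₂, k, l₃, by rw [hl₃]; simp only [Category.assoc], ?_⟩
          have E₁' := E₁.mono g₃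
          have h := ih i E₁' E₂
          simpa only [Category.assoc] using h
        · intro k c' g l hl
          obtain ⟨c₂, g₂, j, l₂, hl₂, E₂⟩ := K.2 k c' g l hl
          obtain ⟨c₃, g₃, i, l₃, hl₃, E₁⟩ := H.2 j c₂ (g₂ ≫ g) l₂
            (by rw [hl₂, Category.assoc])
          refine ⟨c₃, g₃ ≫ g₂, i, l₃, by rw [hl₃]; simp only [Category.assoc], ?_⟩
          have E₂' := E₂.mono g₃
          have h := ih i E₁ E₂'
          simpa only [Category.assoc] using h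
-- END N5

-- BEGIN N6
/-- (task N6) congruence of membership in both arguments -/
theorem Nm.Mem.congr {a a' b b' : C} {x : Nm a} {x' : Nm a'} {y : Nm b} {y' : Nm b'} {c : C}
    {h : c ⟶ a} {h' : c ⟶ a'} {k : c ⟶ b} {k' : c ⟶ b'} (hx : Nm.Eqv x x' c h h')
    (hy : Nm.Eqv y y' c k k') (H : Nm.Mem x y c h k) : Nm.Mem x' y' c h' k' := by
  cases y with
  | mk ι₁ e₁ d₁ f₁ t₁ y₁ =>
    cases y' with
    | mk ι₂ e₂ d₂ f₂ t₂ y₂ =>
      simp only [Nm.Eqv] at hy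
      simp only [Nm.Mem] at H ⊢
      intro c' g
      obtain ⟨c₂, g₂, i, l, hl, E⟩ := H c' g
      obtain ⟨c₃, g₃, j, l', hl', E₂⟩ := hy.1 i c₂ (g₂ ≫ g) l (by rw [hl, Category.assoc])
      refine ⟨c₃, g₃ ≫ g₂, j, l', by rw [hl']; simp only [Category.assoc], ?_⟩
      have E₀ := (hx.mono (g₃ ≫ g₂ ≫ g)).symm
      have E₁ := E.mono g₃
      simp only [Category.assoc] at E₀ E₁ E₂ ⊢
      exact E₀.trans (E₁.trans E₂)
-- END N6

-- BEGIN N7
/-- (task N7) an element of a name is a member -/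
theorem n7_self {c : C} (ι : Type 1) (e d : ι → C) (f : ∀ i, e i ⟶ c) (t : ∀ i, e i ⟶ d i)
    (x : ∀ i, Nm (d i)) {c' : C} {k : c' ⟶ c} (i : ι) (l : c' ⟶ e i) (hl : l ≫ f i = k) :
    Nm.Mem (x i) (Nm.mk ι e d f t x) c' (l ≫ t i) k := by
  simp only [Nm.Mem]
  intro c₁ g₁
  refine ⟨c₁, 𝟙 c₁, i, g₁ ≫ l, ?_, ?_⟩
  · rw [Category.assoc, hl, Category.id_comp]
  · have := Nm.Eqv.refl (x i) c₁ (g₁ ≫ l ≫ t i)
    simpa only [Category.id_comp, Category.assoc] using this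

/-- (task N7) extensionality -/
theorem Nm.Eqv.ext {a b : C} {x : Nm a} {y : Nm b} {c : C} {h : c ⟶ a} {k : c ⟶ b}
    (H : ∀ (d : C) (g : d ⟶ c) (e : C) (z : Nm e) (l : d ⟶ e),
      Nm.Mem z x d l (g ≫ h) ↔ Nm.Mem z y d l (g ≫ k)) : Nm.Eqv x y c h k := by
  cases x with
  | mk ι₁ e₁ d₁ f₁ t₁ x₁ =>
    cases y with
    | mk ι₂ e₂ d₂ f₂ t₂ x₂ =>
      simp only [Nm.Eqv]
      constructor
      · intro i c' g l hl
        have h1 := (H c' g _ (x₁ i) (l ≫ t₁ i)).1 (n7_self ι₁ e₁ d₁ f₁ t₁ x₁ i l hl)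
        simp only [Nm.Mem] at h1
        obtain ⟨c'', g', j, l', hl', E⟩ := h1 c' (𝟙 c')
        refine ⟨c'', g', j, l', ?_, ?_⟩
        · rw [hl', Category.id_comp]
        · rwa [Category.id_comp] at E
      · intro j c' g l hl
        have h1 := (H c' g _ (x₂ j) (l ≫ t₂ j)).2 (n7_self ι₂ e₂ d₂ f₂ t₂ x₂ j l hl)
        simp only [Nm.Mem] at h1
        obtain ⟨c'', g', i, l', hl', E⟩ := h1 c' (𝟙 c')
        refine ⟨c'', g', i, l', ?_, ?_⟩
        · rw [hl', Category.id_comp]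
        · rw [Category.id_comp] at E
          exact E.symm
-- END N7

variable (C) in
/-- elements at the stage `c`: formal restrictions of names -/
def NmEl (c : C) : Type 2 := Σ d : C, (c ⟶ d) × Nm d

/-- the name of a small family -/
def NmEl.set {c : C} (F : Fam (NmEl C) c) : NmEl C c :=
  ⟨c, 𝟙 c, Nm.mk F.ι F.obj (fun i => (F.el i).1) F.hom (fun i => (F.el i).2.1)
    (fun i => (F.el i).2.2)⟩

-- BEGIN N7a
/-- (task N7a) membership is preserved by restriction -/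
theorem Nm.Mem.mono {a b : C} {x : Nm a} {y : Nm b} {c : C} {h : c ⟶ a} {k : c ⟶ b}
    (H : Nm.Mem x y c h k) {d : C} (g : d ⟶ c) : Nm.Mem x y d (g ≫ h) (g ≫ k) := by
  cases y with
  | mk ι e d f t y =>
    simp only [Nm.Mem] at H ⊢
    intro c' g₁
    obtain ⟨c'', g', i, l, hl, E⟩ := H c' (g₁ ≫ g)
    refine ⟨c'', g', i, l, ?_, ?_⟩
    · rw [hl, Category.assoc]
    · rwa [Category.assoc] at E
-- END N7a

-- BEGIN N7b
/-- (task N7b) membership is local -/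
theorem Nm.Mem.local {a b : C} {x : Nm a} {y : Nm b} {c : C} {h : c ⟶ a} {k : c ⟶ b}
    (H : ∀ (d : C) (f : d ⟶ c), ∃ (e : C) (g : e ⟶ d), Nm.Mem x y e (g ≫ f ≫ h) (g ≫ f ≫ k)) :
    Nm.Mem x y c h k := by
  cases y with
  | mk ι e d f t y =>
    simp only [Nm.Mem] at H ⊢
    intro c' g₁
    obtain ⟨e₂, g₂, M⟩ := H c' g₁
    obtain ⟨c'', g₃, i, l, hl, E⟩ := M e₂ (𝟙 e₂)
    refine ⟨c'', g₃ ≫ g₂, i, l, ?_, ?_⟩
    · rw [hl, Category.id_comp, Category.assoc]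
    · rw [Category.id_comp] at E
      rwa [Category.assoc]
-- END N7b

-- BEGIN N8
/-- (task N8) membership in the name of a family -/
theorem NmEl.mem_set {c : C} (F : Fam (NmEl C) c) {d : C} (g : d ⟶ c) (y : NmEl C d) :
    Nm.Mem y.2.2 (NmEl.set F).2.2 d y.2.1 (g ≫ (NmEl.set F).2.1) ↔
      Dn (fun e (m : e ⟶ d) => ∃ (i : F.ι) (l : e ⟶ F.obj i),
        l ≫ F.hom i = m ≫ g ∧
          Nm.Eqv y.2.2 (F.el i).2.2 e (m ≫ y.2.1) (l ≫ (F.el i).2.1)) := by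
  simp only [NmEl.set, Nm.Mem, Dn, Category.comp_id, Category.assoc]
-- END N8

-- BEGIN N9
/-- (task N9) every name is a small family -/
theorem NmEl.small {c : C} (A : NmEl C c) :
    ∃ F : Fam (NmEl C) c, Nm.Eqv A.2.2 (NmEl.set F).2.2 c A.2.1 (NmEl.set F).2.1 := by
  obtain ⟨a, h, n⟩ := A
  cases n with
  | mk ι e d f t x =>
    refine ⟨⟨Σ i : ι, Σ e' : C, {p : (e' ⟶ c) × (e' ⟶ e i) // p.2 ≫ f i = p.1 ≫ h},
      fun q => q.2.1, fun q => q.2.2.1.1, fun q => ⟨d q.1, q.2.2.1.2 ≫ t q.1, x q.1⟩⟩, ?_⟩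
    simp only [NmEl.set, Nm.Eqv]
    constructor
    · intro i c' g l hl
      refine ⟨c', 𝟙 c', ⟨i, c', ⟨(g, l), hl⟩⟩, 𝟙 c', ?_, ?_⟩
      · simp only [Category.id_comp, Category.comp_id]
      · exact Nm.Eqv.refl _ _ _
    · rintro ⟨i, e', ⟨⟨p1, p2⟩, hp⟩⟩ c' g l hl
      simp only [Category.comp_id] at hp hl
      refine ⟨c', 𝟙 c', i, l ≫ p2, ?_, ?_⟩
      · rw [Category.assoc, hp, ← Category.assoc, hl, Category.id_comp]
      · have := Nm.Eqv.refl (x i) c' (l ≫ p2 ≫ t i)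
        simpa only [Category.id_comp, Category.assoc] using this
-- END N9

-- BEGIN N10
/-- (task N10) induction -/
theorem NmEl.ind (Φ : ∀ c : C, NmEl C c → Prop)
    (hcongr : ∀ (c : C) (x y : NmEl C c), Nm.Eqv x.2.2 y.2.2 c x.2.1 y.2.1 → Φ c x → Φ c y)
    (hloc : ∀ (c : C) (x : NmEl C c),
      Dn (fun d (f : d ⟶ c) => Φ d ⟨x.1, f ≫ x.2.1, x.2.2⟩) → Φ c x)
    (hstep : ∀ (c : C) (x : NmEl C c), (∀ (d : C) (g : d ⟶ c) (y : NmEl C d),
      Nm.Mem y.2.2 x.2.2 d y.2.1 (g ≫ x.2.1) → Φ d y) → Φ c x)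
    (c : C) (x : NmEl C c) : Φ c x := by
  have key : ∀ {a : C} (n : Nm a) (c : C) (h : c ⟶ a), Φ c ⟨a, h, n⟩ := by
    intro a n
    induction n with
    | mk ι e d f t x ih =>
      intro c h
      apply hstep
      intro d₁ g y hy
      apply hloc
      intro d₂ f₂
      simp only [Nm.Mem] at hy
      obtain ⟨c'', g', i, l, hl, E⟩ := hy d₂ f₂
      refine ⟨c'', g', hcongr c'' ⟨d i, l ≫ t i, x i⟩ _ ?_ (ih i c'' (l ≫ t i))⟩
      have := E.symm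
      simpa only [Category.assoc] using this
  obtain ⟨a, h, n⟩ := x
  exact key n c h
-- END N10

variable (C) in
/-- the forcing universe of names over the category `C` -/
noncomputable def names : FU C where
  El := NmEl C
  res f x := ⟨x.1, f ≫ x.2.1, x.2.2⟩
  res_id x := by
    obtain ⟨d, f, x⟩ := x
    simp only [Category.id_comp]
    try rfl
  res_comp g f x := by
    obtain ⟨d, h, x⟩ := x
    simp only [Category.assoc]
    try rfl
  eq {c} x y := Nm.Eqv x.2.2 y.2.2 c x.2.1 y.2.1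
  mem {c} x y := Nm.Mem x.2.2 y.2.2 c x.2.1 y.2.1
  eq_refl x := Nm.Eqv.refl _ _ _
  eq_symm H := H.symm
  eq_trans H K := H.trans K
  eq_res f _ _ H := H.mono f
  eq_loc {c x y} H := Nm.Eqv.local (fun d f => by
    obtain ⟨e, g, h⟩ := H d f
    exact ⟨e, g, by simpa using h⟩)
  mem_res f _ _ H := H.mono f
  mem_loc {c x y} H := Nm.Mem.local (fun d f => by
    obtain ⟨e, g, h⟩ := H d f
    exact ⟨e, g, by simpa using h⟩)
  mem_congr hx hy H := Nm.Mem.congr hx hy H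
  ext {c x y} H := Nm.Eqv.ext (fun d g e z l => H d g ⟨e, l, z⟩)
  set := NmEl.set
  mem_set := NmEl.mem_set
  small := NmEl.small
  ind := NmEl.ind

end Pool.Agent.Lib.ZFM
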