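import Pool.Agent.Lib.MP_96875a_lc.Mg.G002
import Pool.Agent.Lib.MP_96875a_lc.Names

/-!
The main theorem.
-/

open CategoryTheory

namespace Pool.Agent.Lib.ZFM

theorem main : ∃ (M : Type) (E : M → M → Prop), IsZF E ∧ WFis4 E ∧ ¬ AC E := by
  obtain ⟨M, E, hZF, H⟩ := (names CP).exists_zf_model CP.Coh
  obtain ⟨x₀⟩ := hZF.nonempty
  refine ⟨M, E, hZF, ?_, ?_⟩
  · rw [← sat_wf E (fun _ => x₀)]
    exact H _ ((names CP).forces_wf fun c w A F h => FU.concl_of_chain _ h) _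
  · rw [← sat_ac E (fun _ => x₀), ← sat_neg]
    exact H _ (CP.forces_neg_ac (names CP)) _

end Pool.Agent.Lib.ZFM
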