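import Pool.Agent.Lib.MP_96875a_lc.Basic

/-!
Decreasing sequences of subsets of a well-ordered set of the ground model: after some stage and
some index, each set is a (forced) surjective image of the next one.
-/

open CategoryTheory

namespace Pool.Agent.Lib.ZFM

universe u

variable {C : Type 1} [Category.{0} C] {c : C}

/-- a monotone and local predicate over the stage `c` on the ground model type `J` -/
structure LP (c : C) (J : Type*) where
  P : ∀ d : C, (d ⟶ c) → J → Prop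
  mono : ∀ {d e : C} (f : d ⟶ c) (g : e ⟶ d) (j : J), P d f j → P e (g ≫ f) j
  loc : ∀ {d : C} (f : d ⟶ c) (j : J), Dn (fun e (g : e ⟶ d) => P e (g ≫ f) j) → P d f j

/-- restriction of a predicate to a further stage -/
def LP.res {J : Type*} (X : LP c J) {d : C} (f : d ⟶ c) : LP d J where
  P e g j := X.P e (g ≫ f) j
  mono g h j H := by simpa using X.mono (g ≫ f) h j H
  loc g j H := X.loc (g ≫ f) j (by simpa using H)

section Rank

variable {J : Type 1} [LinearOrder J] [WellFoundedLT J]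

/-- `β` is forced to be the order type of `{i ∈ X | i < j}` -/
def Rk {J : Type 1} [LinearOrder J] [WellFoundedLT J] (X : LP c J) (j : J) (β : Ordinal.{1}) : ∀ d : C, (d ⟶ c) → Prop := fun d f =>
  (∀ (e : C) (g : e ⟶ d) (i : J), (hi : i < j) → X.P e (g ≫ f) i →
    Dn (fun e' (g' : e' ⟶ e) => ∃ α < β, Rk X i α e' (g' ≫ g ≫ f))) ∧
  (∀ α < β, Dn (fun e (g : e ⟶ d) => ∃ (i : J) (_ : i < j), X.P e (g ≫ f) i ∧ Rk X i α e (g ≫ f)))
termination_by WellFounded.wrap (wellFounded_lt (α := J)) j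
decreasing_by all_goals assumption

variable (X : LP c J)

-- BEGIN O1
/-- (task O1) monotone and local -/
theorem Rk.mono {j : J} {β : Ordinal.{1}} {d : C} {f : d ⟶ c} (h : Rk X j β d f) {e : C}
    (g : e ⟶ d) : Rk X j β e (g ≫ f) := by
  rw [Rk] at h ⊢
  refine ⟨fun e₁ g₁ i hi hX => ?_, fun α hα => ?_⟩
  · have h1 := h.1 e₁ (g₁ ≫ g) i hi (by rw [Category.assoc]; exact hX)
    simpa only [Category.assoc] using h1
  · have h1 := (h.2 α hα).res g
    simpa only [Category.assoc] using h1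

theorem Rk.loc {j : J} {β : Ordinal.{1}} {d : C} {f : d ⟶ c}
    (h : Dn (fun e (g : e ⟶ d) => Rk X j β e (g ≫ f))) : Rk X j β d f := by
  rw [Rk]
  refine ⟨fun e g i hi hX => ?_, fun α hα => ?_⟩
  · refine Dn.join ((h.res g).imp fun e₁ g₁ h1 => ?_)
    rw [Rk] at h1
    have h2 := h1.1 e₁ (𝟙 e₁) i hi (by
      rw [Category.id_comp, Category.assoc]
      exact X.mono (g ≫ f) g₁ i hX)
    simpa only [Category.id_comp, Category.assoc] using h2
  · refine Dn.join (h.imp fun e₁ g₁ h1 => ?_)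
    rw [Rk] at h1
    have h2 := h1.2 α hα
    simpa only [Category.assoc] using h2
-- END O1

-- BEGIN O2
theorem Rk.O2_not_lt : ∀ (j : J) (β β' : Ordinal.{1}) (d : C) (f : d ⟶ c), Rk X j β d f →
    Rk X j β' d f → ¬ β < β' := by
  intro j
  induction j using WellFoundedLT.induction with
  | ind j ih =>
    intro β β' d f h h' hlt
    rw [Rk] at h h'
    obtain ⟨e, g, i, hi, hX, hR⟩ := h'.2 β hlt d (𝟙 d)
    obtain ⟨e', g', α, hα, hR'⟩ := h.1 e (g ≫ 𝟙 d) i hi hX e (𝟙 e)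
    have hR2 := Rk.mono X hR (g' ≫ 𝟙 e)
    exact ih i hi α β e' _ hR' hR2 hα

/-- (task O2) the rank is unique -/
theorem Rk.unique {j : J} {β β' : Ordinal.{1}} {d : C} {f : d ⟶ c} (h : Rk X j β d f)
    (h' : Rk X j β' d f) : β = β' :=
  le_antisymm (not_lt.1 (Rk.O2_not_lt X j β' β d f h' h)) (not_lt.1 (Rk.O2_not_lt X j β β' d f h h'))
-- END O2

-- BEGIN O3
/-- (task O3) the rank is strictly monotone, hence injective, on `X` -/
theorem Rk.lt {i j : J} {α β : Ordinal.{1}} {d : C} {f : d ⟶ c} (hij : i < j) (hi : X.P d f i)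
    (h : Rk X i α d f) (h' : Rk X j β d f) : α < β := by
  rw [Rk] at h'
  have h1 := h'.1 d (𝟙 d) i hij (by rw [Category.id_comp]; exact hi)
  obtain ⟨e, g, α', hα', h2⟩ := h1 d (𝟙 d)
  have h3 := Rk.mono X h (g ≫ 𝟙 d)
  rw [Category.id_comp] at h2
  have h4 := Rk.unique X h3 h2
  rw [h4]
  exact hα'

theorem Rk.inj {i j : J} {β : Ordinal.{1}} {d : C} {f : d ⟶ c} (hi : X.P d f i) (hj : X.P d f j)
    (h : Rk X i β d f) (h' : Rk X j β d f) : i = j := by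
  rcases lt_trichotomy i j with hij | hij | hij
  · exact absurd (Rk.lt X hij hi h h') (lt_irrefl _)
  · exact hij
  · exact absurd (Rk.lt X hij hj h' h) (lt_irrefl _)
-- END O3

-- BEGIN O4
theorem Rk.O4_aux : ∀ (j : J) (β : Ordinal.{1}) (d : C) (f : d ⟶ c), Rk X j β d f →
    β ≤ Ordinal.typein (· < · : J → J → Prop) j := by
  intro j
  induction j using WellFoundedLT.induction with
  | ind j ih =>
    intro β d f h
    rw [Rk] at h
    refine le_of_forall_lt fun α hα => ?_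
    obtain ⟨e, g, i, hi, -, hR⟩ := h.2 α hα d (𝟙 d)
    exact lt_of_le_of_lt (ih i hi α e _ hR) ((Ordinal.typein_lt_typein (· < ·)).2 hi)

/-- (task O4) the rank is bounded by the type of the initial segment -/
theorem Rk.le_typein {j : J} {β : Ordinal.{1}} {d : C} {f : d ⟶ c} (h : Rk X j β d f) :
    β ≤ Ordinal.typein (· < · : J → J → Prop) j :=
  Rk.O4_aux X j β d f h
-- END O4

-- BEGIN O5
/-- (task O5) the rank exists densely -/
theorem exists_rk (j : J) (d : C) (f : d ⟶ c) :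
    ∃ (e : C) (g : e ⟶ d) (β : Ordinal.{1}), Rk X j β e (g ≫ f) := by
  induction j using WellFoundedLT.induction generalizing d f with
  | ind j ih =>
    let S : Set Ordinal.{1} := {β | ∃ (e : C) (g : e ⟶ d), ∀ (e1 : C) (g1 : e1 ⟶ e) (i : J),
      i < j → X.P e1 (g1 ≫ g ≫ f) i →
      Dn (fun e' (g' : e' ⟶ e1) => ∃ α < β, Rk X i α e' (g' ≫ g1 ≫ g ≫ f))}
    have hS : S.Nonempty := by
      refine ⟨Ordinal.typein (· < · : J → J → Prop) j, d, 𝟙 d, ?_⟩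
      intro e1 g1 i hi _ e2 g2
      obtain ⟨e3, g3, α, hα⟩ := ih i hi e2 (g2 ≫ g1 ≫ 𝟙 d ≫ f)
      refine ⟨e3, g3, α, lt_of_le_of_lt (Rk.le_typein X hα) ?_, by simpa using hα⟩
      exact (Ordinal.typein_lt_typein (· < · : J → J → Prop)).2 hi
    obtain ⟨e, g, hg⟩ := csInf_mem hS
    refine ⟨e, g, sInf S, ?_⟩
    rw [Rk]
    refine ⟨fun e1 g1 i hi hX => hg e1 g1 i hi hX, ?_⟩
    intro α hα
    by_contra hcon
    have hcon' : ∃ (e1 : C) (g1 : e1 ⟶ e), ∀ (e2 : C) (g2 : e2 ⟶ e1),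
        ¬ ∃ (i : J) (_ : i < j), X.P e2 ((g2 ≫ g1) ≫ g ≫ f) i ∧
          Rk X i α e2 ((g2 ≫ g1) ≫ g ≫ f) := by
      by_contra h
      push Not at h
      apply hcon
      intro e1 g1
      obtain ⟨e2, g2, i, hi, h1, h2⟩ := h e1 g1
      exact ⟨e2, g2, i, hi, h1, h2⟩
    obtain ⟨e1, g1, H⟩ := hcon'
    have hmem : α ∈ S := by
      refine ⟨e1, g1 ≫ g, ?_⟩
      intro e2 g2 i hi hX e3 g3
      have hX' : X.P e2 ((g2 ≫ g1) ≫ g ≫ f) i := by simpa using hX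
      obtain ⟨e4, g4, α', hα', hR⟩ := hg e2 (g2 ≫ g1) i hi hX' e3 g3
      have hX4 : X.P e4 ((g4 ≫ g3) ≫ (g2 ≫ g1) ≫ g ≫ f) i := X.mono _ _ _ hX'
      refine ⟨e4, g4, α', ?_, by simpa using hR⟩
      rcases lt_trichotomy α' α with h | h | h
      · exact h
      · exfalso
        subst h
        refine H e4 ((g4 ≫ g3) ≫ g2) ⟨i, hi, ?_, ?_⟩
        · simpa using hX4
        · simpa using hR
      · exfalso
        have hR' := hR
        rw [Rk] at hR'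
        obtain ⟨e5, g5, i', hi', h1, h2⟩ := hR'.2 α h e4 (𝟙 e4)
        refine H e5 (g5 ≫ (g4 ≫ g3) ≫ g2) ⟨i', hi'.trans hi, ?_, ?_⟩
        · simpa using h1
        · simpa using h2
    exact absurd (csInf_le' hmem) (not_le.2 hα)
-- END O5

-- BEGIN O6
theorem Rk.O6_aux {X Y : LP c J}
    (hXY : ∀ (d : C) (f : d ⟶ c) (j : J), X.P d f j → Y.P d f j) :
    ∀ (j : J) (β β' : Ordinal.{1}) (d : C) (f : d ⟶ c), Rk X j β d f → Rk Y j β' d f →
      β ≤ β' := by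
  intro j
  induction j using WellFoundedLT.induction with
  | ind j ih =>
    intro β β' d f h h'
    rw [Rk] at h h'
    refine le_of_forall_lt fun α hα => ?_
    obtain ⟨e, g, i, hi, hX, hR⟩ := h.2 α hα d (𝟙 d)
    obtain ⟨e', g', α', hα', hR'⟩ := h'.1 e (g ≫ 𝟙 d) i hi (hXY _ _ _ hX) e (𝟙 e)
    exact lt_of_le_of_lt (ih i hi α α' e' _ (Rk.mono X hR (g' ≫ 𝟙 e)) hR') hα'

/-- (task O6) ranks in a smaller set are smaller -/
theorem Rk.le_of_subset {X Y : LP c J} (hXY : ∀ (d : C) (f : d ⟶ c) (j : J), X.P d f j → Y.P d f j)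
    {j : J} {β β' : Ordinal.{1}} {d : C} {f : d ⟶ c} (h : Rk X j β d f) (h' : Rk Y j β' d f) :
    β ≤ β' :=
  Rk.O6_aux hXY j β β' d f h h'
-- END O6

end Rank

/-- `Ψ` is a functional relation from (a part of) `X` onto `Y`, over the stage `c` -/
structure Onto {J : Type*} (X Y : LP c J) (Ψ : ∀ d : C, (d ⟶ c) → J → J → Prop) : Prop where
  mono : ∀ {d e : C} (f : d ⟶ c) (g : e ⟶ d) (i j : J), Ψ d f i j → Ψ e (g ≫ f) i j
  loc : ∀ {d : C} (f : d ⟶ c) (i j : J), Dn (fun e (g : e ⟶ d) => Ψ e (g ≫ f) i j) → Ψ d f i j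
  dom : ∀ {d : C} (f : d ⟶ c) (i j : J), Ψ d f i j → X.P d f i
  cod : ∀ {d : C} (f : d ⟶ c) (i j : J), Ψ d f i j → Y.P d f j
  unique : ∀ {d : C} (f : d ⟶ c) (i j j' : J), Ψ d f i j → Ψ d f i j' → j = j'
  onto : ∀ {d : C} (f : d ⟶ c) (j : J), Y.P d f j → Dn (fun e (g : e ⟶ d) => ∃ i, Ψ e (g ≫ f) i j)

-- BEGIN O7
/-- (task O7) stabilisation for a well-ordered type with a top element which does not matter -/
theorem exists_stable_aux {J : Type 1} [LinearOrder J] [WellFoundedLT J] [OrderTop J]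
    (X : ℕ → LP c J) (hX : ∀ n (d : C) (f : d ⟶ c) j, (X (n + 1)).P d f j → (X n).P d f j)
    (htop : ∀ n (d : C) (f : d ⟶ c), ¬ (X n).P d f ⊤) (n₀ : ℕ) :
    ∃ (d : C) (g : d ⟶ c) (n : ℕ), n₀ ≤ n ∧ ∀ m ≥ n, ∀ (e : C) (h : e ⟶ d),
      ∃ Ψ : ∀ e' : C, (e' ⟶ e) → J → J → Prop,
        Onto ((X (m + 1)).res (h ≫ g)) ((X m).res (h ≫ g)) Ψ := by
  have hXle : ∀ n m, n ≤ m → ∀ (d : C) (f : d ⟶ c) j, (X m).P d f j → (X n).P d f j := by
    intro n m hnm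
    induction m, hnm using Nat.le_induction with
    | base => exact fun _ _ _ h => h
    | succ m _ ih => exact fun d f j h => ih d f j (hX m d f j h)
  let S : Set Ordinal.{1} := {β | ∃ (d : C) (g : d ⟶ c) (n : ℕ), n₀ ≤ n ∧ Rk (X n) ⊤ β d g}
  have hS : S.Nonempty := by
    obtain ⟨e, g, β, hβ⟩ := exists_rk (X n₀) ⊤ c (𝟙 c)
    exact ⟨β, e, g ≫ 𝟙 c, n₀, le_rfl, hβ⟩
  obtain ⟨d, g, n, hn, hβ⟩ := csInf_mem hS
  have key : ∀ m ≥ n, Rk (X m) ⊤ (sInf S) d g := by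
    intro m hm
    apply Rk.loc
    intro e h
    obtain ⟨e', g', β', hβ'⟩ := exists_rk (X m) ⊤ e (h ≫ g)
    have h1 : Rk (X n) ⊤ (sInf S) e' (g' ≫ h ≫ g) := by
      have := Rk.mono (X n) hβ (g' ≫ h)
      simpa using this
    have h2 : β' ≤ sInf S := Rk.le_of_subset (hXle n m hm) hβ' h1
    have h3 : sInf S ≤ β' := csInf_le' ⟨e', _, m, hn.trans hm, hβ'⟩
    have h4 : β' = sInf S := le_antisymm h2 h3
    subst h4
    exact ⟨e', g', by simpa using hβ'⟩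
  refine ⟨d, g, n, hn, fun m hm e h => ?_⟩
  refine ⟨fun e' u i j => (X (m + 1)).P e' (u ≫ h ≫ g) i ∧ (X m).P e' (u ≫ h ≫ g) j ∧
    Dn (fun e'' (v : e'' ⟶ e') => ∃ α, Rk (X (m + 1)) i α e'' (v ≫ u ≫ h ≫ g) ∧
      Rk (X m) j α e'' (v ≫ u ≫ h ≫ g)), ?_, ?_, ?_, ?_, ?_, ?_⟩
  · rintro d' e' f' g' i j ⟨h1, h2, h3⟩
    refine ⟨?_, ?_, ?_⟩
    · simpa using (X (m + 1)).mono _ g' i h1
    · simpa using (X m).mono _ g' j h2
    · simpa using h3.res g'
  · intro d' f' i j H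
    refine ⟨?_, ?_, ?_⟩
    · exact (X (m + 1)).loc _ i (H.imp fun e' g' h' => by simpa using h'.1)
    · exact (X m).loc _ j (H.imp fun e' g' h' => by simpa using h'.2.1)
    · exact Dn.join (H.imp fun e' g' h' => by simpa using h'.2.2)
  · rintro d' f' i j ⟨h1, -, -⟩
    exact h1
  · rintro d' f' i j ⟨-, h1, -⟩
    exact h1
  · rintro d' f' i j j' ⟨-, hj, h3⟩ ⟨-, hj', h3'⟩
    obtain ⟨e1, g1, α, ha, hb⟩ := h3 d' (𝟙 d')
    obtain ⟨e2, g2, α', ha', hb'⟩ := h3' e1 (g1 ≫ 𝟙 d')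
    have ha2 := Rk.mono _ ha g2
    have hb2 := Rk.mono _ hb g2
    have ha3 : Rk (X (m + 1)) i α e2 ((g2 ≫ g1 ≫ 𝟙 d') ≫ f' ≫ h ≫ g) := by simpa using ha2
    have hb3 : Rk (X m) j α e2 ((g2 ≫ g1 ≫ 𝟙 d') ≫ f' ≫ h ≫ g) := by simpa using hb2
    have hαα : α = α' := Rk.unique _ ha3 ha'
    subst hαα
    exact Rk.inj (X m) ((X m).mono _ _ _ hj) ((X m).mono _ _ _ hj') hb3 hb'
  · intro d' f' j hj d2 g2
    have hj0 : (X m).P d' (f' ≫ h ≫ g) j := hj
    obtain ⟨d3, g3, α, hα⟩ := exists_rk (X m) j d2 (g2 ≫ f' ≫ h ≫ g)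
    have hjt : j < ⊤ := lt_top_iff_ne_top.2 (fun h' => htop m d' (f' ≫ h ≫ g) (h' ▸ hj0))
    have hj3 : (X m).P d3 (g3 ≫ g2 ≫ f' ≫ h ≫ g) j := by
      have := (X m).mono _ (g3 ≫ g2) j hj0
      simpa using this
    have ht3 : Rk (X m) ⊤ (sInf S) d3 (g3 ≫ g2 ≫ f' ≫ h ≫ g) := by
      have := Rk.mono _ (key m hm) (g3 ≫ g2 ≫ f' ≫ h)
      simpa using this
    have hlt : α < sInf S := Rk.lt (X m) hjt hj3 hα ht3
    have hk := key (m + 1) (hm.trans (Nat.le_succ m))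
    rw [Rk] at hk
    obtain ⟨d4, g4, i, hi, h1, h2⟩ := hk.2 α hlt d3 (g3 ≫ g2 ≫ f' ≫ h)
    have hα4 := Rk.mono _ hα g4
    refine ⟨d4, g4 ≫ g3, i, ?_, ?_, ?_⟩
    · simpa using h1
    · simpa using (X m).mono _ g4 j hj3
    · intro d5 g5
      refine ⟨d5, 𝟙 d5, α, ?_, ?_⟩
      · simpa using Rk.mono _ h2 g5
      · simpa using Rk.mono _ hα4 g5
-- END O7

-- BEGIN O8
/-- (task O8) the predicate transported to `WithTop J` -/
def O8_top {J : Type 1} (X : LP c J) : LP c (WithTop J) where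
  P d f j := ∃ i : J, j = (i : WithTop J) ∧ X.P d f i
  mono := by
    rintro d e f g j ⟨i, rfl, hi⟩
    exact ⟨i, rfl, X.mono f g i hi⟩
  loc := by
    intro d f j H
    obtain ⟨e, g, i, rfl, hi⟩ := H d (𝟙 d)
    refine ⟨i, rfl, X.loc f i fun e g => ?_⟩
    obtain ⟨e', g', i', hi', h'⟩ := H e g
    rw [WithTop.coe_inj] at hi'
    subst hi'
    exact ⟨e', g', h'⟩

/-- (task O8) stabilisation of a decreasing sequence of subsets of a ground model type -/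
theorem exists_stable {J : Type 1} (X : ℕ → LP c J)
    (hX : ∀ n (d : C) (f : d ⟶ c) j, (X (n + 1)).P d f j → (X n).P d f j) (n₀ : ℕ) :
    ∃ (d : C) (g : d ⟶ c) (n : ℕ), n₀ ≤ n ∧ ∀ m ≥ n, ∀ (e : C) (h : e ⟶ d),
      ∃ Ψ : ∀ e' : C, (e' ⟶ e) → J → J → Prop,
        Onto ((X (m + 1)).res (h ≫ g)) ((X m).res (h ≫ g)) Ψ := by
  classical
  let _ : LinearOrder J := IsWellOrder.linearOrder (WellOrderingRel : J → J → Prop)
  have _ : WellFoundedLT J := ⟨(inferInstance : IsWellFounded J WellOrderingRel).wf⟩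
  obtain ⟨d, g, n, hn, H⟩ := exists_stable_aux (c := c) (J := WithTop J) (fun n => O8_top (X n))
    (by
      rintro n d f j ⟨i, rfl, hi⟩
      exact ⟨i, rfl, hX n d f i hi⟩)
    (by
      rintro n d f ⟨i, hi, -⟩
      exact WithTop.top_ne_coe hi) n₀
  refine ⟨d, g, n, hn, fun m hm e h => ?_⟩
  obtain ⟨Ψ, hΨ⟩ := H m hm e h
  refine ⟨fun e' g' i j => Ψ e' g' (i : WithTop J) (j : WithTop J), ?_⟩
  constructor
  · intro d e f g i j hh
    exact hΨ.mono f g _ _ hh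
  · intro d f i j hh
    exact hΨ.loc f _ _ hh
  · intro d f i j hh
    obtain ⟨i', hi', h'⟩ := hΨ.dom f _ _ hh
    rw [WithTop.coe_inj] at hi'
    subst hi'
    exact h'
  · intro d f i j hh
    obtain ⟨i', hi', h'⟩ := hΨ.cod f _ _ hh
    rw [WithTop.coe_inj] at hi'
    subst hi'
    exact h'
  · intro d f i j j' hh hh'
    exact WithTop.coe_inj.1 (hΨ.unique f _ _ _ hh hh')
  · intro d f j hj e g
    obtain ⟨e', g', i, hi⟩ := hΨ.onto f (j : WithTop J) ⟨j, rfl, hj⟩ e g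
    obtain ⟨i', hi', -⟩ := hΨ.dom _ _ _ hi
    subst hi'
    exact ⟨e', g', i', hi⟩
-- END O8

-- BEGIN O9
theorem o9_res_res {J : Type*} (X : LP c J) {d e : C} (f : d ⟶ c) (g : e ⟶ d) :
    (X.res f).res g = X.res (g ≫ f) := by
  unfold LP.res
  congr 1
  funext e' h j
  show X.P e' ((h ≫ g) ≫ f) j = X.P e' (h ≫ g ≫ f) j
  rw [Category.assoc]

/-- (task O9) simultaneous stabilisation of two decreasing sequences -/
theorem exists_stable₂ {J J' : Type 1} (X : ℕ → LP c J) (Y : ℕ → LP c J')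
    (hX : ∀ n (d : C) (f : d ⟶ c) j, (X (n + 1)).P d f j → (X n).P d f j)
    (hY : ∀ n (d : C) (f : d ⟶ c) j, (Y (n + 1)).P d f j → (Y n).P d f j) :
    ∃ (d : C) (g : d ⟶ c) (n : ℕ) (Ψ : ∀ e : C, (e ⟶ d) → J → J → Prop)
      (Ψ' : ∀ e : C, (e ⟶ d) → J' → J' → Prop),
        Onto ((X (n + 1)).res g) ((X n).res g) Ψ ∧ Onto ((Y (n + 1)).res g) ((Y n).res g) Ψ' := by
  obtain ⟨d₁, g₁, n₁, -, h₁⟩ := exists_stable X hX 0
  obtain ⟨d₂, g₂, n₂, hn, h₂⟩ := exists_stable (fun n => (Y n).res g₁)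
    (fun n d f j h => hY n d (f ≫ g₁) j h) n₁
  obtain ⟨Ψ, hΨ⟩ := h₁ n₂ hn d₂ g₂
  obtain ⟨Ψ', hΨ'⟩ := h₂ n₂ le_rfl d₂ (𝟙 d₂)
  refine ⟨d₂, g₂ ≫ g₁, n₂, Ψ, Ψ', hΨ, ?_⟩
  rw [Category.id_comp, o9_res_res, o9_res_res] at hΨ'
  exact hΨ'
-- END O9

end Pool.Agent.Lib.ZFM
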