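import Pool.Agent.Lib.MP_96875a_lc.Mg.G002
import Pool.Agent.Lib.MP_96875a_lc.Names

/-!
Forcing with a partial order: the universe of names over a poset satisfies `ZFC`; names of ground
model sets.
-/

open CategoryTheory

namespace Pool.Agent.Lib.ZFM

/-- the category of a preorder (`p ⟶ q` iff `p ≤ q`, that is, `p` is stronger than `q`) -/
def PCat (P : Type 1) : Type 1 := P

instance (P : Type 1) [Preorder P] : Category.{0} (PCat P) where
  Hom p q := PLift ((show P from p) ≤ (show P from q))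
  id p := ⟨le_rfl⟩
  comp f g := ⟨f.down.trans g.down⟩

theorem PCat.thin {P : Type 1} [Preorder P] {p q : PCat P} (f g : p ⟶ q) : f = g :=
  Subsingleton.elim (α := PLift ((show P from p) ≤ (show P from q))) f g

variable {C : Type 1} [Category.{0} C] (U : FU C)

-- BEGIN Q1
section q1

variable {U}

/-- the element `x` at the stage `e` is the `i`-th one, where `k = (i, j)`, and the stage is below
the `j`-th object of the family of this element -/
def Q1At {c : C} (F : Fam U.El c) (G : ∀ i, Fam U.El (F.obj i)) (k : Σ i, (G i).ι) {e : C}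
    (x : U.El e) : Prop :=
  ∃ l : e ⟶ (G k.1).obj k.2, U.eq x (U.res (l ≫ (G k.1).hom k.2) (F.el k.1))

/-- `k` is the first index -/
def Q1First {c : C} (F : Fam U.El c) (G : ∀ i, Fam U.El (F.obj i)) (k : Σ i, (G i).ι) {e : C}
    (x : U.El e) : Prop :=
  Q1At F G k x ∧ ∀ k', WellOrderingRel k' k → ∀ (e' : C) (g : e' ⟶ e), ¬ Q1At F G k' (U.res g x)

theorem q1_at_mono {c : C} {F : Fam U.El c} {G : ∀ i, Fam U.El (F.obj i)} {k : Σ i, (G i).ι}
    {e : C} {x : U.El e} (h : Q1At F G k x) {e' : C} (g : e' ⟶ e) : Q1At F G k (U.res g x) := by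
  obtain ⟨l, hl⟩ := h
  refine ⟨g ≫ l, ?_⟩
  rw [Category.assoc, U.res_comp]
  exact U.eq_res g hl

theorem q1_at_congr {c : C} {F : Fam U.El c} {G : ∀ i, Fam U.El (F.obj i)} {k : Σ i, (G i).ι}
    {e : C} {x x' : U.El e} (hx : U.eq x x') (h : Q1At F G k x) : Q1At F G k x' := by
  obtain ⟨l, hl⟩ := h
  exact ⟨l, U.eq_trans (U.eq_symm hx) hl⟩

theorem q1_first_mono {c : C} {F : Fam U.El c} {G : ∀ i, Fam U.El (F.obj i)} {k : Σ i, (G i).ι}
    {e : C} {x : U.El e} (h : Q1First F G k x) {e' : C} (g : e' ⟶ e) :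
    Q1First F G k (U.res g x) := by
  refine ⟨q1_at_mono h.1 g, ?_⟩
  intro k' hk' e'' g' h'
  rw [← U.res_comp] at h'
  exact h.2 k' hk' e'' (g' ≫ g) h'

theorem q1_first_congr {c : C} {F : Fam U.El c} {G : ∀ i, Fam U.El (F.obj i)} {k : Σ i, (G i).ι}
    {e : C} {x x' : U.El e} (hx : U.eq x x') (h : Q1First F G k x) : Q1First F G k x' := by
  refine ⟨q1_at_congr hx h.1, ?_⟩
  intro k' hk' e'' g' h'
  exact h.2 k' hk' e'' g' (q1_at_congr (U.eq_symm (U.eq_res g' hx)) h')

theorem q1_first_unique {c : C} {F : Fam U.El c} {G : ∀ i, Fam U.El (F.obj i)}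
    {k k' : Σ i, (G i).ι} {e : C} {x : U.El e} (h : Q1First F G k x) (h' : Q1First F G k' x) :
    k = k' := by
  rcases trichotomous_of WellOrderingRel k k' with h1 | h1 | h1
  · exact absurd (q1_at_mono h.1 (𝟙 e)) (h'.2 k h1 e (𝟙 e))
  · exact h1
  · exact absurd (q1_at_mono h'.1 (𝟙 e)) (h.2 k' h1 e (𝟙 e))

/-- the value at the stage `e` -/
def Q1V {c : C} (F : Fam U.El c) (G : ∀ i, Fam U.El (F.obj i)) {e : C} (x y : U.El e) : Prop :=
  ∃ k, Q1First F G k x ∧ ∃ l : e ⟶ (G k.1).obj k.2, U.eq y (U.res l ((G k.1).el k.2))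

theorem q1_v_mono {c : C} {F : Fam U.El c} {G : ∀ i, Fam U.El (F.obj i)} {e : C} {x y : U.El e}
    (h : Q1V F G x y) {e' : C} (g : e' ⟶ e) : Q1V F G (U.res g x) (U.res g y) := by
  obtain ⟨k, hk, l, hl⟩ := h
  refine ⟨k, q1_first_mono hk g, g ≫ l, ?_⟩
  rw [U.res_comp]
  exact U.eq_res g hl

theorem q1_v_congr {c : C} {F : Fam U.El c} {G : ∀ i, Fam U.El (F.obj i)} {e : C}
    {x x' y y' : U.El e} (hx : U.eq x x') (hy : U.eq y y') (h : Q1V F G x y) : Q1V F G x' y' := by
  obtain ⟨k, hk, l, hl⟩ := h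
  exact ⟨k, q1_first_congr hx hk, l, U.eq_trans (U.eq_symm hy) hl⟩

theorem q1_v_unique (hthin : ∀ {c d : C} (f g : c ⟶ d), f = g) {c : C} {F : Fam U.El c}
    {G : ∀ i, Fam U.El (F.obj i)} {e : C} {x y y' : U.El e}
    (h : Q1V F G x y) (h' : Q1V F G x y') : U.eq y y' := by
  obtain ⟨k, hk, l, hl⟩ := h
  obtain ⟨k', hk', l', hl'⟩ := h'
  have e1 := q1_first_unique hk hk'
  subst e1
  rw [hthin l' l] at hl'
  exact U.eq_trans hl (U.eq_symm hl')

/-- the choice relation -/
def Q1R {c : C} (F : Fam U.El c) (G : ∀ i, Fam U.El (F.obj i)) : Rl U c where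
  P _ _ x y := Dn (fun _ g => Q1V F G (U.res g x) (U.res g y))
  mono := by
    intro d e f g x y H
    refine (H.res g).imp ?_
    intro e' g' h
    rw [← U.res_comp, ← U.res_comp]
    exact h
  loc := by
    intro d f x y H
    refine Dn.join (H.imp ?_)
    intro e g h
    refine h.imp ?_
    intro e' g' h'
    rw [← U.res_comp, ← U.res_comp] at h'
    exact h'
  congr := by
    intro d f x x' y y' hx hy H
    exact H.imp fun e g h => q1_v_congr (U.eq_res g hx) (U.eq_res g hy) h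

theorem q1_R_iff {c : C} (F : Fam U.El c) (G : ∀ i, Fam U.El (F.obj i)) (d : C) (f : d ⟶ c)
    (x y : U.El d) : (Q1R F G).P d f x y ↔
      Dn (fun (e : C) (g : e ⟶ d) => Q1V F G (U.res g x) (U.res g y)) := Iff.rfl

end q1

/-- (task Q1) over a thin category every set of nonempty sets has a choice function -/
theorem FU.exists_choice (hthin : ∀ {c d : C} (f g : c ⟶ d), f = g) {c : C} (X : U.El c)
    (hX : ∀ (d : C) (g : d ⟶ c) (x : U.El d), U.mem x (U.res g X) →
      Dn (fun e (h : e ⟶ d) => ∃ y : U.El e, U.mem y (U.res h x))) :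
    ∃ f : U.El c, U.IsFunF f X ∧ ∀ (d : C) (g : d ⟶ c) (x y : U.El d), U.mem x (U.res g X) →
      U.Val (U.res g f) x y → U.mem y x := by
  obtain ⟨F, hF⟩ := U.small X
  choose G hG using fun i => U.small (F.el i)
  -- members of `X`
  have hmemX : ∀ (e : C) (m : e ⟶ c) (k : Σ i, (G i).ι) (x : U.El e), Q1At F G k x →
      U.mem x (U.res m X) := by
    rintro e m k x ⟨l, hl⟩
    refine U.eq_right (U.eq_res m (U.eq_symm hF)) ?_
    rw [U.mem_set]
    refine Dn.of_all fun e' m' => ⟨k.1, m' ≫ l ≫ (G k.1).hom k.2, hthin _ _, ?_⟩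
    rw [U.res_comp]
    exact U.eq_res m' hl
  -- the values are members
  have hval : ∀ (e : C) (x y : U.El e), Q1V F G x y → U.mem y x := by
    rintro e x y ⟨k, ⟨⟨l₁, hl₁⟩, _⟩, l, hl⟩
    have e1 : l₁ = l := hthin _ _
    subst e1
    have h1 : U.mem (U.res l₁ ((G k.1).el k.2)) (U.res (l₁ ≫ (G k.1).hom k.2) (U.set (G k.1))) := by
      rw [U.mem_set]
      refine Dn.of_all fun e' m' => ⟨k.2, m' ≫ l₁, Category.assoc _ _ _, ?_⟩
      rw [U.res_comp]
      exact U.eq_refl _
    refine U.mem_congr (U.eq_symm hl) ?_ h1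
    exact U.eq_trans (U.eq_res _ (U.eq_symm (hG k.1))) (U.eq_symm hl₁)
  obtain ⟨f, hf1, hf2⟩ := U.exists_graph X
    (U.set { ι := Σ i, (G i).ι
             obj := fun k => (G k.1).obj k.2
             hom := fun k => (G k.1).hom k.2 ≫ F.hom k.1
             el := fun k => (G k.1).el k.2 }) (Q1R F G)
    (by
      intro d g x y H
      rw [q1_R_iff] at H
      refine U.mem_loc (H.imp ?_)
      rintro e m ⟨k, hk, _⟩
      rw [← U.res_comp]
      exact hmemX e (m ≫ g) k _ hk.1)
    (by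
      intro d g x y H
      rw [q1_R_iff] at H
      rw [U.mem_set]
      refine H.imp ?_
      rintro e m ⟨k, hk, l, hl⟩
      exact ⟨k, l, hthin _ _, hl⟩)
  refine ⟨f, ⟨?_, ?_, ?_⟩, ?_⟩
  · intro d g p hp
    refine (hf2 d g p hp).imp ?_
    rintro e m ⟨x, y, hP, hO⟩
    refine ⟨x, y, ?_, hO⟩
    rw [q1_R_iff] at hP
    refine U.mem_loc (hP.imp ?_)
    rintro e' m' ⟨k, hk, _⟩
    rw [← U.res_comp]
    exact hmemX e' (m' ≫ m ≫ g) k _ hk.1
  · -- totality
    intro d g x hx
    intro d' h'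
    -- some index is attained below the stage
    have hne : ∃ k : Σ i, (G i).ι, ∃ (e : C) (m : e ⟶ d'), Q1At F G k (U.res (m ≫ h') x) := by
      have h1 : U.mem x (U.res g (U.set F)) := U.eq_right (U.eq_res g hF) hx
      rw [U.mem_set] at h1
      obtain ⟨e₁, m₁, i, l, hl, hxl⟩ := h1 d' h'
      obtain ⟨e₂, m₂, y, hy⟩ := hX d g x hx e₁ (m₁ ≫ h')
      -- `y` is a member of the `i`-th element
      have h2 : U.mem y (U.res (m₂ ≫ l) (U.set (G i))) := by
        refine U.eq_right ?_ hy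
        have h3 := U.eq_res m₂ hxl
        rw [← U.res_comp, ← U.res_comp] at h3
        exact U.eq_trans h3 (U.eq_res _ (hG i))
      rw [U.mem_set] at h2
      obtain ⟨e₃, m₃, j, l₃, hl₃, _⟩ := h2 e₂ (𝟙 e₂)
      refine ⟨⟨i, j⟩, e₃, m₃ ≫ m₂ ≫ m₁, l₃, ?_⟩
      have h4 := U.eq_res m₃ (U.eq_res m₂ hxl)
      simp only [← U.res_comp] at h4
      have e5 : (m₃ ≫ m₂ ≫ m₁) ≫ h' = m₃ ≫ m₂ ≫ m₁ ≫ h' := hthin _ _
      have e6 : l₃ ≫ (G i).hom j = m₃ ≫ m₂ ≫ l := hthin _ _
      rw [e5]
      change U.eq _ (U.res (l₃ ≫ (G i).hom j) (F.el i))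
      rw [e6]
      exact h4
    let S : Set (Σ i, (G i).ι) := {k | ∃ (e : C) (m : e ⟶ d'), Q1At F G k (U.res (m ≫ h') x)}
    have hwf : WellFounded (WellOrderingRel (α := Σ i, (G i).ι)) :=
      IsWellFounded.wf
    obtain ⟨k, ⟨e, m, hk⟩, hmin⟩ := hwf.has_min S hne
    obtain ⟨l, hl⟩ := hk
    refine ⟨e, m, U.res l ((G k.1).el k.2), ?_⟩
    rw [hf1, q1_R_iff]
    refine Dn.of_all fun e' m' => ⟨k, ⟨?_, ?_⟩, m' ≫ l, ?_⟩
    · exact q1_at_mono ⟨l, hl⟩ m'
    · intro k' hk' e'' g'' h''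
      refine hmin k' ⟨e'', g'' ≫ m' ≫ m, ?_⟩ hk'
      have e7 : (g'' ≫ m' ≫ m) ≫ h' = g'' ≫ m' ≫ m ≫ h' := hthin _ _
      rw [e7, U.res_comp, U.res_comp]
      exact h''
    · rw [U.res_comp]
      exact U.eq_refl _
  · intro d g x y y' _ h h'
    rw [hf1, q1_R_iff] at h h'
    have h1 := Dn.and (fun d f e g (H : Q1V F G (U.res f x) (U.res f y)) => by
      have := q1_v_mono H g
      rw [← U.res_comp, ← U.res_comp] at this
      exact this) h h'
    refine U.eq_loc (h1.imp ?_)
    rintro e m ⟨h2, h3⟩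
    exact q1_v_unique hthin h2 h3
  · intro d g x y _ h
    rw [hf1, q1_R_iff] at h
    exact U.mem_loc (h.imp fun e m h2 => hval e _ _ h2)
-- END Q1

-- BEGIN Q2
/-- (task Q2) the axiom of choice is forced over a thin category -/
theorem FU.forces_ac (hthin : ∀ {c d : C} (f g : c ⟶ d), f = g) (c : C) (v : ℕ → U.El c) :
    U.Forces .ac c v := by
  unfold Fml.ac
  intro d g X
  rw [FU.forces_imp]
  intro d1 g1 hyp
  rw [FU.forces_ex]
  refine Dn.of_all fun d2 g2 => ?_
  -- the hypothesis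
  have hX : ∀ (e : C) (h : e ⟶ d2) (x : U.El e), U.mem x (U.res h (U.res g2 (U.res g1 X))) →
      Dn (fun e' (h' : e' ⟶ e) => ∃ y : U.El e', U.mem y (U.res h' x)) := by
    intro e h x hx
    simp only [FU.forces_all, FU.forces_imp, FU.forces_ex, FU.forces_mem, FU.rs_update, FU.rs_rs,
      FU.rs_apply, Function.update_apply] at hyp
    simp at hyp
    have h1 := hyp e (h ≫ g2) x e (𝟙 e) (by
      simpa only [U.res_id, Category.id_comp, U.res_comp] using hx)
    simpa only [U.res_id, Category.comp_id] using h1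
  obtain ⟨f, hf1, hf2⟩ := U.exists_choice hthin (U.res g2 (U.res g1 X)) hX
  refine ⟨f, ?_⟩
  rw [FU.forces_and, U.forces_isFun (show 1 < 2 by omega) (show 0 < 2 by omega)]
  constructor
  · simpa [FU.rs_update, U.res_comp, Function.update_apply] using hf1
  · simp only [FU.forces_all, FU.forces_imp, FU.forces_mem, FU.rs_update, FU.rs_rs, FU.rs_apply,
      U.forces_val (show 1 < 4 by omega) (show 2 < 4 by omega) (show 3 < 4 by omega),
      Function.update_apply]
    simp
    intro e1 m1 x e2 m2 y e3 m3 hx e4 m4 hy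
    have h1 := hf2 e4 (m4 ≫ m3 ≫ m2 ≫ m1) (U.res (m4 ≫ m3 ≫ m2) x) (U.res (m4 ≫ m3) y) (by
      have := U.mem_res m4 hx
      simpa only [← U.res_comp, Category.assoc] using this) (by
      simpa only [← U.res_comp, Category.assoc] using hy)
    simpa only [← U.res_comp, Category.assoc] using h1
-- END Q2

/-- the model theorem for partial orders: a countable model of `ZFC` in which everything holds
that is forced by all conditions -/
theorem exists_zfc_model (P : Type 1) [Preorder P] (p₀ : P) :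
    ∃ (M : Type) (E : M → M → Prop), IsZF E ∧ AC E ∧
      ∀ φ : Fml, (∀ (p : PCat P) (v : ℕ → (names (PCat P)).El p), (names (PCat P)).Forces φ p v) →
        ∀ v : ℕ → M, Sat E φ v := by
  obtain ⟨M, E, hZF, H⟩ := (names (PCat P)).exists_zf_model (show PCat P from p₀)
  obtain ⟨x₀⟩ := hZF.nonempty
  exact ⟨M, E, hZF, (sat_ac E (fun _ => x₀)).1
    (H _ ((names (PCat P)).forces_ac fun f g => PCat.thin f g) _), H⟩

/-- the canonical name of a ground model set (`PSet.{1}` is the ground model) -/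
noncomputable def FU.chk (c : C) : PSet.{1} → U.El c
  | .mk α A => U.set ⟨α, fun _ => c, fun _ => 𝟙 c, fun i => FU.chk c (A i)⟩

-- BEGIN Q3
theorem q3_chk_mk (c : C) (α : Type 1) (A : α → PSet.{1}) :
    U.chk c (PSet.mk α A) = U.set ⟨α, fun _ => c, fun _ => 𝟙 c, fun i => U.chk c (A i)⟩ := rfl

theorem q3_mem {α : Type 1} {A : α → PSet.{1}}
    (hA : ∀ (i : α) (c d : C) (f : d ⟶ c), U.eq (U.res f (U.chk c (A i))) (U.chk d (A i)))
    (c d : C) (f : d ⟶ c) (y : U.El d) :
    U.mem y (U.res f (U.chk c (PSet.mk α A))) ↔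
      Dn (fun e (g : e ⟶ d) => ∃ i : α, U.eq (U.res g y) (U.chk e (A i))) := by
  rw [q3_chk_mk, U.mem_set]
  constructor
  · intro H
    refine H.imp ?_
    rintro e m ⟨i, l, hl, h⟩
    exact ⟨i, U.eq_trans h (hA i c e l)⟩
  · intro H
    refine H.imp ?_
    rintro e m ⟨i, h⟩
    refine ⟨i, m ≫ f, Category.comp_id _, ?_⟩
    exact U.eq_trans h (U.eq_symm (hA i c e (m ≫ f)))

theorem q3_res (x : PSet.{1}) : ∀ (c d : C) (f : d ⟶ c),
    U.eq (U.res f (U.chk c x)) (U.chk d x) := by
  induction x with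
  | mk α A ih =>
    intro c d f
    apply U.ext
    intro e g z
    rw [← U.res_comp, q3_mem U ih, q3_mem U ih]

/-- (task Q3) elements of a canonical name -/
theorem FU.mem_chk (c d : C) (f : d ⟶ c) (x : PSet.{1}) (y : U.El d) :
    U.mem y (U.res f (U.chk c x)) ↔
      Dn (fun e (g : e ⟶ d) => ∃ i : x.Type, U.eq (U.res g y) (U.chk e (x.Func i))) := by
  cases x with
  | mk α A => exact q3_mem U (fun i c d f => q3_res U (A i) c d f) c d f y

theorem FU.res_chk (c d : C) (f : d ⟶ c) (x : PSet.{1}) :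
    U.eq (U.res f (U.chk c x)) (U.chk d x) :=
  q3_res U x c d f
-- END Q3

-- BEGIN Q4
theorem q4_mem_self (c : C) (x : PSet.{1}) (i : x.Type) :
    U.mem (U.chk c (x.Func i)) (U.chk c x) := by
  have h := (U.mem_chk c c (𝟙 c) x (U.chk c (x.Func i))).2
    (Dn.of_all fun e g => ⟨i, by
      exact U.res_chk c e g (x.Func i)⟩)
  rwa [U.res_id] at h

theorem q4_exists (c : C) (x y : PSet.{1}) (h : U.mem (U.chk c x) (U.chk c y)) :
    ∃ (e : C) (i : y.Type), U.eq (U.chk e x) (U.chk e (y.Func i)) := by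
  have h1 := (U.mem_chk c c (𝟙 c) y (U.chk c x)).1 (by rwa [U.res_id])
  obtain ⟨e, g, i, hi⟩ := h1 c (𝟙 c)
  exact ⟨e, i, U.eq_trans (U.eq_symm (U.res_chk c e _ x)) hi⟩

theorem q4_eq (x : PSet.{1}) : ∀ (c : C) (y : PSet.{1}),
    U.eq (U.chk c x) (U.chk c y) ↔ x.Equiv y := by
  induction x with
  | mk α A ih =>
    intro c y
    constructor
    · intro h
      rw [PSet.equiv_iff]
      constructor
      · intro a
        have h1 : U.mem (U.chk c (A a)) (U.chk c y) := U.eq_right h (q4_mem_self U c (PSet.mk α A) a)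
        obtain ⟨e, j, hj⟩ := q4_exists U c _ _ h1
        exact ⟨j, (ih a e _).1 hj⟩
      · intro b
        have h1 : U.mem (U.chk c (y.Func b)) (U.chk c (PSet.mk α A)) :=
          U.eq_right (U.eq_symm h) (q4_mem_self U c y b)
        obtain ⟨e, i, hi⟩ := q4_exists U c _ _ h1
        exact ⟨i, (ih i e _).1 (U.eq_symm hi)⟩
    · intro h
      rw [PSet.equiv_iff] at h
      apply U.ext
      intro e g z
      rw [U.mem_chk, U.mem_chk]
      constructor
      · intro H
        refine H.imp ?_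
        rintro e' m ⟨i, hi⟩
        obtain ⟨j, hj⟩ := h.1 i
        exact ⟨j, U.eq_trans hi ((ih i e' _).2 hj)⟩
      · intro H
        refine H.imp ?_
        rintro e' m ⟨j, hj⟩
        obtain ⟨i, hi⟩ := h.2 j
        exact ⟨i, U.eq_trans hj (U.eq_symm ((ih i e' _).2 hi))⟩

/-- (task Q4) canonical names are equal (elements) iff the ground model sets are -/
theorem FU.chk_eq (c : C) (x y : PSet.{1}) : U.eq (U.chk c x) (U.chk c y) ↔ x.Equiv y :=
  q4_eq U x c y

theorem FU.chk_mem (c : C) (x y : PSet.{1}) : U.mem (U.chk c x) (U.chk c y) ↔ x ∈ y := by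
  constructor
  · intro h
    obtain ⟨e, i, hi⟩ := q4_exists U c x y h
    exact ⟨i, (U.chk_eq e _ _).1 hi⟩
  · rintro ⟨i, hi⟩
    exact U.eq_left (U.eq_symm ((U.chk_eq c x (y.Func i)).2 hi)) (q4_mem_self U c y i)
-- END Q4

/-- bounded formulas -/
inductive IsD0 : Fml → Prop
  | mem (i j : ℕ) : IsD0 (.mem i j)
  | eq (i j : ℕ) : IsD0 (.eq i j)
  | neg {φ : Fml} : IsD0 φ → IsD0 (.neg φ)
  | and {φ ψ : Fml} : IsD0 φ → IsD0 ψ → IsD0 (.and φ ψ)
  | all (i j : ℕ) (h : i ≠ j) {φ : Fml} : IsD0 φ → IsD0 (.all i (.imp (.mem i j) φ))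

-- BEGIN Q5
theorem q5_congr {φ : Fml} {c d : C} (f : d ⟶ c) (v : ℕ → PSet.{1}) :
    U.Forces φ d (U.rs f (fun n => U.chk c (v n))) ↔ U.Forces φ d (fun n => U.chk d (v n)) :=
  ⟨fun h => FU.Forces.congr U (fun n => U.res_chk c d f (v n)) h,
    fun h => FU.Forces.congr U (fun n => U.eq_symm (U.res_chk c d f (v n))) h⟩

/-- (task Q5) bounded formulas about ground model sets are absolute -/
theorem FU.forces_chk_iff {φ : Fml} (hφ : IsD0 φ) (c : C) (v : ℕ → PSet.{1}) :
    U.Forces φ c (fun n => U.chk c (v n)) ↔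
      Sat (fun x y : ZFSet.{1} => x ∈ y) φ (fun n => ZFSet.mk (v n)) := by
  induction hφ generalizing c v with
  | mem i j =>
    rw [FU.forces_mem, sat_mem, U.chk_mem]
    exact ZFSet.mk_mem_iff.symm
  | eq i j =>
    rw [FU.forces_eq, sat_eq, U.chk_eq]
    exact ZFSet.eq.symm
  | neg _ ih =>
    rw [FU.forces_neg, sat_neg]
    constructor
    · intro H h
      exact H c (𝟙 c) ((q5_congr U (𝟙 c) v).2 ((ih c v).2 h))
    · intro H d f h
      exact H ((ih d v).1 ((q5_congr U f v).1 h))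
  | and _ _ ih1 ih2 => rw [FU.forces_and, sat_and, ih1, ih2]
  | all i j hij hφ ih =>
    rename_i φ
    constructor
    · intro H
      rw [sat_all]
      intro x
      rw [sat_imp, sat_mem, Function.update_self, Function.update_of_ne hij.symm]
      intro hx
      revert hx
      refine Quotient.inductionOn x fun a => ?_
      intro hx
      have hx' : a ∈ v j := ZFSet.mk_mem_iff.1 hx
      rw [FU.forces_all] at H
      have h1 := H c (𝟙 c) (U.chk c a)
      rw [FU.rs_id, FU.forces_imp] at h1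
      have h2 := h1 c (𝟙 c) (by
        rw [FU.rs_id, FU.forces_mem, Function.update_self, Function.update_of_ne hij.symm]
        exact (U.chk_mem c a (v j)).2 hx')
      rw [FU.rs_id] at h2
      have e1 : Function.update (fun n => U.chk c (v n)) i (U.chk c a) =
          fun n => U.chk c (Function.update v i a n) := by
        funext n
        by_cases hn : n = i
        · subst hn
          rw [Function.update_self, Function.update_self]
        · rw [Function.update_of_ne hn, Function.update_of_ne hn]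
      rw [e1, ih] at h2
      have e2 : (fun n => ZFSet.mk (Function.update v i a n)) =
          Function.update (fun n => ZFSet.mk (v n)) i (ZFSet.mk a) := by
        funext n
        by_cases hn : n = i
        · subst hn
          rw [Function.update_self, Function.update_self]
        · rw [Function.update_of_ne hn, Function.update_of_ne hn]
      rw [e2] at h2
      exact h2
    · intro H
      rw [FU.forces_all]
      intro d f x
      rw [FU.forces_imp]
      intro e g hm
      rw [FU.rs_update, FU.rs_rs, FU.forces_mem, Function.update_self,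
        Function.update_of_ne hij.symm, FU.rs_apply, U.mem_chk] at hm
      rw [FU.rs_update, FU.rs_rs]
      refine FU.Forces.loc U (hm.imp ?_)
      rintro e' m ⟨k, hk⟩
      rw [FU.rs_update, FU.rs_rs]
      rw [sat_all] at H
      have h1 := H (ZFSet.mk ((v j).Func k))
      rw [sat_imp, sat_mem, Function.update_self, Function.update_of_ne hij.symm] at h1
      have h2 := h1 (ZFSet.mk_mem_iff.2 (PSet.func_mem (v j) k))
      have e2 : (fun n => ZFSet.mk (Function.update v i ((v j).Func k) n)) =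
          Function.update (fun n => ZFSet.mk (v n)) i (ZFSet.mk ((v j).Func k)) := by
        funext n
        by_cases hn : n = i
        · subst hn
          rw [Function.update_self, Function.update_self]
        · rw [Function.update_of_ne hn, Function.update_of_ne hn]
      rw [← e2, ← ih e'] at h2
      refine FU.Forces.congr U (fun n => ?_) h2
      by_cases hn : n = i
      · subst hn
        rw [Function.update_self, Function.update_self]
        exact U.eq_symm hk
      · rw [Function.update_of_ne hn, Function.update_of_ne hn]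
        exact U.eq_symm (U.res_chk _ _ _ _)
-- END Q5

-- BEGIN Q6
section q6

variable {U}

/-- the stages where the predicate has a witness -/
def Q6W {c : C} (Φ : Pd U c) : Type 1 := Σ d : C, {f : d ⟶ c // ∃ x : U.El d, Φ.P d f x}

/-- `w` is the first index below the stage `e` -/
def Q6First {c : C} {Φ : Pd U c} (w : Q6W Φ) (e : C) : Prop :=
  ∀ w' : Q6W Φ, WellOrderingRel w' w → ∀ e' : C, (e' ⟶ e) → (e' ⟶ w'.1) → False

theorem q6_first_mono {c : C} {Φ : Pd U c} {w : Q6W Φ} {e e' : C} (h : Q6First w e)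
    (g : e' ⟶ e) : Q6First w e' :=
  fun w' hw' e'' g' h' => h w' hw' e'' (g' ≫ g) h'

end q6

/-- (task Q6) the maximum principle (fullness) over a thin category -/
theorem FU.exists_full (hthin : ∀ {c d : C} (f g : c ⟶ d), f = g) {c : C} (Φ : Pd U c)
    (H : Dn (fun d (f : d ⟶ c) => ∃ x : U.El d, Φ.P d f x)) : ∃ x : U.El c, Φ.P c (𝟙 c) x := by
  choose x hx using fun w : Q6W Φ => w.2.2
  choose F hF using fun w : Q6W Φ => U.small (x w)
  let M : Fam U.El c :=
    { ι := Σ (w : Q6W Φ) (j : (F w).ι) (e : C), {_m : e ⟶ (F w).obj j // Q6First w e}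
      obj := fun t => t.2.2.1
      hom := fun t => t.2.2.2.1 ≫ (F t.1).hom t.2.1 ≫ t.1.2.1
      el := fun t => U.res t.2.2.2.1 ((F t.1).el t.2.1) }
  -- the mixed name is the first witness
  have key : ∀ (w : Q6W Φ) (e : C) (h : e ⟶ w.1) (k : e ⟶ c), Q6First w e →
      U.eq (U.res k (U.set M)) (U.res h (x w)) := by
    intro w e h k hw
    apply U.ext
    intro e' g z
    rw [← U.res_comp, ← U.res_comp, U.mem_set]
    constructor
    · intro hz
      refine U.eq_right (U.eq_res _ (U.eq_symm (hF w))) ?_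
      rw [U.mem_set]
      refine hz.imp ?_
      rintro e'' m ⟨⟨w', j, e₁, m₁, hw'⟩, l, _, hl⟩
      have hl' : U.eq (U.res m z) (U.res l (U.res m₁ ((F w').el j))) := hl
      have hww : w' = w := by
        rcases trichotomous_of WellOrderingRel w' w with h1 | h1 | h1
        · exact (hw w' h1 e'' (m ≫ g) (l ≫ m₁ ≫ (F w').hom j)).elim
        · exact h1
        · exact (hw' w h1 e'' l (m ≫ g ≫ h)).elim
      subst hww
      refine ⟨j, l ≫ m₁, hthin _ _, ?_⟩
      rw [U.res_comp]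
      exact hl'
    · intro hz
      have hz' : U.mem z (U.res (g ≫ h) (U.set (F w))) := U.eq_right (U.eq_res _ (hF w)) hz
      rw [U.mem_set] at hz'
      refine hz'.imp ?_
      rintro e'' m ⟨j, l, _, hl⟩
      refine ⟨⟨w, j, e'', l, q6_first_mono hw (m ≫ g)⟩, 𝟙 e'', hthin _ _, ?_⟩
      change U.eq (U.res m z) (U.res (𝟙 e'') (U.res l ((F w).el j)))
      rw [U.res_id]
      exact hl
  refine ⟨U.set M, Φ.loc _ _ ?_⟩
  intro d f
  obtain ⟨d₁, g₁, x₁, hx₁⟩ := H d f
  let S : Set (Q6W Φ) := {w | ∃ (e : C), Nonempty (e ⟶ d) ∧ Nonempty (e ⟶ w.1)}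
  have hS : S.Nonempty := ⟨⟨d₁, g₁ ≫ f, x₁, hx₁⟩, d₁, ⟨g₁⟩, ⟨𝟙 d₁⟩⟩
  have hwf : WellFounded (WellOrderingRel (α := Q6W Φ)) := IsWellFounded.wf
  obtain ⟨w, ⟨e, ⟨m⟩, ⟨h⟩⟩, hmin⟩ := hwf.has_min S hS
  have hfirst : Q6First w e := by
    intro w' hw' e' g g'
    exact hmin w' ⟨e', ⟨g ≫ m⟩, ⟨g'⟩⟩ hw'
  refine ⟨e, m, ?_⟩
  have h1 := Φ.mono w.2.1 h (x w) (hx w)
  have e1 : h ≫ (w.2.1 : w.1 ⟶ c) = (m ≫ f) ≫ 𝟙 c := hthin _ _
  rw [e1] at h1
  exact Φ.congr _ _ _ (U.eq_symm (key w e h (m ≫ f) hfirst)) h1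
-- END Q6

end Pool.Agent.Lib.ZFM
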