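import Pool.Agent.Lib.MP_96875a_lc.Generic

/-!
Every forcing universe over a small category forces the axioms of `ZF` at every stage.
-/

open CategoryTheory

namespace Pool.Agent.Lib.ZFM

open Fml

def axExt : Fml := all 0 (all 1 (imp (all 2 (iff (mem 2 0) (mem 2 1))) (eq 0 1)))
def axFound : Fml :=
  all 0 (imp (ex 1 (mem 1 0)) (ex 1 (and (mem 1 0) (all 2 (neg (and (mem 2 1) (mem 2 0)))))))
def axPair : Fml := all 0 (all 1 (ex 2 (all 3 (iff (mem 3 2) (or (eq 3 0) (eq 3 1))))))
def axUnion : Fml := all 0 (ex 1 (all 2 (iff (mem 2 1) (ex 3 (and (mem 3 0) (mem 2 3))))))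
def axPow : Fml := all 0 (ex 1 (all 2 (iff (mem 2 1) (all 3 (imp (mem 3 2) (mem 3 0))))))
def axInf : Fml :=
  ex 0 (and (ex 1 (and (mem 1 0) (all 2 (neg (mem 2 1)))))
    (all 1 (imp (mem 1 0) (ex 2 (and (mem 2 0) (all 3 (iff (mem 3 2) (or (mem 3 1) (eq 3 1)))))))))
def axSep (φ : Fml) : Fml :=
  all (φ.bd + 1) (ex (φ.bd + 2) (all 0 (iff (mem 0 (φ.bd + 2)) (and (mem 0 (φ.bd + 1)) φ))))
def axRep (φ : Fml) : Fml :=
  all (φ.bd + 2) (imp
    (all 0 (imp (mem 0 (φ.bd + 2)) (ex (φ.bd + 4) (all 1 (iff φ (eq 1 (φ.bd + 4)))))))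
    (ex (φ.bd + 3) (all 1 (iff (mem 1 (φ.bd + 3)) (ex 0 (and (mem 0 (φ.bd + 2)) φ))))))

-- BEGIN Z0
/-- (task Z0) the axioms as formulas -/
theorem isZF_of_sat {M : Type*} (E : M → M → Prop) (hM : Nonempty M)
    (h1 : ∀ v, Sat E axExt v) (h2 : ∀ v, Sat E axFound v) (h3 : ∀ v, Sat E axPair v)
    (h4 : ∀ v, Sat E axUnion v) (h5 : ∀ v, Sat E axPow v) (h6 : ∀ v, Sat E axInf v)
    (h7 : ∀ φ v, Sat E (axSep φ) v) (h8 : ∀ φ v, Sat E (axRep φ) v) : IsZF E := by
  obtain ⟨m⟩ := hM
  refine ⟨⟨m⟩, ?_, ?_, ?_, ?_, ?_, ?_, ?_, ?_⟩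
  · simpa [axExt, Function.update] using h1 (fun _ => m)
  · simpa [axFound, Function.update] using h2 (fun _ => m)
  · simpa [axPair, Function.update] using h3 (fun _ => m)
  · simpa [axUnion, Function.update] using h4 (fun _ => m)
  · simpa [axPow, Function.update] using h5 (fun _ => m)
  · simpa [axInf, Function.update] using h6 (fun _ => m)
  · intro φ v a
    have h := h7 φ v
    simp only [axSep, sat_all, sat_ex, sat_iff, sat_mem, sat_and] at h
    obtain ⟨b, hb⟩ := h a
    refine ⟨b, fun x => ?_⟩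
    have hx := hb x
    have e : Sat E φ (Function.update (Function.update (Function.update v (φ.bd + 1) a)
        (φ.bd + 2) b) 0 x) ↔ Sat E φ (Function.update v 0 x) := by
      apply sat_bd
      intro i hi
      by_cases h0 : i = 0
      · subst h0; simp
      · rw [Function.update_of_ne h0, Function.update_of_ne h0,
          Function.update_of_ne (by omega), Function.update_of_ne (by omega)]
    rw [e] at hx
    simpa [Function.update] using hx
  · intro φ v a hfun
    have h := h8 φ v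
    simp only [axRep, sat_all, sat_ex, sat_iff, sat_mem, sat_and, sat_imp, sat_eq] at h
    have e1 : ∀ x y y', Sat E φ (Function.update (Function.update (Function.update
        (Function.update v (φ.bd + 2) a) 0 x) (φ.bd + 4) y') 1 y) ↔
        Sat E φ (Function.update (Function.update v 0 x) 1 y) := by
      intro x y y'
      apply sat_bd
      intro i hi
      by_cases h1 : i = 1
      · subst h1; simp
      · rw [Function.update_of_ne h1, Function.update_of_ne h1,
          Function.update_of_ne (by omega)]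
        by_cases h0 : i = 0
        · subst h0; simp
        · rw [Function.update_of_ne h0, Function.update_of_ne h0,
            Function.update_of_ne (by omega)]
    have e2 : ∀ x y b, Sat E φ (Function.update (Function.update (Function.update
        (Function.update v (φ.bd + 2) a) (φ.bd + 3) b) 1 y) 0 x) ↔
        Sat E φ (Function.update (Function.update v 0 x) 1 y) := by
      intro x y b
      apply sat_bd
      intro i hi
      by_cases h0 : i = 0
      · subst h0; simp
      · rw [Function.update_of_ne h0]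
        by_cases h1 : i = 1
        · subst h1; simp
        · rw [Function.update_of_ne h1, Function.update_of_ne h1, Function.update_of_ne h0,
            Function.update_of_ne (by omega), Function.update_of_ne (by omega)]
    obtain ⟨b, hb⟩ := h a (by
      intro x hx
      have hx' : E x a := by simpa [Function.update] using hx
      obtain ⟨y, hy, hy'⟩ := hfun x hx'
      refine ⟨y, fun z => ?_⟩
      rw [e1]
      have e3 : Function.update (Function.update (Function.update
        (Function.update v (φ.bd + 2) a) 0 x) (φ.bd + 4) y) 1 z (φ.bd + 4) = y := by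
        rw [Function.update_of_ne (by omega), Function.update_self]
      rw [e3, Function.update_self]
      exact ⟨fun hz => hy' z hz, fun hz => hz ▸ hy⟩)
    refine ⟨b, fun y => ?_⟩
    have hy := hb y
    simp only [e2] at hy
    simpa [Function.update] using hy
-- END Z0

variable {C : Type 1} [Category.{0} C] (U : FU C)

-- BEGIN Z1
/-- (task Z1) -/
theorem FU.forces_axExt (c : C) (v : ℕ → U.El c) : U.Forces axExt c v := by
  simp only [axExt, FU.forces_all, FU.forces_imp, FU.forces_iff, FU.forces_mem, FU.forces_eq]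
  intro d f x e g y d' f' H
  apply U.ext
  intro d'' f'' z
  have h := H d'' f'' z d'' (𝟙 d'')
  simpa [Function.update, U.res_id, U.res_comp] using h
-- END Z1

-- BEGIN Z2
/-- (task Z2) -/
theorem FU.forces_axFound (c : C) (v : ℕ → U.El c) : U.Forces axFound c v := by
  simp only [axFound, FU.forces_all, FU.forces_imp, FU.forces_ex, FU.forces_mem, FU.forces_and,
    FU.forces_neg]
  intro d f x e g H
  apply Dn.of_not
  rintro ⟨d₀, f₀, hn⟩
  -- `X` is the restriction of `x` to `d₀`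
  have key : ∀ (k : C) (y : U.El k) (h : k ⟶ d₀), ¬ U.mem y (U.res h (U.res f₀ (U.res g x))) := by
    intro k y
    refine U.ind (fun k y => ∀ h : k ⟶ d₀, ¬ U.mem y (U.res h (U.res f₀ (U.res g x))))
      ?_ ?_ ?_ k y
    · intro c x₁ y₁ hxy hx h hm
      exact hx h (U.eq_left (U.eq_symm hxy) hm)
    · intro c x₁ hD h hm
      obtain ⟨k', g', hk⟩ := hD c (𝟙 c)
      refine hk ((g' ≫ 𝟙 c) ≫ h) ?_
      rw [U.res_comp (g' ≫ 𝟙 c) h]
      exact U.mem_res _ hm
    · intro c x₁ hind h hm
      refine hn c h ⟨x₁, ?_, ?_⟩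
      · simpa [Function.update, U.res_comp] using hm
      · intro d₁ g₁ z d₂ g₂ hz
        obtain ⟨hz1, hz2⟩ := hz
        have hz1' : U.mem (U.res g₂ z) (U.res g₂ (U.res g₁ x₁)) := by
          simpa [Function.update, U.res_comp] using hz1
        have hz2' : U.mem (U.res g₂ z) (U.res g₂ (U.res g₁ (U.res h (U.res f₀ (U.res g x))))) := by
          simpa [Function.update, U.res_comp] using hz2
        rw [← U.res_comp] at hz1'
        rw [← U.res_comp, ← U.res_comp] at hz2'
        exact hind d₂ (g₂ ≫ g₁) _ hz1' _ hz2'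
  obtain ⟨k, h, y, hy⟩ := H d₀ f₀
  refine key k y h ?_
  simpa [Function.update, U.res_comp] using hy
-- END Z2

-- BEGIN Z3
/-- (task Z3) -/
theorem FU.forces_axPair (c : C) (v : ℕ → U.El c) : U.Forces axPair c v := by
  simp only [axPair, forces_all, forces_ex, forces_iff, forces_or, forces_mem, forces_eq]
  intro d f x d1 f1 y
  apply Dn.of_all
  intro e g
  obtain ⟨s, hs⟩ := U.exists_upair (U.res g (U.res f1 x)) (U.res g y)
  refine ⟨s, ?_⟩
  intro d' f' w d'' f''
  have h := hs d'' (f'' ≫ f') (U.res f'' w)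
  simp only [rs_update, rs_rs, Function.update_apply, rs_apply]
  simp [U.res_comp] at h ⊢
  exact h
-- END Z3

-- BEGIN Z4
theorem z4_exists_union {c : C} (A : U.El c) : ∃ B : U.El c,
    ∀ (d : C) (g : d ⟶ c) (z : U.El d), U.mem z (U.res g B) ↔
      Dn (fun e (m : e ⟶ d) => ∃ w : U.El e, U.mem w (U.res (m ≫ g) A) ∧
        U.mem (U.res m z) w) := by
  obtain ⟨F, hF⟩ := U.small A
  have hG : ∀ i, ∃ G : Fam U.El (F.obj i), U.eq (F.el i) (U.set G) := fun i => U.small _
  choose G hG using hG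
  refine ⟨U.set ⟨Σ i, (G i).ι, fun p => (G p.1).obj p.2, fun p => (G p.1).hom p.2 ≫ F.hom p.1,
    fun p => (G p.1).el p.2⟩, ?_⟩
  intro d g z
  rw [U.mem_set]
  constructor
  · intro H
    refine H.imp ?_
    rintro e m ⟨⟨i, j⟩, l, hl, hz⟩
    simp only at l hl hz
    refine ⟨U.res (l ≫ (G i).hom j) (F.el i), ?_, ?_⟩
    · refine U.eq_right (U.eq_symm (U.eq_res _ hF)) ?_
      rw [U.mem_set]
      refine Dn.of_all ?_
      intro e' k
      refine ⟨i, k ≫ l ≫ (G i).hom j, ?_, ?_⟩
      · simp only [Category.assoc, hl]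
      · rw [U.res_comp k]
        exact U.eq_refl _
    · refine U.eq_right (U.eq_symm (U.eq_res _ (hG i))) ?_
      rw [U.mem_set]
      refine Dn.of_all ?_
      intro e' k
      refine ⟨j, k ≫ l, ?_, ?_⟩
      · simp only [Category.assoc]
      · rw [U.res_comp k]
        exact U.eq_res k hz
  · intro H
    refine H.bind ?_
    rintro e m ⟨w, hw, hz⟩
    have hw' := U.eq_right (U.eq_res _ hF) hw
    rw [U.mem_set] at hw'
    refine hw'.bind ?_
    rintro e' m' ⟨i, l, hl, hwl⟩
    have h1 : U.mem (U.res m' (U.res m z)) (U.res l (U.set (G i))) := by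
      refine U.mem_congr (U.eq_refl _) ?_ (U.mem_res m' hz)
      exact U.eq_trans hwl (U.eq_res _ (hG i))
    rw [U.mem_set] at h1
    refine h1.imp ?_
    rintro e'' m'' ⟨j, l', hl', hzl'⟩
    refine ⟨⟨i, j⟩, l', ?_, ?_⟩
    · simp only
      rw [← Category.assoc, hl', Category.assoc, hl, Category.assoc, Category.assoc]
    · simp only [U.res_comp]
      exact hzl'

/-- (task Z4) -/
theorem FU.forces_axUnion (c : C) (v : ℕ → U.El c) : U.Forces axUnion c v := by
  simp only [axUnion, forces_all, forces_ex, forces_iff, forces_and, forces_mem]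
  intro d f x
  apply Dn.of_all
  intro e g
  obtain ⟨s, hs⟩ := z4_exists_union U (U.res g x)
  refine ⟨s, ?_⟩
  intro d' f' w d'' f''
  have h := hs d'' (f'' ≫ f') (U.res f'' w)
  simp only [rs_update, rs_rs, Function.update_apply, rs_apply]
  simp [U.res_comp] at h ⊢
  exact h
-- END Z4

-- BEGIN Z5
theorem z5_exists_pow {c : C} (A : U.El c) : ∃ B : U.El c,
    ∀ (d : C) (g : d ⟶ c) (z : U.El d), U.mem z (U.res g B) ↔
      ∀ (e : C) (m : e ⟶ d) (w : U.El e), U.mem w (U.res m z) → U.mem w (U.res (m ≫ g) A) := by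
  obtain ⟨F, hF⟩ := U.small A
  let T : C → Type 1 := fun d => Set (Σ i : F.ι, Σ e : C, (e ⟶ F.obj i) × (e ⟶ d))
  let G : ∀ (d : C) (g : d ⟶ c) (S : T d), Fam U.El d := fun d g S =>
    ⟨{x : (Σ i : F.ι, Σ e : C, (e ⟶ F.obj i) × (e ⟶ d)) //
        x ∈ S ∧ x.2.2.1 ≫ F.hom x.1 = x.2.2.2 ≫ g},
      fun x => x.1.2.1, fun x => x.1.2.2.2, fun x => U.res x.1.2.2.1 (F.el x.1.1)⟩
  refine ⟨U.set ⟨Σ d : C, Σ _g : d ⟶ c, T d, fun p => p.1, fun p => p.2.1,
    fun p => U.set (G p.1 p.2.1 p.2.2)⟩, ?_⟩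
  intro d g z
  rw [U.mem_set]
  constructor
  · intro H e m w hw
    apply U.mem_loc
    refine (H.res m).bind ?_
    rintro e' m' ⟨⟨d', g', S⟩, l, hl, hz⟩
    simp only at l hl hz
    have h1 : U.mem (U.res m' w) (U.res l (U.set (G d' g' S))) := by
      refine U.mem_congr (U.eq_refl _) ?_ (U.mem_res m' hw)
      rw [← U.res_comp]
      exact hz
    rw [U.mem_set] at h1
    refine h1.imp ?_
    rintro e'' m'' ⟨⟨⟨i, e3, l1, m1⟩, hS, hc⟩, l3, hl3, hw3⟩
    simp only [G] at l3 hS hc hl3 hw3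
    rw [U.res_comp m'' m', U.res_comp m'' m']
    refine U.mem_congr (U.eq_symm hw3) (U.eq_symm (U.eq_res _ (U.eq_res _ (U.eq_res _ hF)))) ?_
    rw [← U.res_comp, ← U.res_comp, ← U.res_comp, U.mem_set]
    refine Dn.of_all ?_
    intro e4 k
    refine ⟨i, k ≫ l3 ≫ l1, ?_, ?_⟩
    · have h2 : l3 ≫ l1 ≫ F.hom i = (m'' ≫ m') ≫ m ≫ g := by
        rw [hc, ← Category.assoc, hl3, Category.assoc, hl]
        simp only [Category.assoc]
      simp only [Category.assoc] at h2 ⊢
      rw [h2]
    · rw [U.res_comp k]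
      exact U.eq_refl _
  · intro H
    let S : T d := {x | U.mem (U.res x.2.2.1 (F.el x.1)) (U.res x.2.2.2 z)}
    refine Dn.of_all ?_
    intro e m
    refine ⟨⟨d, g, S⟩, m, rfl, ?_⟩
    apply U.eq_res
    apply U.ext
    intro e1 m1 w
    simp only
    rw [U.mem_set]
    constructor
    · intro hw
      have h1 := U.eq_right (U.eq_res _ hF) (H e1 m1 w hw)
      rw [U.mem_set] at h1
      refine h1.imp ?_
      rintro e2 m2 ⟨i, l, hl, hwl⟩
      refine ⟨⟨⟨i, e2, l, m2 ≫ m1⟩, ?_, ?_⟩, 𝟙 e2, ?_, ?_⟩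
      · change U.mem (U.res l (F.el i)) (U.res (m2 ≫ m1) z)
        rw [U.res_comp]
        exact U.eq_left hwl (U.mem_res m2 hw)
      · simp only [Category.assoc]
        exact hl
      · simp only [G, Category.id_comp]
      · simp only [G, U.res_id]
        exact hwl
    · intro hw
      apply U.mem_loc
      refine hw.imp ?_
      rintro e2 m2 ⟨⟨⟨i, e3, l, m3⟩, hS, hc⟩, l', hl', hwl⟩
      simp only [G] at l' hl' hwl hc
      have h1 : U.mem (U.res l (F.el i)) (U.res m3 z) := hS
      have h2 := U.mem_res l' h1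
      rw [← U.res_comp l' m3, hl', U.res_comp] at h2
      exact U.eq_left (U.eq_symm hwl) h2

/-- (task Z5) -/
theorem FU.forces_axPow (c : C) (v : ℕ → U.El c) : U.Forces axPow c v := by
  simp only [axPow, forces_all, forces_ex, forces_iff, forces_imp, forces_mem]
  intro d f x
  apply Dn.of_all
  intro e g
  obtain ⟨s, hs⟩ := z5_exists_pow U (U.res g x)
  refine ⟨s, ?_⟩
  intro d' f' w d'' f''
  have h := hs d'' (f'' ≫ f') (U.res f'' w)
  simp only [rs_update, rs_rs, Function.update_apply, rs_apply]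
  simp only [U.res_comp, reduceIte, OfNat.ofNat_ne_zero, OfNat.ofNat_ne_one,
    Nat.reduceEqDiff] at h ⊢
  rw [h]
  constructor
  · intro H e1 m1 w1 e2 m2 hh
    have := H e2 (m2 ≫ m1) (U.res m2 w1)
    simp only [U.res_comp] at this
    exact this hh
  · intro H e1 m1 w1 hh
    have := H e1 m1 w1 e1 (𝟙 e1)
    simp only [U.res_id] at this
    exact this hh
-- END Z5

/-- the name of the natural number `n` (von Neumann) at the stage `c` -/
noncomputable def FU.nat (c : C) : ℕ → U.El c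
  | 0 => U.set ⟨PEmpty, fun i => i.elim, fun i => i.elim, fun i => i.elim⟩
  | n + 1 => U.set ⟨ULift (Fin (n + 1)), fun _ => c, fun _ => 𝟙 c, fun i => FU.nat c i.down.1⟩
  decreasing_by exact i.down.2

-- BEGIN Z6a
theorem z6a_res {n : ℕ} (h : ∀ (c d : C) (f : d ⟶ c) (y : U.El d),
    U.mem y (U.res f (U.nat c n)) ↔
      Dn (fun e (g : e ⟶ d) => ∃ k < n, U.eq (U.res g y) (U.nat e k)))
    (c d : C) (f : d ⟶ c) : U.eq (U.res f (U.nat c n)) (U.nat d n) := by
  apply U.ext
  intro e g z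
  rw [← U.res_comp, h, h]

theorem z6a_main (n : ℕ) : ∀ (c d : C) (f : d ⟶ c) (y : U.El d),
    U.mem y (U.res f (U.nat c n)) ↔
      Dn (fun e (g : e ⟶ d) => ∃ k < n, U.eq (U.res g y) (U.nat e k)) := by
  induction n using Nat.strong_induction_on with
  | _ n ih =>
    intro c d f y
    have hres : ∀ k < n, ∀ (c d : C) (f : d ⟶ c), U.eq (U.res f (U.nat c k)) (U.nat d k) :=
      fun k hk c d f => z6a_res U (ih k hk) c d f
    cases n with
    | zero =>
      rw [FU.nat, U.mem_set]
      constructor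
      · refine Dn.imp ?_
        rintro e g ⟨i, -⟩
        exact i.elim
      · refine Dn.imp ?_
        rintro e g ⟨k, hk, -⟩
        exact absurd hk (Nat.not_lt_zero k)
    | succ m =>
      rw [FU.nat, U.mem_set]
      constructor
      · refine Dn.imp ?_
        rintro e g ⟨i, l, -, he⟩
        exact ⟨i.down.1, i.down.2, U.eq_trans he (hres i.down.1 i.down.2 c e l)⟩
      · refine Dn.imp ?_
        rintro e g ⟨k, hk, he⟩
        exact ⟨⟨⟨k, hk⟩⟩, g ≫ f, Category.comp_id _,
          U.eq_trans he (U.eq_symm (hres k hk c e (g ≫ f)))⟩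

/-- (task Z6a) elements of a natural number -/
theorem FU.mem_nat (c d : C) (f : d ⟶ c) (n : ℕ) (y : U.El d) :
    U.mem y (U.res f (U.nat c n)) ↔
      Dn (fun e (g : e ⟶ d) => ∃ k < n, U.eq (U.res g y) (U.nat e k)) :=
  z6a_main U n c d f y
-- END Z6a

-- BEGIN Z6b
/-- (task Z6b) -/
theorem FU.res_nat (c d : C) (f : d ⟶ c) (n : ℕ) : U.eq (U.res f (U.nat c n)) (U.nat d n) := by
  refine U.ext fun e g z => ?_
  rw [← U.res_comp]
  exact (U.mem_nat c e (g ≫ f) n z).trans (U.mem_nat d e g n z).symm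
-- END Z6b

-- BEGIN Z6c
theorem FU.z6c_mem_nat (c : C) (n : ℕ) (y : U.El c) : U.mem y (U.nat c n) ↔
    Dn (fun e (g : e ⟶ c) => ∃ k < n, U.eq (U.res g y) (U.nat e k)) := by
  have h := U.mem_nat c c (𝟙 c) n y
  rwa [U.res_id] at h

/-- (task Z6c) -/
theorem FU.mem_nat_succ (c : C) (n : ℕ) (y : U.El c) :
    U.mem y (U.nat c (n + 1)) ↔
      Dn (fun e (g : e ⟶ c) => U.mem (U.res g y) (U.nat e n) ∨ U.eq (U.res g y) (U.nat e n)) := by
  rw [U.z6c_mem_nat]
  constructor
  · intro h
    refine h.imp ?_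
    rintro e g ⟨k, hk, hy⟩
    rcases Nat.lt_succ_iff_lt_or_eq.mp hk with hk | rfl
    · left
      rw [U.z6c_mem_nat]
      refine Dn.of_all fun e' g' => ⟨k, hk, ?_⟩
      exact U.eq_trans (U.eq_res g' hy) (U.res_nat _ _ g' k)
    · right
      exact hy
  · intro h
    refine Dn.bind ?_ h
    rintro e g (hy | hy)
    · rw [U.z6c_mem_nat] at hy
      refine hy.imp ?_
      rintro e' g' ⟨k, hk, hk'⟩
      exact ⟨k, Nat.lt_succ_of_lt hk, by rw [U.res_comp]; exact hk'⟩
    · refine Dn.of_all fun e' g' => ⟨n, Nat.lt_succ_self n, ?_⟩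
      rw [U.res_comp]
      exact U.eq_trans (U.eq_res g' hy) (U.res_nat _ _ g' n)
-- END Z6c

-- BEGIN Z6
theorem z6_aux (c : C) : ∃ w : U.El c,
    (∀ (d : C) (f : d ⟶ c), U.mem (U.nat d 0) (U.res f w)) ∧
    (∀ (d : C) (f : d ⟶ c) (y : U.El d), U.mem y (U.res f w) →
      Dn (fun e (g : e ⟶ d) => ∃ n : ℕ, U.eq (U.res g y) (U.nat e n) ∧
        U.mem (U.nat e (n + 1)) (U.res (g ≫ f) w))) := by
  have key : ∀ (d : C) (f : d ⟶ c) (n : ℕ), U.mem (U.nat d n)
      (U.res f (U.set ⟨ULift ℕ, fun _ => c, fun _ => 𝟙 c, fun n => U.nat c n.down⟩)) := by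
    intro d f n
    rw [U.mem_set]
    refine Dn.of_all ?_
    intro e m
    refine ⟨⟨n⟩, m ≫ f, by simp, ?_⟩
    simp only
    exact U.eq_trans (U.res_nat _ _ _ _) (U.eq_symm (U.res_nat _ _ _ _))
  refine ⟨U.set ⟨ULift ℕ, fun _ => c, fun _ => 𝟙 c, fun n => U.nat c n.down⟩, ?_, ?_⟩
  · intro d f
    exact key d f 0
  · intro d f y hy
    rw [U.mem_set] at hy
    refine hy.imp ?_
    rintro e m ⟨n, l, hl, hyl⟩
    refine ⟨n.down, ?_, key _ _ _⟩
    exact U.eq_trans hyl (U.res_nat _ _ _ _)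

/-- (task Z6) -/
theorem FU.forces_axInf (c : C) (v : ℕ → U.El c) : U.Forces axInf c v := by
  simp only [axInf, forces_all, forces_ex, forces_iff, forces_imp, forces_mem, forces_and,
    forces_neg, forces_or, forces_eq]
  apply Dn.of_all
  intro d f
  obtain ⟨w, hw0, hw⟩ := z6_aux U d
  refine ⟨w, ?_, ?_⟩
  · apply Dn.of_all
    intro e g
    refine ⟨U.nat e 0, ?_, ?_⟩
    · simpa [Function.update_apply] using hw0 e g
    · intro e1 g1 x e2 g2 h
      simp only [rs_update, rs_rs, Function.update_apply, rs_apply] at h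
      simp only [reduceIte, Nat.reduceEqDiff, OfNat.ofNat_ne_one, ← U.res_comp] at h
      rw [U.mem_nat] at h
      obtain ⟨e3, g3, k, hk, _⟩ := h e2 (𝟙 e2)
      omega
  · intro e g y e1 g1 hy
    simp only [rs_update, rs_rs, Function.update_apply, rs_apply] at hy
    simp only [reduceIte, one_ne_zero, zero_ne_one, ← U.res_comp] at hy
    refine (hw _ _ _ hy).imp ?_
    rintro e2 g2 ⟨n, hyn, hn⟩
    refine ⟨U.nat e2 (n + 1), ?_, ?_⟩
    · simpa [Function.update_apply, U.res_comp] using hn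
    · intro e3 g3 x e4 g4
      have h1 : U.mem (U.res g4 x) (U.nat e4 (n + 1)) ↔ _ := U.mem_nat_succ _ _ _
      have h2 : U.mem (U.res g4 x) (U.res (g4 ≫ g3) (U.nat e2 (n + 1))) ↔
          U.mem (U.res g4 x) (U.nat e4 (n + 1)) :=
        ⟨U.eq_right (U.res_nat _ _ _ _), U.eq_right (U.eq_symm (U.res_nat _ _ _ _))⟩
      simp only [rs_update, rs_rs, Function.update_apply, rs_apply]
      simp only [reduceIte, Nat.reduceEqDiff, OfNat.ofNat_ne_one]
      rw [← U.res_comp g4 g3 (U.nat e2 (n + 1)), h2, h1]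
      have h3 : ∀ (e5 : C) (g5 : e5 ⟶ e4),
          U.eq (U.nat e5 n) (U.res (g5 ≫ g4 ≫ g3 ≫ g2) (U.res g1 y)) := by
        intro e5 g5
        have h4 := U.eq_symm (U.eq_res (g5 ≫ g4 ≫ g3) hyn)
        rw [← U.res_comp (g5 ≫ g4 ≫ g3) g2] at h4
        refine U.eq_trans (U.eq_symm (U.res_nat e2 e5 (g5 ≫ g4 ≫ g3) n)) ?_
        simpa only [Category.assoc] using h4
      constructor
      · intro H
        refine H.imp ?_
        intro e5 g5 h5
        rcases h5 with h5 | h5
        · left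
          have := U.eq_right (h3 e5 g5) h5
          simpa [U.res_comp] using this
        · right
          have := U.eq_trans h5 (h3 e5 g5)
          simpa [U.res_comp] using this
      · intro H
        refine H.imp ?_
        intro e5 g5 h5
        rcases h5 with h5 | h5
        · left
          refine U.eq_right (U.eq_symm (h3 e5 g5)) ?_
          simpa [U.res_comp] using h5
        · right
          refine U.eq_trans ?_ (U.eq_symm (h3 e5 g5))
          simpa [U.res_comp] using h5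
-- END Z6

-- BEGIN Z7
/-- (task Z7) -/
theorem FU.forces_axSep (φ : Fml) (c : C) (v : ℕ → U.El c) : U.Forces (axSep φ) c v := by
  simp only [axSep, forces_all, forces_ex, forces_iff, forces_mem, forces_and]
  intro d f A
  apply Dn.of_all
  intro e g
  obtain ⟨Φ, hΦ⟩ := U.exists_pd φ 0 (U.rs (g ≫ f) v)
  obtain ⟨B, hB⟩ := U.exists_sep (U.res g A) Φ
  refine ⟨B, ?_⟩
  intro d1 f1 x d2 f2
  have h := hB d2 (f2 ≫ f1) (U.res f2 x)
  rw [hΦ] at h
  have h1 : U.Forces φ d2 (U.rs f2 (Function.update (U.rs f1 (Function.update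
      (U.rs g (Function.update (U.rs f v) (φ.bd + 1) A)) (φ.bd + 2) B)) 0 x)) ↔
      U.Forces φ d2 (Function.update (U.rs (f2 ≫ f1) (U.rs (g ≫ f) v)) 0 (U.res f2 x)) := by
    apply U.forces_bd
    intro i hi
    have h2 : i ≠ φ.bd + 1 := by omega
    have h3 : i ≠ φ.bd + 2 := by omega
    simp only [rs_update, rs_rs, Function.update_apply, rs_apply, if_neg h2, if_neg h3,
      Category.assoc]
    by_cases h0 : i = 0
    · rw [if_pos h0, if_pos h0]
    · rw [if_neg h0, if_neg h0, ← U.res_comp]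
  rw [h1]
  have e1 : φ.bd + 2 ≠ 0 := by omega
  have e2 : φ.bd + 1 ≠ 0 := by omega
  have e3 : φ.bd + 1 ≠ φ.bd + 2 := by omega
  simp only [Function.update_apply, rs_apply, if_neg e1, if_neg e2, if_neg e3, if_true]
  simp only [U.res_comp] at h ⊢
  exact h
-- END Z7

-- BEGIN Z8
theorem z8_core {c : C} (A : U.El c) (P : ∀ d : C, (d ⟶ c) → U.El d → U.El d → Prop)
    (mono : ∀ {d e : C} (f : d ⟶ c) (g : e ⟶ d) (x y : U.El d), P d f x y →
      P e (g ≫ f) (U.res g x) (U.res g y))
    (congr : ∀ {d : C} (f : d ⟶ c) (x x' y y' : U.El d), U.eq x x' → U.eq y y' →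
      P d f x y → P d f x' y')
    (uniq : ∀ (d : C) (f : d ⟶ c) (x : U.El d), U.mem x (U.res f A) →
      Dn (fun e (g : e ⟶ d) => ∃ y0 : U.El e, ∀ (e' : C) (g' : e' ⟶ e) (z : U.El e'),
        P e' (g' ≫ g ≫ f) (U.res (g' ≫ g) x) z → U.eq z (U.res g' y0))) :
    ∃ b : U.El c, ∀ (d : C) (f : d ⟶ c) (y : U.El d), U.mem y (U.res f b) ↔
      Dn (fun e (g : e ⟶ d) => ∃ x : U.El e, U.mem x (U.res (g ≫ f) A) ∧
        P e (g ≫ f) x (U.res g y)) := by
  classical
  obtain ⟨F, hF⟩ := U.small A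
  let ι' : Type 1 := Σ i : F.ι, Σ d : C, {l : d ⟶ F.obj i //
    ∃ y : U.El d, P d (l ≫ F.hom i) (U.res l (F.el i)) y}
  let G : Fam U.El c :=
    { ι := ι'
      obj := fun j => j.2.1
      hom := fun j => j.2.2.1 ≫ F.hom j.1
      el := fun j => j.2.2.2.choose }
  refine ⟨U.set G, fun d f y => ?_⟩
  rw [U.mem_set]
  constructor
  · intro H
    refine H.imp ?_
    rintro e g ⟨⟨i, d', l, hl⟩, l', h1, h2⟩
    have hy := hl.choose_spec
    change l' ≫ l ≫ F.hom i = g ≫ f at h1
    change U.eq (U.res g y) (U.res l' hl.choose) at h2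
    refine ⟨U.res l' (U.res l (F.el i)), ?_, ?_⟩
    · refine U.eq_right (U.eq_symm (U.eq_res (g ≫ f) hF)) ?_
      rw [U.mem_set]
      refine Dn.of_all fun e' m => ⟨i, m ≫ l' ≫ l, by simp [← h1], ?_⟩
      refine U.eq_of_eq ?_
      rw [U.res_comp, U.res_comp]
    · have := mono _ l' _ _ hy
      rw [h1] at this
      exact congr _ _ _ _ _ (U.eq_refl _) (U.eq_symm h2) this
  · intro H
    refine Dn.bind ?_ H
    rintro e g ⟨x, hx, hP⟩
    have hx' : U.mem x (U.res (g ≫ f) (U.set F)) := U.eq_right (U.eq_res _ hF) hx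
    rw [U.mem_set] at hx'
    refine Dn.bind ?_ hx'
    rintro e1 g1 ⟨i, l, h1, h2⟩
    have hP1 : P e1 (l ≫ F.hom i) (U.res l (F.el i)) (U.res g1 (U.res g y)) := by
      rw [h1]
      exact congr _ _ _ _ _ h2 (U.eq_refl _) (mono _ g1 _ _ hP)
    have hex : ∃ y : U.El e1, P e1 (l ≫ F.hom i) (U.res l (F.el i)) y := ⟨_, hP1⟩
    have hmem : U.mem (U.res l (F.el i)) (U.res (l ≫ F.hom i) A) := by
      refine U.eq_right (U.eq_symm (U.eq_res _ hF)) ?_
      rw [U.mem_set]
      exact Dn.of_all fun e' m => ⟨i, m ≫ l, by simp, U.eq_of_eq (U.res_comp _ _ _).symm⟩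
    have hu := uniq _ _ _ hmem
    refine Dn.imp ?_ hu
    rintro e2 g2 ⟨y0, hy0⟩
    have e1' := hy0 e2 (𝟙 e2) (U.res g2 hex.choose) (by
      have := mono _ g2 _ _ hex.choose_spec
      simpa using this)
    have e2' := hy0 e2 (𝟙 e2) (U.res g2 (U.res g1 (U.res g y))) (by
      have := mono _ g2 _ _ hP1
      simpa using this)
    refine ⟨⟨i, e1, l, hex⟩, g2, ?_, ?_⟩
    · change g2 ≫ l ≫ F.hom i = _
      rw [h1]; simp
    · change U.eq (U.res ((g2 ≫ g1) ≫ g) y) (U.res g2 hex.choose)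
      rw [U.res_comp, U.res_comp]
      exact U.eq_trans e2' (U.eq_symm e1')

/-- (task Z8) -/
theorem FU.forces_axRep (φ : Fml) (c : C) (v : ℕ → U.El c) : U.Forces (axRep φ) c v := by
  unfold axRep
  rw [FU.forces_all]
  intro d f A
  rw [FU.forces_imp]
  intro e g H
  have h02 : (0 : ℕ) ≠ φ.bd + 2 := by omega
  have h12 : (1 : ℕ) ≠ φ.bd + 2 := by omega
  have h24 : φ.bd + 2 ≠ φ.bd + 4 := by omega
  have h42 : φ.bd + 4 ≠ φ.bd + 2 := by omega
  have h23 : φ.bd + 2 ≠ φ.bd + 3 := by omega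
  have h20 : φ.bd + 2 ≠ 0 := by omega
  have h21 : φ.bd + 2 ≠ 1 := by omega
  have h41 : φ.bd + 4 ≠ 1 := by omega
  have h40 : φ.bd + 4 ≠ 0 := by omega
  have h14 : 1 ≠ φ.bd + 4 := by omega
  have h31 : φ.bd + 3 ≠ 1 := by omega
  have h13 : 1 ≠ φ.bd + 3 := by omega
  have h30 : φ.bd + 3 ≠ 0 := by omega
  generalize hv1 : U.rs g (Function.update (U.rs f v) (φ.bd + 2) A) = v1 at H ⊢
  clear hv1
  obtain ⟨b, hb⟩ := z8_core U (v1 (φ.bd + 2))
    (fun d k x y => U.Forces φ d (Function.update (Function.update (U.rs k v1) 0 x) 1 y))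
    (by
      intro d e' k l x y h
      have := FU.Forces.mono U h l
      simpa only [FU.rs_update, FU.rs_rs] using this)
    (by
      intro d k x x' y y' hx hy h
      refine FU.Forces.congr U (fun i => ?_) h
      by_cases h1 : i = 1
      · subst h1; simpa using hy
      · rw [Function.update_of_ne h1, Function.update_of_ne h1]
        by_cases h0 : i = 0
        · subst h0; simpa using hx
        · rw [Function.update_of_ne h0, Function.update_of_ne h0]
          exact U.eq_refl _)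
    (by
      intro d k x hx
      have H1 := H d k x
      rw [FU.forces_imp] at H1
      have H2 := H1 d (𝟙 d) (by
        rw [FU.rs_id, FU.forces_mem]
        simpa [h20] using hx)
      rw [FU.forces_ex] at H2
      refine H2.imp ?_
      rintro e1 l ⟨y0, hy0⟩
      refine ⟨y0, fun e2 m z hz => ?_⟩
      have H3 := hy0 e2 m z
      rw [FU.forces_iff] at H3
      have H4 := (H3 e2 (𝟙 e2)).1
      rw [FU.rs_id, FU.forces_eq] at H4
      have H5 := H4 (by
        refine (FU.forces_bd U φ _ _ (fun i hi => ?_)).1 hz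
        by_cases h1 : i = 1
        · subst h1; simp
        · rw [Function.update_of_ne h1, Function.update_of_ne h1]
          have h4 : i ≠ φ.bd + 4 := by omega
          by_cases h0 : i = 0
          · subst h0
            simp [U.res_comp, U.res_id]
          · simp [Function.update_of_ne h4, Function.update_of_ne h0, U.res_comp])
      simpa [h41] using H5)
  rw [FU.forces_ex]
  refine Dn.of_all fun e1 k => ⟨U.res k b, ?_⟩
  rw [FU.forces_all]
  intro e2 l y
  rw [FU.forces_iff]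
  intro e3 m
  rw [FU.forces_mem, FU.forces_ex]
  have key := hb e3 (m ≫ l ≫ k) (U.res m y)
  have e1' : U.rs m (Function.update (U.rs l (Function.update (U.rs k v1) (φ.bd + 3)
      (U.res k b))) 1 y) 1 = U.res m y := by simp
  have e2' : U.rs m (Function.update (U.rs l (Function.update (U.rs k v1) (φ.bd + 3)
      (U.res k b))) 1 y) (φ.bd + 3) = U.res (m ≫ l ≫ k) b := by simp [h31, U.res_comp]
  rw [e1', e2', key]
  have e4 : ∀ (e4 : C) (n : e4 ⟶ e3) (x : U.El e4),
      (U.Forces (Fml.and (Fml.mem 0 (φ.bd + 2)) φ) e4 (Function.update (U.rs n (U.rs m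
        (Function.update (U.rs l (Function.update (U.rs k v1) (φ.bd + 3)
          (U.res k b))) 1 y))) 0 x)) ↔
      (U.mem x (U.res (n ≫ m ≫ l ≫ k) (v1 (φ.bd + 2))) ∧ U.Forces φ e4 (Function.update
        (Function.update (U.rs (n ≫ m ≫ l ≫ k) v1) 0 x) 1 (U.res n (U.res m y)))) := by
    intro e4 n x
    rw [FU.forces_and, FU.forces_mem]
    refine and_congr ?_ ?_
    · simp [h21, U.res_comp]
    · refine FU.forces_bd U φ _ _ (fun i hi => ?_)
      have h3 : i ≠ φ.bd + 3 := by omega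
      by_cases h1 : i = 1
      · subst h1; simp
      · by_cases h0 : i = 0
        · subst h0; simp
        · simp [Function.update_of_ne h1, Function.update_of_ne h0, Function.update_of_ne h3,
            U.res_comp]
  simp only [e4]
-- END Z8

/-- a two-valued model of `ZF` which satisfies all formulas forced at all stages -/
theorem FU.exists_zf_model (c₀ : C) : ∃ (M : Type) (E : M → M → Prop), IsZF E ∧
    ∀ φ : Fml, (∀ (c : C) (v : ℕ → U.El c), U.Forces φ c v) → ∀ v : ℕ → M, Sat E φ v := by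
  obtain ⟨M, E, hM, H⟩ := U.exists_model c₀
  exact ⟨M, E, isZF_of_sat E hM (H _ U.forces_axExt) (H _ U.forces_axFound)
    (H _ U.forces_axPair) (H _ U.forces_axUnion) (H _ U.forces_axPow) (H _ U.forces_axInf)
    (fun φ => H _ (U.forces_axSep φ)) (fun φ => H _ (U.forces_axRep φ)), H⟩

end Pool.Agent.Lib.ZFM
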